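import Pool.Agent.Lib.MP_78c6b1_al.CA.EEDefs

/-! The head `2, 2, 2, …` generated in degree one from degree three on: the set-up. -/

namespace Pool.Agent.P78.A3

open Submodule

variable {K : Type} [Field K]

/-- `u` and `v` span the plane. -/
def Sp (u v : K × K) : Prop := ∀ w, ∃ a b : K, w = a • u + b • v

lemma Sp.ind {u v : K × K} (h : Sp u v) {s t : K} (e : s • u + t • v = 0) : s = 0 ∧ t = 0 := by
  obtain ⟨a, b, h1⟩ := h (1, 0)
  obtain ⟨c, d, h2⟩ := h (0, 1)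
  simp only [Prod.ext_iff, Prod.fst_add, Prod.snd_add, Prod.smul_fst, Prod.smul_snd, smul_eq_mul,
    Prod.fst_zero, Prod.snd_zero] at h1 h2 e
  have hd : (a * d - b * c) * (u.1 * v.2 - u.2 * v.1) = 1 := by
    linear_combination (-(c * u.2 + d * v.2)) * h1.1 - h2.2 + (c * u.1 + d * v.1) * h1.2
  constructor
  · linear_combination (-s) * hd + (a * d - b * c) * (v.2 * e.1 - v.1 * e.2)
  · linear_combination (-t) * hd + (a * d - b * c) * (u.1 * e.2 - u.2 * e.1)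

lemma dep3 (u v w : K × K) : ∃ a b c : K, (a ≠ 0 ∨ b ≠ 0 ∨ c ≠ 0) ∧ a • u + b • v + c • w = 0 := by
  by_cases h : u.1 * v.2 - u.2 * v.1 = 0
  · by_cases h1 : u.1 = 0
    · by_cases h2 : u.2 = 0
      · exact ⟨1, 0, 0, by simp, by ext <;> simp [h1, h2]⟩
      · refine ⟨v.2, -u.2, 0, by simp [h2], ?_⟩
        ext <;> simp
        · linear_combination h
        · ring
    · refine ⟨v.1, -u.1, 0, by simp [h1], ?_⟩
      ext <;> simp
      · ring
      · linear_combination -h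
  · refine ⟨v.1 * w.2 - v.2 * w.1, w.1 * u.2 - w.2 * u.1, _, Or.inr (Or.inr h), ?_⟩
    ext <;> simp <;> ring

lemma exf (w : K × K) : ∃ φ : (K × K) →ₗ[K] K, φ ≠ 0 ∧ φ w = 0 := by
  by_cases h : w = 0
  · exact ⟨LinearMap.fst K K K, fun e => by simpa using LinearMap.congr_fun e (1, 0), by simp [h]⟩
  · refine ⟨w.2 • LinearMap.fst K K K - w.1 • LinearMap.snd K K K, fun e => h ?_, by simp; ring⟩
    ext
    · simpa using LinearMap.congr_fun e (0, 1)
    · simpa using LinearMap.congr_fun e (1, 0)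

/-- The two generators `x`, `y` of degree one, `ω = [x, y]` and a second element `d` of degree two. -/
structure XY (β : Bil K) (x y : ℕ → Module.End K (K × K)) (ω d : K × K) : Prop where
  sur : ∃ p q : K, ∀ n v, 2 ≤ n → p • x n v + q • y n v = v
  dx : ∀ s t u v, 2 ≤ s → 2 ≤ t →
    β (s + 1) t (x s u) v = x (s + t) (β s t u v) - β s (t + 1) u (x t v)
  dy : ∀ s t u v, 2 ≤ s → 2 ≤ t →
    β (s + 1) t (y s u) v = y (s + t) (β s t u v) - β s (t + 1) u (y t v)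
  cm : ∀ t v, 2 ≤ t → β 2 t ω v = x (t + 1) (y t v) - y (t + 1) (x t v)
  anti : ∀ s t u v, 2 ≤ s → 2 ≤ t → β t s v u = - β s t u v
  sp2 : Sp ω d
  sp3 : Sp (x 2 ω) (y 2 ω)
  inj : ∀ s t u, 2 ≤ s → 2 ≤ t → β s t u = 0 → u = 0
  im : ∀ φ : (K × K) →ₗ[K] K, (∀ u v, φ (β 2 3 u v) = 0) → φ = 0

variable {β : Bil K} {x y : ℕ → Module.End K (K × K)} {ω d : K × K}

namespace XY

lemma shift (h : XY β x y ω d) (l : K) : XY β x y ω (d + l • ω) :=
  { h with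
    sp2 := fun w => by
      obtain ⟨a, b, rfl⟩ := h.sp2 w
      exact ⟨a - b * l, b, by module⟩ }

lemma swap (h : XY β x y ω d) : XY β y x (-ω) d where
  sur := by
    obtain ⟨p, q, e⟩ := h.sur
    exact ⟨q, p, fun n v hn => by rw [add_comm, e n v hn]⟩
  dx := h.dy
  dy := h.dx
  cm t v ht := by rw [map_neg, LinearMap.neg_apply, h.cm t v ht, neg_sub]
  anti := h.anti
  sp2 w := by
    obtain ⟨a, b, rfl⟩ := h.sp2 w
    exact ⟨-a, b, by module⟩
  sp3 w := by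
    obtain ⟨a, b, rfl⟩ := h.sp3 w
    exact ⟨-b, -a, by simp only [map_neg]; module⟩
  inj := h.inj
  im := h.im

lemma top (h : XY β x y ω d) {n : ℕ} (hn : 2 ≤ n) {S : Submodule K (K × K)}
    (h1 : ∀ w, x n w ∈ S) (h2 : ∀ w, y n w ∈ S) (w : K × K) : w ∈ S := by
  obtain ⟨p, q, e⟩ := h.sur
  rw [← e n w hn]
  exact add_mem (smul_mem _ _ (h1 w)) (smul_mem _ _ (h2 w))

lemma step (h : XY β x y ω d) {n : ℕ} (hn : 2 ≤ n) {S : Submodule K (K × K)} {u v : K × K}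
    (H : Sp u v) (h1 : x n u ∈ S) (h2 : x n v ∈ S) (h3 : y n u ∈ S) (h4 : y n v ∈ S) (w : K × K) :
    w ∈ S := by
  refine h.top hn (fun w => ?_) (fun w => ?_) w <;> obtain ⟨a, b, rfl⟩ := H w <;>
    simp only [map_add, map_smul]
  exacts [add_mem (smul_mem _ _ h1) (smul_mem _ _ h2), add_mem (smul_mem _ _ h3) (smul_mem _ _ h4)]

lemma sp (h : XY β x y ω d) {n : ℕ} (hn : 2 ≤ n) {u v u' v' : K × K} (H : Sp u v)
    (h1 : ∃ a b : K, a • u' + b • v' = x n u) (h2 : ∃ a b : K, a • u' + b • v' = x n v)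
    (h3 : ∃ a b : K, a • u' + b • v' = y n u) (h4 : ∃ a b : K, a • u' + b • v' = y n v) :
    Sp u' v' := fun w => by
  obtain ⟨a, b, e⟩ := mem_span_pair.1 (h.step hn (S := span K {u', v'}) H (mem_span_pair.2 h1)
    (mem_span_pair.2 h2) (mem_span_pair.2 h3) (mem_span_pair.2 h4) w)
  exact ⟨a, b, e.symm⟩

lemma fin (h : XY β x y ω d) {u v : K × K} (H : Sp u v) {φ : (K × K) →ₗ[K] K} (hφ : φ ≠ 0)
    (g0 : φ (x 7 (x 6 u)) = 0) (g1 : φ (x 7 (x 6 v)) = 0) (g2 : φ (x 7 (y 6 u)) = 0)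
    (g3 : φ (x 7 (y 6 v)) = 0) (g4 : φ (y 7 (x 6 u)) = 0) (g5 : φ (y 7 (x 6 v)) = 0)
    (g6 : φ (y 7 (y 6 u)) = 0) (g7 : φ (y 7 (y 6 v)) = 0) : False :=
  hφ (LinearMap.ext fun w => h.top (n := 7) (by omega) (S := LinearMap.ker φ)
    (h.step (n := 6) (by omega) (S := (LinearMap.ker φ).comap (x 7)) H g0 g1 g2 g3)
    (h.step (n := 6) (by omega) (S := (LinearMap.ker φ).comap (y 7)) H g4 g5 g6 g7) w)

lemma dep (h : XY β x y ω d) {n : ℕ} (hn : 2 ≤ n) {u1 v1 u2 v2 u3 v3 : K × K}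
    (h1 : x n u1 + y n v1 = 0) (h2 : x n u2 + y n v2 = 0) (h3 : x n u3 + y n v3 = 0) :
    ∃ a b c : K, (a ≠ 0 ∨ b ≠ 0 ∨ c ≠ 0) ∧ a • u1 + b • u2 + c • u3 = 0 ∧
      a • v1 + b • v2 + c • v3 = 0 := by
  obtain ⟨p, q, e⟩ := h.sur
  have k : ∀ u v, x n u + y n v = 0 → y n (q • u - p • v) = u ∧ x n (q • u - p • v) = -v := by
    intro u v huv
    simp only [map_sub, map_smul]
    exact ⟨by linear_combination (norm := module) e n u hn - p • huv,
      by linear_combination (norm := module) q • huv - e n v hn⟩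
  obtain ⟨a, b, c, h4, h5⟩ := dep3 (q • u1 - p • v1) (q • u2 - p • v2) (q • u3 - p • v3)
  have a1 := congrArg (y n) h5
  have a2 := congrArg (x n) h5
  rw [map_add, map_add, map_smul, map_smul, map_smul, map_zero] at a1 a2
  rw [(k _ _ h1).1, (k _ _ h2).1, (k _ _ h3).1] at a1
  rw [(k _ _ h1).2, (k _ _ h2).2, (k _ _ h3).2] at a2
  exact ⟨a, b, c, h4, a1, by linear_combination (norm := module) -a2⟩

lemma zero3 (h : XY β x y ω d) {s : ℕ} (hs : 2 ≤ s) {u : K × K} (h1 : β s 3 u (x 2 ω) = 0)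
    (h2 : β s 3 u (y 2 ω) = 0) : u = 0 :=
  h.inj s 3 u hs (by omega) (LinearMap.ext fun w => by
    obtain ⟨a, b, rfl⟩ := h.sp3 w
    simp [h1, h2])

lemma ne2 (h : XY β x y ω d) : ω ≠ 0 ∧ d ≠ 0 :=
  ⟨fun e => by simpa using (h.sp2.ind (s := 1) (t := 0) (by simp [e])).1,
    fun e => by simpa using (h.sp2.ind (s := 0) (t := 1) (by simp [e])).2⟩

lemma ne3 (h : XY β x y ω d) : x 2 ω ≠ 0 ∧ y 2 ω ≠ 0 :=
  ⟨fun e => by simpa using (h.sp3.ind (s := 1) (t := 0) (by simp [e])).1,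
    fun e => by simpa using (h.sp3.ind (s := 0) (t := 1) (by simp [e])).2⟩

variable [CharZero K]

lemma self (h : XY β x y ω d) {s : ℕ} (hs : 2 ≤ s) (u : K × K) : β s s u u = 0 := by
  have := h.anti s s u u hs hs
  have e : (2 : K) • β s s u u = 0 := by linear_combination (norm := module) this
  simpa using e

lemma sym (h : XY β x y ω d) : x 3 (y 2 ω) = y 3 (x 2 ω) := by
  have := h.self le_rfl ω
  rwa [h.cm 2 ω le_rfl, sub_eq_zero] at this

lemma ne22 (h : XY β x y ω d) : β 2 2 d ω ≠ 0 := fun e =>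
  h.ne2.2 (h.inj 2 2 d le_rfl le_rfl (LinearMap.ext fun w => by
    obtain ⟨a, b, rfl⟩ := h.sp2 w
    simp [e, h.self le_rfl d]))

lemma ne33 (h : XY β x y ω d) : β 3 3 (x 2 ω) (y 2 ω) ≠ 0 := fun e =>
  h.ne3.1 (h.zero3 (by omega) (h.self (by omega) _) e)

omit [CharZero K] in
lemma Dx (h : XY β x y ω d) (t : ℕ) (v : K × K) (ht : 2 ≤ t) :
    β 2 (t + 1) d (x t v) = x (2 + t) (β 2 t d v) - β 3 t (x 2 d) v := by
  rw [h.dx 2 t d v le_rfl ht, sub_sub_cancel]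

omit [CharZero K] in
lemma Dy (h : XY β x y ω d) (t : ℕ) (v : K × K) (ht : 2 ≤ t) :
    β 2 (t + 1) d (y t v) = y (2 + t) (β 2 t d v) - β 3 t (y 2 d) v := by
  rw [h.dy 2 t d v le_rfl ht, sub_sub_cancel]

omit [CharZero K] in
lemma D0 (h : XY β x y ω d) : β 2 2 d ω = y 3 (x 2 d) - x 3 (y 2 d) := by
  rw [h.anti 2 2 ω d le_rfl le_rfl, h.cm 2 d le_rfl, neg_sub]

end XY

end Pool.Agent.P78.A3
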