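import Pool.Agent.Lib.MP_78c6b1_al.CA.A3a

/-! The head `2, 2, 2, …` generated in degree one from degree three on: a double root. -/

namespace Pool.Agent.P78.A3

variable {K : Type} [Field K] [CharZero K]
variable {β : Bil K} {x y : ℕ → Module.End K (K × K)} {ω d : K × K}

namespace XY

omit [CharZero K] in
lemma norm (h : XY β x y ω d) : ∃ (d : K × K) (al ga be : K), XY β x y ω d ∧
    x 2 d = -(ga • x 2 ω + be • y 2 ω) ∧ y 2 d = -(al • x 2 ω) := by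
  obtain ⟨a, b, h1⟩ := h.sp3 (x 2 d)
  obtain ⟨c, e, h2⟩ := h.sp3 (y 2 d)
  refine ⟨_, -c, e - a, -b, h.shift (-e), ?_, ?_⟩
  · rw [map_add, map_smul, h1]; module
  · rw [map_add, map_smul, h2]; module

lemma caseA1 (h : XY β x y ω d) {b c ga be : K} (hga : ga ≠ 0)
    (hx : x 2 d = -(ga • x 2 ω + be • y 2 ω)) (hy : y 2 d = 0)
    (r1 : y 3 (y 2 ω) = 0) (r2 : y 3 (x 2 ω) = x 3 (y 2 ω))
    (r3 : x 4 (x 3 (y 2 ω)) = (2 : K) • y 4 (x 3 (x 2 ω)) + (3 * c) • y 4 (x 3 (y 2 ω)))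
    (r4 : x 4 (x 3 (x 2 ω)) = (-5 * c) • y 4 (x 3 (x 2 ω)) + (-b - 9 * c ^ 2) • y 4 (x 3 (y 2 ω)))
    (r5 : x 5 (y 4 (x 3 (y 2 ω))) = (5 / 3 : K) • y 5 (y 4 (x 3 (x 2 ω))))
    (r6 : y 5 (y 4 (x 3 (y 2 ω))) = 0)
    (H : Sp (x 5 (y 4 (x 3 (x 2 ω)))) (y 5 (y 4 (x 3 (x 2 ω))))) : False := by
  obtain ⟨φ, hφ, g2⟩ := exf (x 7 (y 6 (x 5 (y 4 (x 3 (x 2 ω))))))
  have s1 := congrArg φ (h.self (s := 4) (by omega) (x 3 (x 2 ω)))
  have s2 := congrArg φ (h.anti 4 4 (x 3 (x 2 ω)) (x 3 (y 2 ω)) (by omega) (by omega))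
  have s3 : φ (β 4 4 (y 3 (y 2 ω)) (x 3 (x 2 ω))) = 0 := by simp [r1]
  have s4 := congrArg φ (h.self (s := 4) (by omega) (x 3 (y 2 ω)))
  have s5 : φ (β 4 4 (y 3 (y 2 ω)) (x 3 (y 2 ω))) = 0 := by simp [r1]
  have t := congrArg (β 2 5 d) r3
  simp (disch := omega) only [h.Dx, h.Dy, h.D0, hx, hy, Nat.reduceAdd, map_add, map_smul, map_neg,
    map_sub, map_zero, LinearMap.add_apply, LinearMap.smul_apply, LinearMap.neg_apply,
    LinearMap.zero_apply] at t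
  have t1 := congrArg (fun v => φ (x 7 v)) t
  have t2 := congrArg (fun v => φ (y 7 v)) t
  simp (disch := omega) only [h.dx, h.dy, h.cm, Nat.reduceAdd, map_sub, map_neg, map_add,
    map_smul] at s1 s2 s3 s4 s5 t1 t2
  simp only [r1, r2, r3, r4, r5, r6, g2, map_add, map_smul, map_zero, smul_eq_mul] at s1 s2 s3 s4 s5 t1 t2
  generalize x 5 (y 4 (x 3 (x 2 ω))) = u at *
  generalize y 5 (y 4 (x 3 (x 2 ω))) = v at *
  have g7 : φ (y 7 (y 6 v)) = 0 := by linear_combination (1 / 3) * s5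
  rw [g7] at s2 s3 s4 t2
  have a1 : -16 / 3 * φ (y 7 (x 6 v)) + 8 * φ (y 7 (y 6 u)) = 0 :=
    mul_left_cancel₀ hga (by linear_combination t2)
  have g6 : φ (y 7 (y 6 u)) = 0 := by linear_combination s4 - 10 / 3 * s3 + 9 / 8 * a1
  have g5 : φ (y 7 (x 6 v)) = 0 := by linear_combination -3 / 16 * a1 + 3 / 2 * g6
  have g3 : φ (x 7 (y 6 v)) = 0 := by linear_combination s3 + 3 * g5 - 3 * g6
  rw [g3, g5] at s1 s2
  rw [g3] at t1
  have g1 : φ (x 7 (x 6 v)) = 0 := mul_left_cancel₀ hga (by linear_combination -3 / 16 * t1)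
  have g4 : φ (y 7 (x 6 u)) = 0 := by linear_combination -1 / 2 * s2 - 8 / 3 * g1 - 5 / 2 * c * g6
  have g0 : φ (x 7 (x 6 u)) = 0 := by linear_combination s1 - 15 * c * g1 - 5 * c * g4
  exact h.fin H hφ g0 g1 g2 g3 g4 g5 g6 g7

lemma caseA (h₀ : XY β x y ω d) (r1 : y 3 (y 2 ω) = 0) : False := by
  obtain ⟨d, al, ga, be, h, hx, hy⟩ := h₀.norm
  have r2 := h.sym.symm
  have H4 : Sp (x 3 (x 2 ω)) (x 3 (y 2 ω)) := h.sp (n := 3) (by omega) h.sp3 ⟨1, 0, by module⟩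
    ⟨0, 1, by module⟩ ⟨0, 1, by rw [r2]; module⟩ ⟨0, 0, by rw [r1]; module⟩
  have u1 := h.anti 2 4 ω (x 3 (x 2 ω)) le_rfl (by omega)
  have u2 := h.anti 2 4 ω (y 3 (y 2 ω)) le_rfl (by omega)
  have u3 := h.anti 2 4 ω (x 3 (y 2 ω)) le_rfl (by omega)
  have u4 : β 2 4 d (y 3 (y 2 ω)) = 0 := by simp [r1]
  have u5 := h.ne33
  have u6 := h.ne22
  have u7 := h.anti 2 3 d (y 2 ω) le_rfl (by omega)
  have u8 := h.dy 2 2 ω ω le_rfl le_rfl
  simp (disch := omega) only [h.Dy, h.D0, hx, hy, Nat.reduceAdd, map_add, map_smul, map_neg,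
    map_sub, LinearMap.smul_apply, LinearMap.neg_apply] at u4 u6
  rw [h.Dy 2 ω le_rfl, h.D0, hx, hy] at u7
  simp (disch := omega) only [h.dx, h.dy, h.cm, Nat.reduceAdd, map_sub] at u1 u2 u3 u4 u5
  simp (disch := omega) only [h.cm, Nat.reduceAdd, map_sub] at u8
  simp only [r1, r2, map_zero, map_add, map_neg, map_sub, map_smul, Nat.reduceAdd,
    LinearMap.neg_apply, LinearMap.smul_apply] at u1 u2 u3 u4 u5 u6 u7 u8
  set e1 := x 4 (x 3 (x 2 ω))
  set e2 := x 4 (x 3 (y 2 ω))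
  set e3 := y 4 (x 3 (x 2 ω))
  set e4 := y 4 (x 3 (y 2 ω))
  have r6 : y 5 e4 = 0 := by linear_combination (norm := module) (1 / 2 : K) • u2
  obtain ⟨a, b, c, h0, h1, h2⟩ := h.dep (n := 5) (by omega)
    (u1 := e2 - (2 : K) • e3) (v1 := e1) (u2 := 0) (v2 := e4) (u3 := (-3 : K) • e4)
    (v3 := (3 : K) • e2 - e3)
    (by simp only [map_sub, map_smul]; linear_combination (norm := module) (-1 / 2 : K) • u1)
    (by rw [r6, map_zero, add_zero])
    (by simp only [map_sub, map_smul]; linear_combination (norm := module) -u3)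
  by_cases ha : a = 0
  · have h4 : e4 = 0 := by
      by_cases hc : c = 0
      · simpa [ha, hc, (h0.resolve_left (by simp [ha])).resolve_right (by simp [hc])] using h2
      · simpa [ha, hc] using h1
    rw [h4] at u3 u4 u5 u7 u8
    simp only [map_zero] at u3 u4 u5
    by_cases hal : al = 0
    · refine h.ne3.2 (h.inj 3 2 _ (by omega) le_rfl (LinearMap.ext fun w => ?_))
      obtain ⟨s, t, rfl⟩ := h.sp2 w
      simp [u7, u8, hal]
    · have h5 : y 5 e3 = 0 := (smul_eq_zero.1 (show al • y 5 e3 = 0 by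
        linear_combination (norm := module) (1 / 2 : K) • u4)).resolve_left hal
      exact u5 (by linear_combination (norm := module) (-1 / 3 : K) • u3 + (1 / 3 : K) • h5)
  obtain ⟨b, rfl⟩ : ∃ b', b = a * b' := ⟨b / a, by field_simp⟩
  obtain ⟨c, rfl⟩ : ∃ c', c = a * c' := ⟨c / a, by field_simp⟩
  have r3 : e2 = (2 : K) • e3 + (3 * c) • e4 :=
    smul_right_injective _ ha (by dsimp only; linear_combination (norm := module) h1)
  have r4 : e1 = (-5 * c) • e3 + (-b - 9 * c ^ 2) • e4 :=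
    smul_right_injective _ ha (by
      dsimp only; linear_combination (norm := module) h2 - (3 * a * c) • r3)
  have H5 : Sp e3 e4 := h.sp (n := 4) (by omega) H4 ⟨_, _, r4.symm⟩ ⟨_, _, r3.symm⟩
    ⟨1, 0, by module⟩ ⟨0, 1, by module⟩
  rw [r3] at u3
  simp only [map_add, map_smul, r6] at u3 u4
  have r5 : x 5 e4 = (5 / 3 : K) • y 5 e3 := by linear_combination (norm := module) (1 / 3 : K) • u3
  have H6 : Sp (x 5 e3) (y 5 e3) := h.sp (n := 5) (by omega) H5 ⟨1, 0, by module⟩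
    ⟨0, _, by rw [r5, zero_smul, zero_add]⟩ ⟨0, 1, by module⟩ ⟨0, 0, by rw [r6]; module⟩
  have hal : al = 0 := (H6.ind (s := 0) (by
    rw [r5] at u4; linear_combination (norm := module) (-3 / 4 : K) • u4)).2
  exact h.caseA1 (ga := ga) (fun e => u6 (by simp [e, hal])) hx (by simp [hy, hal]) r1 r2 r3 r4 r5 r6 H6

end XY

end Pool.Agent.P78.A3
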