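import Pool.Agent.Lib.MP_78c6b1_al.CA.A3b

/-! The head `2, 2, 2, …` generated in degree one from degree three on: two simple roots. -/

namespace Pool.Agent.P78.A3

variable {K : Type} [Field K] [CharZero K]
variable {β : Bil K} {x y : ℕ → Module.End K (K × K)} {ω d : K × K}

namespace XY

lemma caseB1 (h : XY β x y ω d) {b c al ga be : K} (hc : c ≠ 0)
    (h0 : (b ≠ 0 ∧ al ≠ 0 ∧ ga = c * al ∧ be = b * al) ∨
      (b = 0 ∧ be ≠ 0 ∧ c * ga = c ^ 2 * al - 4 * be))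
    (hx : x 2 d = -(ga • x 2 ω + be • y 2 ω)) (hy : y 2 d = -(al • x 2 ω))
    (r1 : x 3 (y 2 ω) = 0) (r2 : y 3 (x 2 ω) = 0)
    (r3 : y 4 (x 3 (x 2 ω)) = (-c / 2) • x 4 (y 3 (y 2 ω)) + (b / 2) • y 4 (y 3 (y 2 ω)))
    (r4 : x 4 (x 3 (x 2 ω)) =
      (2 * b + c ^ 2 / 2) • x 4 (y 3 (y 2 ω)) + (-(b * c) / 2) • y 4 (y 3 (y 2 ω)))
    (r5 : x 5 (x 4 (y 3 (y 2 ω))) =
      (-c / 2) • y 5 (x 4 (y 3 (y 2 ω))) + (b / 2) • y 5 (y 4 (y 3 (y 2 ω))))
    (r6 : x 5 (y 4 (y 3 (y 2 ω))) = (2 : K) • y 5 (x 4 (y 3 (y 2 ω))))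
    (H : Sp (y 5 (x 4 (y 3 (y 2 ω)))) (y 5 (y 4 (y 3 (y 2 ω))))) : False := by
  obtain ⟨φ, hφ, g7⟩ := exf (y 7 (y 6 (y 5 (y 4 (y 3 (y 2 ω))))))
  have s1 := congrArg φ (h.self (s := 4) (by omega) (x 3 (x 2 ω)))
  have s2 : φ (β 4 4 (x 3 (y 2 ω)) (x 3 (x 2 ω))) = 0 := by simp [r1]
  have s3 := congrArg φ (h.anti 4 4 (x 3 (x 2 ω)) (y 3 (y 2 ω)) (by omega) (by omega))
  have s4 : φ (β 4 4 (x 3 (y 2 ω)) (y 3 (y 2 ω))) = 0 := by simp [r1]
  have s5 := congrArg φ (h.self (s := 4) (by omega) (y 3 (y 2 ω)))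
  have t := congrArg (β 2 5 d) r3
  have t' := congrArg (β 2 5 d) r4
  simp (disch := omega) only [h.Dx, h.Dy, h.D0, hx, hy, Nat.reduceAdd, map_add, map_smul, map_neg,
    map_sub, LinearMap.add_apply, LinearMap.smul_apply, LinearMap.neg_apply] at t t'
  have t1 := congrArg (fun v => φ (x 7 v)) t
  have t2 := congrArg (fun v => φ (y 7 v)) t
  have t3 := congrArg (fun v => φ (x 7 v)) t'
  have t4 := congrArg (fun v => φ (y 7 v)) t'
  simp (disch := omega) only [h.dx, h.dy, h.cm, Nat.reduceAdd, map_sub, map_neg, map_add,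
    map_smul] at s1 s2 s3 s4 s5 t1 t2 t3 t4
  simp only [r1, r2, r3, r4, r5, r6, g7, map_add, map_smul, map_zero, smul_eq_mul]
    at s1 s2 s3 s4 s5 t1 t2 t3 t4
  clear t t' r3 r4 r5 r6
  generalize y 5 (x 4 (y 3 (y 2 ω))) = u at *
  generalize y 5 (y 4 (y 3 (y 2 ω))) = v at *
  rcases h0 with ⟨hb, hal, rfl, rfl⟩ | ⟨rfl, hbe, hga⟩
  · ring_nf at s1 s2 s3 s4 s5 t1 t2 t3 t4
    have g6 : φ (y 7 (y 6 u)) = 0 := mul_left_cancel₀ (a := al * b * c ^ 9) (by simp [hal, hb, hc]) (by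
      linear_combination al * ((-2512/51) * c ^ 7 + (-11992/51) * b * c ^ 5 + (15808/17) * b ^ 2 * c
        ^ 3) * s1 + al * ((-3296/153) * c ^ 8 + (-15988/153) * b * c ^ 6 + (-85376/51) * b ^ 2 * c ^
        4 + (45312/17) * b ^ 3 * c ^ 2 + (116736/17) * b ^ 4) * s2 + al * ((848/153) * c ^ 9 +
        (12184/153) * b * c ^ 7 + (-6920/51) * b ^ 2 * c ^ 5 + (-16032/17) * b ^ 3 * c ^ 3 +
        (29184/17) * b ^ 4 * c) * s3 + ((4616/153) * c ^ 7 + (33232/153) * b * c ^ 5 + (-50080/51) *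
        b ^ 2 * c ^ 3 + (9728/17) * b ^ 3 * c) * t1 + ((2072/153) * c ^ 8 + (22540/153) * b * c ^ 6
        + (59696/51) * b ^ 2 * c ^ 4 + (-25856/17) * b ^ 3 * c ^ 2 + (-116736/17) * b ^ 4) * t2 +
        ((8) * c ^ 6 + (-400/3) * b * c ^ 4 + (4864/17) * b ^ 2 * c ^ 2) * t3 + ((2072/153) * c ^ 7
        + (12556/153) * b * c ^ 5 + (41552/51) * b ^ 2 * c ^ 3 + (-48640/17) * b ^ 3 * c) * t4 + al
        * ((-4240/153) * b * c ^ 8 + (-40760/153) * b ^ 2 * c ^ 6 + (91520/51) * b ^ 3 * c ^ 4 +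
        (-17792/17) * b ^ 4 * c ^ 2 + (-58368/17) * b ^ 5) * s4)
    have g4 : φ (y 7 (x 6 u)) = 0 := mul_left_cancel₀ (a := al * c ^ 5) (by simp [hal, hc]) (by
      linear_combination al * ((-49/81) * c ^ 2) * s1 + al * ((-49/486) * c ^ 3 + (-98/27) * b * c)
        * s2 + al * ((49/486) * c ^ 4) * s3 + ((98/243) * c ^ 2) * t1 + ((-275/486) * c ^ 3 +
        (322/81) * b * c) * t2 + ((211/486) * c ^ 2 + (28/27) * b) * t4 + al * ((-245/486) * b * c ^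
        3 + (49/27) * b ^ 2 * c) * s4 - al * (1/3 * c ^ 6 - 47/18 * b * c ^ 4 + 221/54 * b ^ 2 * c ^
        2 - 56/9 * b ^ 3) * g6)
    have g5 : φ (y 7 (x 6 v)) = 0 := mul_left_cancel₀ (a := al * b * c ^ 1) (by simp [hal, hb, hc]) (by
      linear_combination ((2)) * t2 - al * (-c ^ 3 + 2 * b * c) * g6 - al * (-3 * c ^ 2 - 6 * b) *
        g4)
    have g3 : φ (x 7 (y 6 v)) = 0 := mul_left_cancel₀ hal (by
      linear_combination al * ((1)) * s5 - al * (5) * g6 - al * (-3) * g5)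
    have g2 : φ (x 7 (y 6 u)) = 0 := mul_left_cancel₀ (a := al * c ^ 3) (by simp [hal, hc]) (by
      linear_combination al * ((-2/3)) * s1 + al * ((-1) * c) * s2 + al * ((-2/3) * c ^ 2 + (4/3) *
        b) * s3 + ((2/3)) * t1 - al * (1/12 * c ^ 4 + 5/3 * b * c ^ 2 + 4/3 * b ^ 2) * g6 - al *
        (-1/2 * c ^ 3 + 16/3 * b * c) * g4 - al * (1/2 * b * c ^ 2 - 2 * b ^ 2) * g5 - al * (-b * c
        ^ 2 + 2/3 * b ^ 2) * g3)
    have g1 : φ (x 7 (x 6 v)) = 0 := mul_left_cancel₀ hal (by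
      linear_combination al * ((-1)) * s4 - al * (1/2 * c) * g6 - al * (2) * g4 - al * (-4) * g2)
    have g0 : φ (x 7 (x 6 u)) = 0 := mul_left_cancel₀ (a := al * c ^ 1) (by simp [hal, hc]) (by
      linear_combination al * ((2)) * s2 - al * (-1/2 * c ^ 3 - 4 * b * c) * g6 - al * (-2 * c ^ 2 -
        8 * b) * g4 - al * (2 * b * c) * g5 - al * (-b * c) * g3 - al * (c ^ 2 + 4 * b) * g2 - al *
        (-b) * g1)
    exact h.fin H hφ g0 g1 g2 g3 g4 g5 g6 g7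
  · have a1 : -5 * φ (x 7 (x 6 u)) - 3 * c * φ (x 7 (y 6 u)) + c * φ (y 7 (x 6 u)) = 0 :=
      mul_left_cancel₀ (pow_ne_zero 2 hc) (by linear_combination 4 * s1)
    have a2 : 2 * φ (x 7 (x 6 u)) + 2 * c * φ (x 7 (y 6 u)) - 4 * c * φ (y 7 (x 6 u)) -
        c ^ 2 * φ (y 7 (y 6 u)) = 0 := mul_left_cancel₀ hc (by linear_combination 4 * s2)
    have a3 : 4 * φ (x 7 (x 6 u)) + c * φ (x 7 (x 6 v)) - 3 / 2 * c * φ (x 7 (y 6 u)) = 0 :=
      mul_left_cancel₀ (mul_ne_zero hc hbe) (by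
        linear_combination t3 + c / 2 * φ (x 7 (x 6 u)) * hga)
    have a4 : 4 * φ (y 7 (x 6 u)) + c * φ (y 7 (x 6 v)) - 3 / 2 * c * φ (y 7 (y 6 u)) = 0 :=
      mul_left_cancel₀ (mul_ne_zero hc hbe) (by
        linear_combination t4 + c / 2 * φ (y 7 (x 6 u)) * hga)
    have g0 : φ (x 7 (x 6 u)) = 0 := by
      linear_combination -2 / 3 * a1 + 1 / 2 * a2 + 2 / 3 * s3 - 2 / 3 * c * s4 - 2 / 3 * a3
    have g2 : φ (x 7 (y 6 u)) = 0 := mul_left_cancel₀ hc (by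
      linear_combination -2 / 3 * a1 + 1 / 6 * a2 + 2 / 3 * s3 - 3 * g0)
    have g4 : φ (y 7 (x 6 u)) = 0 := mul_left_cancel₀ hc (by
      linear_combination a1 + 5 * g0 + 3 * c * g2)
    have g6 : φ (y 7 (y 6 u)) = 0 := mul_left_cancel₀ (pow_ne_zero 2 hc) (by
      linear_combination -a2 + 2 * g0 + 2 * c * g2 - 4 * c * g4)
    have g1 : φ (x 7 (x 6 v)) = 0 := by linear_combination -s4 + 4 * g2 - 2 * g4 - c / 2 * g6
    have g5 : φ (y 7 (x 6 v)) = 0 := mul_left_cancel₀ hc (by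
      linear_combination a4 - 4 * g4 + 3 / 2 * c * g6)
    have g3 : φ (x 7 (y 6 v)) = 0 := by linear_combination s5 + 3 * g5 - 5 * g6
    exact h.fin H hφ g0 g1 g2 g3 g4 g5 g6 g7

lemma relB (h : XY β x y ω d) (r1 : x 3 (y 2 ω) = 0) :
    x 5 ((2 : K) • y 4 (x 3 (x 2 ω))) + y 5 (-x 4 (x 3 (x 2 ω))) = 0 ∧
    x 5 (-y 4 (y 3 (y 2 ω))) + y 5 ((2 : K) • x 4 (y 3 (y 2 ω))) = 0 ∧
    x 5 (x 4 (y 3 (y 2 ω))) + y 5 (-y 4 (x 3 (x 2 ω))) = 0 := by
  have r2 := h.sym.symm.trans r1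
  have u1 := h.anti 2 4 ω (x 3 (x 2 ω)) le_rfl (by omega)
  have u2 := h.anti 2 4 ω (y 3 (y 2 ω)) le_rfl (by omega)
  have u3 := h.anti 2 4 ω (x 3 (y 2 ω)) le_rfl (by omega)
  simp (disch := omega) only [h.dx, h.dy, h.cm, Nat.reduceAdd, map_sub] at u1 u2 u3
  simp only [r1, r2, map_zero] at u1 u2 u3
  simp only [map_neg, map_smul]
  exact ⟨by linear_combination (norm := module) (1 / 2 : K) • u1,
    by linear_combination (norm := module) (-1 / 2 : K) • u2,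
    by linear_combination (norm := module) -u3⟩

lemma caseB2 (h₀ : XY β x y ω d) (r1 : x 3 (y 2 ω) = 0) {b c : K}
    (h1 : (2 : K) • y 4 (x 3 (x 2 ω)) - b • y 4 (y 3 (y 2 ω)) + c • x 4 (y 3 (y 2 ω)) = 0)
    (h2 : x 4 (x 3 (x 2 ω)) - (2 * b) • x 4 (y 3 (y 2 ω)) + c • y 4 (x 3 (x 2 ω)) = 0) : False := by
  obtain ⟨d, al, ga, be, h, hx, hy⟩ := h₀.norm
  have r2 := h.sym.symm.trans r1
  have H4 : Sp (x 3 (x 2 ω)) (y 3 (y 2 ω)) := h.sp (n := 3) (by omega) h.sp3 ⟨1, 0, by module⟩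
    ⟨0, 0, by rw [r1]; module⟩ ⟨0, 0, by rw [r2]; module⟩ ⟨0, 1, by module⟩
  obtain ⟨-, u2, u3⟩ := h.relB r1
  have u4 : β 2 4 d (x 3 (y 2 ω)) = 0 := by simp [r1]
  have u6 := h.ne22
  have v1 := h.Dx 2 ω le_rfl
  have v2 := h.Dy 2 ω le_rfl
  have v3 := h.cm 3 (x 2 ω) (by omega)
  have v4 := h.cm 3 (y 2 ω) (by omega)
  simp (disch := omega) only [h.Dx, h.Dy, h.D0, hx, hy, Nat.reduceAdd, map_add, map_smul, map_neg,
    map_sub, LinearMap.add_apply, LinearMap.smul_apply, LinearMap.neg_apply] at u4 u6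
  rw [h.D0, hx, hy] at v1
  rw [h.D0, hx, hy] at v2
  simp only [map_add, map_smul, map_neg, map_sub, LinearMap.add_apply, LinearMap.smul_apply,
    LinearMap.neg_apply, h.dx 2 2 _ ω le_rfl le_rfl, h.dy 2 2 _ ω le_rfl le_rfl, v3, v4,
    h.self le_rfl, Nat.reduceAdd] at v1 v2
  simp (disch := omega) only [h.dx, h.dy, h.cm, Nat.reduceAdd, map_sub] at u4
  simp only [r1, r2, map_zero, map_neg, map_smul, Nat.reduceAdd] at u2 u3 u4 u6 v1 v2 v3 v4
  set e1 := x 4 (x 3 (x 2 ω))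
  set e2 := y 4 (x 3 (x 2 ω))
  set e3 := x 4 (y 3 (y 2 ω))
  set e4 := y 4 (y 3 (y 2 ω))
  have r3 : e2 = (-c / 2) • e3 + (b / 2) • e4 := by
    linear_combination (norm := module) (1 / 2 : K) • h1
  have r4 : e1 = (2 * b + c ^ 2 / 2) • e3 + (-(b * c) / 2) • e4 := by
    linear_combination (norm := module) h2 - c • r3
  have H5 : Sp e3 e4 := h.sp (n := 4) (by omega) H4 ⟨_, _, r4.symm⟩ ⟨1, 0, by module⟩
    ⟨_, _, r3.symm⟩ ⟨0, 1, by module⟩
  rw [r4, r3] at v1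
  rw [r3] at u3 u4 v2 v3
  simp only [map_add, map_smul] at u3 u4
  have r5 : x 5 e3 = (-c / 2) • y 5 e3 + (b / 2) • y 5 e4 := by
    linear_combination (norm := module) u3
  have r6 : x 5 e4 = (2 : K) • y 5 e3 := by linear_combination (norm := module) -u2
  have H6 : Sp (y 5 e3) (y 5 e4) := h.sp (n := 5) (by omega) H5 ⟨_, _, r5.symm⟩
    ⟨2, 0, by rw [r6, zero_smul, add_zero]⟩ ⟨1, 0, by module⟩ ⟨0, 1, by module⟩
  rw [r5, r6] at u4
  obtain ⟨a1, a2⟩ := H6.ind (s := c ^ 2 * al / 2 + 2 * b * al - c * ga / 2 - 2 * be)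
    (t := b * (ga - c * al) / 2) (by linear_combination (norm := module) u4)
  by_cases hb : b = 0
  · subst hb
    have hbe : be ≠ 0 := by
      rintro rfl
      obtain ⟨φ, hφ, a3⟩ := exf e3
      refine hφ (h.im φ fun u v => ?_)
      obtain ⟨s, t, rfl⟩ := h.sp2 u
      obtain ⟨s', t', rfl⟩ := h.sp3 v
      simp [v1, v2, v3, v4, a3]
    refine h.caseB1 (fun e => hbe ?_) (Or.inr ⟨rfl, hbe, by linear_combination -2 * a1⟩) hx hy r1 r2
      r3 r4 r5 r6 H6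
    rw [e] at a1
    linear_combination -1 / 2 * a1
  have a3 : ga = c * al := mul_left_cancel₀ hb (by linear_combination 2 * a2)
  have a4 : be = b * al := by linear_combination -1 / 2 * a1 - c / 4 * a3
  subst a3 a4
  refine h.caseB1 ?_ (Or.inl ⟨hb, fun e => u6 (by simp [e]), rfl, rfl⟩) hx hy r1 r2 r3 r4 r5 r6 H6
  rintro rfl
  exact h.ne2.2 (h.zero3 le_rfl (by rw [v1]; module) (by rw [v2]; module))

lemma caseB (h : XY β x y ω d) (r1 : x 3 (y 2 ω) = 0) : False := by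
  obtain ⟨u1, u2, u3⟩ := h.relB r1
  obtain ⟨a, b, c, h0, h1, h2⟩ := h.dep (n := 5) (by omega) u1 u2 u3
  have r2 := h.sym.symm.trans r1
  by_cases ha : a = 0
  · by_cases hb : b = 0
    · have hc := (h0.resolve_left (by simp [ha])).resolve_left (by simp [hb])
      simp only [ha, hb, zero_smul, zero_add, smul_eq_zero, hc, false_or, neg_eq_zero] at h1 h2
      exact h.ne2.1 (h.zero3 le_rfl (by simp [h.cm 3 _ (by omega), r2, h2])
        (by simp [h.cm 3 _ (by omega), r1, h1]))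
    obtain ⟨c, rfl⟩ : ∃ c', c = b * c' := ⟨c / b, by field_simp⟩
    refine h.swap.caseB2 (by simp [r2]) (b := 0) (c := -c) (smul_right_injective _ hb ?_)
      (smul_right_injective _ hb ?_) <;> simp only [map_neg, ha] at *
    · linear_combination (norm := module) -h2
    · linear_combination (norm := module) h1
  obtain ⟨b, rfl⟩ : ∃ b', b = a * b' := ⟨b / a, by field_simp⟩
  obtain ⟨c, rfl⟩ : ∃ c', c = a * c' := ⟨c / a, by field_simp⟩
  refine h.caseB2 r1 (b := b) (c := c) (smul_right_injective _ ha ?_) (smul_right_injective _ ha ?_)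
  · dsimp only; linear_combination (norm := module) h1
  · dsimp only; linear_combination (norm := module) -h2

end XY

end Pool.Agent.P78.A3
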