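import Pool.Agent.Lib.MP_78c6b1_al.CA.A3c

/-! The head `2, 2, 2, …` generated in degree one from degree three on is impossible. -/

namespace Pool.Agent.P78

namespace A3

variable {K : Type} [Field K]

/-- The data used: brackets in degrees at least two and the action `A` of the second generator. -/
structure Hd (β : Bil K) (A : ℕ → Module.End K (K × K)) : Prop where
  der : ∀ s t u v, 2 ≤ s → 2 ≤ t → β s t u v = β (s + 1) t u v + β s (t + 1) u v
  one : ∀ t v, 2 ≤ t → A t v = β 2 t (1, 0) v + A (t + 1) v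
  anti : ∀ s t u v, 2 ≤ s → 2 ≤ t → β t s v u = - β s t u v
  jac : ∀ s t u v, 2 ≤ s → 2 ≤ t →
    β (s + 1) t (A s u) v = A (s + t) (β s t u v) - β s (t + 1) u (A t v)
  ne : (A 2 (1, 0)).2 ≠ 0
  inj : ∀ s t u, 2 ≤ s → 2 ≤ t → β s t u = 0 → u = 0
  im : ∀ c e : K, (∀ u v, c * (β 2 3 u v).1 + e * (β 2 3 u v).2 = 0) → c = 0 ∧ e = 0

variable {β : Bil K} {A : ℕ → Module.End K (K × K)}

lemma Hd.xy (h : Hd β A) {a₁ c₁ a₂ c₂ : K} (hδ : a₂ * c₁ - a₁ * c₂ ≠ 0) :
    XY β (fun n => a₁ • A n + c₁ • 1) (fun n => a₂ • A n + c₂ • 1)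
      ((a₂ * c₁ - a₁ * c₂) • (1, 0)) (0, 1) := by
  have k : ∀ (a c : K) s t u v, 2 ≤ s → 2 ≤ t → β (s + 1) t ((a • A s + c • 1 : Module.End K _) u) v =
      (a • A (s + t) + c • 1 : Module.End K _) (β s t u v) -
        β s (t + 1) u ((a • A t + c • 1 : Module.End K _) v) := by
    intro a c s t u v hs ht
    simp only [LinearMap.add_apply, LinearMap.smul_apply, Module.End.one_apply, map_add, map_smul]
    linear_combination (norm := module) a • h.jac s t u v hs ht - c • h.der s t u v hs ht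
  refine ⟨⟨a₂ / (a₂ * c₁ - a₁ * c₂), -a₁ / (a₂ * c₁ - a₁ * c₂), fun n v _ => ?_⟩, k _ _, k _ _,
    fun t v ht => ?_, h.anti, fun w => ⟨w.1 / (a₂ * c₁ - a₁ * c₂), w.2, ?_⟩, fun w => ?_, h.inj,
    fun φ hφ => ?_⟩
  · simp only [LinearMap.add_apply, LinearMap.smul_apply, Module.End.one_apply]
    match_scalars <;> field_simp <;> ring
  · simp only [LinearMap.add_apply, LinearMap.smul_apply, Module.End.one_apply, map_add, map_smul]
    linear_combination (norm := module) (a₁ * c₂ - a₂ * c₁) • h.one t v ht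
  · ext <;> simp [hδ]
  · have hn := h.ne
    set δ := a₂ * c₁ - a₁ * c₂ with e
    refine ⟨(a₂ * (w.1 * (A 2 (1, 0)).2 - w.2 * (A 2 (1, 0)).1) - c₂ * w.2) / (δ ^ 2 * (A 2 (1, 0)).2),
      (c₁ * w.2 - a₁ * (w.1 * (A 2 (1, 0)).2 - w.2 * (A 2 (1, 0)).1)) / (δ ^ 2 * (A 2 (1, 0)).2), ?_⟩
    simp only [LinearMap.add_apply, LinearMap.smul_apply, Module.End.one_apply, map_smul]
    ext <;> simp <;> field_simp <;> rw [e] <;> ring
  · have e : ∀ w : K × K, φ w = φ (1, 0) * w.1 + φ (0, 1) * w.2 := fun w => by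
      rw [mul_comm, mul_comm (φ (0, 1)), ← smul_eq_mul, ← smul_eq_mul, ← map_smul, ← map_smul, ← map_add]
      simp
    obtain ⟨h1, h2⟩ := h.im _ _ fun u v => (e _).symm.trans (hφ u v)
    exact LinearMap.ext fun w => by simp [e w, h1, h2]

lemma Hd.false [CharZero K] [IsAlgClosed K] (h : Hd β A) : False := by
  have h1 : A 3 (1, 0) = A 2 (1, 0) := by
    have a1 := h.anti 2 2 (1, 0) (1, 0) le_rfl le_rfl
    linear_combination (norm := module) -h.one 2 (1, 0) le_rfl - (1 / 2 : K) • a1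
  obtain ⟨r, hr⟩ := IsAlgClosed.exists_eq_mul_self
    (((A 3 (1, 0)).1 - (A 3 (0, 1)).2) ^ 2 + 4 * (A 3 (1, 0)).2 * (A 3 (0, 1)).1)
  have h2 : ∀ w : K × K, A 3 w = w.1 • A 3 (1, 0) + w.2 • A 3 (0, 1) := fun w => by
    rw [← map_smul, ← map_smul, ← map_add]
    simp
  set p := ((A 3 (1, 0)).1 + (A 3 (0, 1)).2 + r) / 2 with hp
  set q := ((A 3 (1, 0)).1 + (A 3 (0, 1)).2 - r) / 2 with hq
  have h3 : ∀ l : K, ((1 : K) • A 3 + (-p) • 1 : Module.End K _)
      (((1 : K) • A 2 + (-q) • 1 : Module.End K _) (l • (1, 0))) = 0 := fun l => by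
    simp only [LinearMap.add_apply, LinearMap.smul_apply, Module.End.one_apply, map_smul, ← h1, one_smul,
      map_add]
    rw [h2 (A 3 (1, 0))]
    refine smul_eq_zero.2 (Or.inr ?_)
    ext <;> simp [hp, hq]
    · linear_combination 1 / 4 * hr
    · ring
  by_cases e : p = q
  · refine (h.xy (a₁ := 0) (c₁ := 1) (a₂ := 1) (c₂ := -q) (by simp)).caseA ?_
    rw [e] at h3
    exact h3 _
  · exact (h.xy (a₁ := 1) (c₁ := -p) (a₂ := 1) (c₂ := -q) fun e' => e (by
      linear_combination -e')).caseB (h3 _)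

variable {L : Type} [Field L] [Algebra K L]

variable (L) in
/-- The image of a vector in the plane over an extension field. -/
def mp (w : K × K) : L × L := (algebraMap K L w.1, algebraMap K L w.2)

variable (L) in
/-- Extension of scalars of an endomorphism. -/
noncomputable def bcE (f : (K × K) →ₗ[K] (K × K)) : (L × L) →ₗ[L] (L × L) :=
  (LinearMap.fst L L L).smulRight (mp L (f (1, 0))) + (LinearMap.snd L L L).smulRight (mp L (f (0, 1)))

variable (L) in
/-- Extension of scalars of a bilinear map. -/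
noncomputable def bcB (f : (K × K) →ₗ[K] (K × K) →ₗ[K] (K × K)) :
    (L × L) →ₗ[L] (L × L) →ₗ[L] (L × L) :=
  (LinearMap.fst L L L).smulRight (bcE L (f (1, 0))) + (LinearMap.snd L L L).smulRight (bcE L (f (0, 1)))

lemma mp_add (u v : K × K) : mp L (u + v) = mp L u + mp L v := by simp [mp]

lemma mp_sub (u v : K × K) : mp L (u - v) = mp L u - mp L v := by simp [mp]

lemma mp_neg (u : K × K) : mp L (-u) = -mp L u := by simp [mp]

lemma mp_smul (c : K) (u : K × K) : mp L (c • u) = algebraMap K L c • mp L u := by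
  simp [mp, Algebra.smul_def]

lemma split (w : K × K) : w = w.1 • (1, 0) + w.2 • (0, 1) := by simp

lemma bcE_mp (f : (K × K) →ₗ[K] (K × K)) (v : K × K) : bcE L f (mp L v) = mp L (f v) := by
  conv_rhs => rw [split v, map_add, map_smul, map_smul, mp_add, mp_smul, mp_smul]
  simp [bcE, mp]

lemma bcB_mp (f : (K × K) →ₗ[K] (K × K) →ₗ[K] (K × K)) (u v : K × K) :
    bcB L f (mp L u) (mp L v) = mp L (f u v) := by
  conv_rhs => rw [split u, map_add, map_smul, map_smul, LinearMap.add_apply, LinearMap.smul_apply,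
    LinearMap.smul_apply, mp_add, mp_smul, mp_smul, ← bcE_mp, ← bcE_mp]
  simp [bcB, mp]

lemma split' (w : L × L) : ∃ a b : L, w = a • mp L ((1, 0) : K × K) + b • mp L ((0, 1) : K × K) :=
  ⟨w.1, w.2, by simp [mp]⟩

lemma sep {c e : L} (h : ∀ π : L →ₗ[K] K, π c = 0 ∧ π e = 0) : c = 0 ∧ e = 0 :=
  ⟨(Module.forall_dual_apply_eq_zero_iff K c).1 fun π => (h π).1,
    (Module.forall_dual_apply_eq_zero_iff K e).1 fun π => (h π).2⟩

lemma proj (π : L →ₗ[K] K) {c e : L} {a b : K} (h : c * algebraMap K L a + e * algebraMap K L b = 0) :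
    π c * a + π e * b = 0 := by
  have := congrArg π h
  rwa [mul_comm c, mul_comm e, ← Algebra.smul_def, ← Algebra.smul_def, map_add, map_smul, map_smul,
    map_zero, smul_eq_mul, smul_eq_mul, mul_comm a, mul_comm b] at this

lemma Hd.bc (h : Hd β A) : Hd (fun s t => bcB L (β s t)) (fun n => bcE L (A n)) := by
  have e1 : ((1, 0) : L × L) = mp L ((1, 0) : K × K) := by simp [mp]
  refine ⟨fun s t u v hs ht => ?_, fun t v ht => ?_, fun s t u v hs ht => ?_, fun s t u v hs ht => ?_,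
    ?_, fun s t u hs ht hu => ?_, fun c e H => sep (K := K) fun π => h.im _ _ fun u v => ?_⟩
  · obtain ⟨a, b, rfl⟩ := split' (K := K) u
    obtain ⟨c, d, rfl⟩ := split' (K := K) v
    simp only [map_add, map_smul, LinearMap.add_apply, LinearMap.smul_apply, bcB_mp,
      fun u v => h.der s t u v hs ht, mp_add]
    module
  · obtain ⟨c, d, rfl⟩ := split' (K := K) v
    simp only [e1, map_add, map_smul, bcB_mp, bcE_mp, fun v => h.one t v ht, mp_add]
    module
  · obtain ⟨a, b, rfl⟩ := split' (K := K) u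
    obtain ⟨c, d, rfl⟩ := split' (K := K) v
    have := fun u v => congrArg (mp L) (h.anti s t u v hs ht)
    simp only [mp_neg] at this
    simp only [map_add, map_smul, LinearMap.add_apply, LinearMap.smul_apply, bcB_mp]
    linear_combination (norm := module) (a * c) • this (1, 0) (1, 0) + (a * d) • this (1, 0) (0, 1) +
      (b * c) • this (0, 1) (1, 0) + (b * d) • this (0, 1) (0, 1)
  · obtain ⟨a, b, rfl⟩ := split' (K := K) u
    obtain ⟨c, d, rfl⟩ := split' (K := K) v
    simp only [map_add, map_smul, LinearMap.add_apply, LinearMap.smul_apply, bcB_mp, bcE_mp,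
      fun u v => h.jac s t u v hs ht, mp_sub]
    module
  · rw [e1, bcE_mp]
    simpa [mp] using h.ne
  · obtain ⟨a, b, rfl⟩ := split' (K := K) u
    obtain ⟨rfl, rfl⟩ : a = 0 ∧ b = 0 := sep (K := K) fun π => by
      have := h.inj s t (π a • (1, 0) + π b • (0, 1)) hs ht (LinearMap.ext fun v => by
        have a1 := LinearMap.congr_fun hu (mp L v)
        simp only [map_add, map_smul, LinearMap.add_apply, LinearMap.smul_apply, bcB_mp] at a1 ⊢
        exact Prod.ext (proj π (congrArg Prod.fst a1)) (proj π (congrArg Prod.snd a1)))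
      simpa using this
    simp
  · have a1 := H (mp L u) (mp L v)
    rw [bcB_mp] at a1
    exact proj π a1

end A3

/-- The head `2, 2, 2, …` in which `[a, [X, a]]` leaves the lane of `a`. -/
theorem alphaA (K : Type) [Field K] [CharZero K] (β : Bil K)
    (h : Arr (fun s u => 2 ≤ s ∨ s = 1 ∧ u.2 = 0) β)
    (h1 : ∀ s t, 2 ≤ s → s < t → ∀ l, ∃ u v, β s t u v ∉ K ∙ l)
    (h2 : ∀ s t, 2 ≤ s → 2 ≤ t → ∀ u, u ≠ 0 → β s t u ≠ 0)
    (h3 : (β 1 2 (1, 0) (1, 0)).2 ≠ 0) : False := by
  have H : A3.Hd β (fun n => β 1 n (1, 0)) := by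
    refine ⟨fun s t u v hs ht => h.der s t u v (.inl hs) (.inl ht),
      fun t v ht => h.der 1 t _ v (.inr ⟨rfl, rfl⟩) (.inl ht),
      fun s t u v hs ht => h.anti s t u v (.inl hs) (.inl ht), fun s t u v hs ht => ?_, h3,
      fun s t u hs ht hu => by_contra fun e => h2 s t hs ht u e hu, fun c e H => ?_⟩
    · have := h.jac 1 s t (1, 0) u v (.inr ⟨rfl, rfl⟩) (.inl hs) (.inl ht)
      rwa [add_comm 1 s, add_comm 1 t] at this
    · by_contra h0
      obtain ⟨u, v, a1⟩ := h1 2 3 le_rfl (by omega) (e, -c)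
      have a2 := H u v
      refine a1 (Submodule.mem_span_singleton.2 ?_)
      by_cases hc : c = 0
      · have he : e ≠ 0 := fun he => h0 ⟨hc, he⟩
        refine ⟨(β 2 3 u v).1 / e, Prod.ext (by simp [he]) ?_⟩
        simpa [hc, he, eq_comm] using a2
      · refine ⟨-(β 2 3 u v).2 / c, Prod.ext ?_ (by simp [hc])⟩
        simp only [Prod.smul_fst, smul_eq_mul]
        field_simp
        linear_combination -a2
  exact (H.bc (L := AlgebraicClosure K)).false

end Pool.Agent.P78
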