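import Pool.Agent.Lib.MP_78c6b1_al.CA.BetaDefs

/-! Head `2, 2, 2, …` with `⁅f 1, f 2⁆ = 0`: the cases decided in degree at most eight. -/

namespace Pool.Agent.P78.ALow

variable {K : Type} [Field K]

/-- The Jacobi identities in degree at most eight, in coordinates. -/
structure AE (w1 w2 v1 v2 u1 u2 y1 y2 p2 p3 p4 p5 p6 p7 s2 s3 s4 s5 s6 s7 : K) : Prop where
  gff212F : 2 * p2 * w1 + p3 * s2 - p3 * w1 - 2 * p4 * s2 + p4 * s3 = 0
  gff212G : 2 * p2 * w2 - p3 * w2 + s2 * s3 - 2 * s2 * s4 + s3 * s4 = 0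
  gff213F : 2 * p2 * w1 + p3 * s2 - 4 * p3 * w1 - 2 * p4 * s2 + 2 * p4 * w1 + 2 * p5 * s3 - p5 * s4 = 0
  gff213G : 2 * p2 * w2 - 4 * p3 * w2 + 2 * p4 * w2 + s2 * s3 - 2 * s2 * s4 + 2 * s3 * s5 - s4 * s5 = 0
  gff312F : 3 * p3 * w1 + p4 * s3 - 2 * p4 * w1 - 2 * p5 * s3 + p5 * s4 = 0
  gff312G : 3 * p3 * w2 - 2 * p4 * w2 + s3 * s4 - 2 * s3 * s5 + s4 * s5 = 0
  gff214F : 2 * p2 * v1 - 4 * p2 * w1 + p3 * s2 - 3 * p3 * v1 + 4 * p3 * w1 - 3 * p4 * s2 + 3 * p4 * v1 - 6 * p4 * w1 + 3 * p5 * s2 - p5 * v1 + 4 * p5 * w1 - 2 * p6 * s2 + 3 * p6 * s3 - 3 * p6 * s4 + p6 * s5 - p6 * w1 - u1 * w2 + w2 * y1 = 0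
  gff214G : 2 * p2 * v2 - 3 * p2 * w2 - 3 * p3 * v2 + 3 * p4 * v2 - p5 * v2 + s2 * s3 - 3 * s2 * s4 + 3 * s2 * s5 - 2 * s2 * s6 - s2 * w1 + 3 * s3 * s6 + 4 * s3 * w1 - 3 * s4 * s6 - 6 * s4 * w1 + s5 * s6 + 4 * s5 * w1 - s6 * w1 - u2 * w2 + w2 * y2 = 0
  gff223F : -2 * p2 * v1 + 6 * p2 * w1 + 3 * p3 * v1 - 11 * p3 * w1 + p4 * s2 - p4 * s3 - p4 * v1 + 8 * p4 * w1 - 3 * p5 * s2 + 4 * p5 * s3 - p5 * s4 - 4 * p5 * w1 + 2 * p6 * s2 - 3 * p6 * s3 + p6 * s4 + p6 * w1 + u1 * w2 - w2 * y1 = 0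
  gff223G : -2 * p2 * v2 + 5 * p2 * w2 + 3 * p3 * v2 - 7 * p3 * w2 - p4 * v2 + 2 * p4 * w2 + s2 * s4 - 3 * s2 * s5 + 2 * s2 * s6 + s2 * w1 - s3 * s4 + 4 * s3 * s5 - 3 * s3 * s6 - 4 * s3 * w1 - s4 * s5 + s4 * s6 + 6 * s4 * w1 - 4 * s5 * w1 + s6 * w1 + u2 * w2 - w2 * y2 = 0
  gff313F : 3 * p3 * w1 + p4 * s3 - 2 * p4 * v1 - 2 * p5 * s3 + p5 * v1 + 2 * p6 * s4 - p6 * s5 = 0
  gff313G : 3 * p3 * w2 - 2 * p4 * v2 + p5 * v2 + s3 * s4 - 2 * s3 * s5 + 2 * s4 * s6 - s5 * s6 = 0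
  gff412F : 2 * p4 * v1 - 2 * p4 * w1 + p5 * s4 - p5 * v1 - 2 * p6 * s4 + p6 * s5 = 0
  gff412G : 2 * p4 * v2 - 2 * p4 * w2 - p5 * v2 + s4 * s5 - 2 * s4 * s6 + s5 * s6 = 0
  gff224F : -2 * p2 * v1 + 6 * p2 * w1 + 6 * p3 * v1 - 20 * p3 * w1 + p4 * s2 - p4 * s3 - 6 * p4 * v1 + 25 * p4 * w1 - 3 * p5 * s2 + 3 * p5 * s3 + 2 * p5 * v1 - 15 * p5 * w1 + 2 * p6 * s2 - 3 * p6 * s4 + p6 * s5 + 5 * p6 * w1 - 2 * p7 * s3 + 3 * p7 * s4 - p7 * s5 - p7 * w1 + u1 * w2 - 2 * w2 * y1 = 0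
  gff224G : -2 * p2 * v2 + 5 * p2 * w2 + 6 * p3 * v2 - 15 * p3 * w2 - 6 * p4 * v2 + 15 * p4 * w2 + 2 * p5 * v2 - 5 * p5 * w2 + s2 * s4 - 3 * s2 * s5 + 2 * s2 * s6 + s2 * w1 - s3 * s4 + 3 * s3 * s5 - 2 * s3 * s7 - 5 * s3 * w1 - 3 * s4 * s6 + 3 * s4 * s7 + 10 * s4 * w1 + s5 * s6 - s5 * s7 - 10 * s5 * w1 + 5 * s6 * w1 - s7 * w1 + u2 * w2 - 2 * w2 * y2 = 0
  gff323F : -3 * p3 * v1 + 9 * p3 * w1 + 5 * p4 * v1 - 17 * p4 * w1 + p5 * s3 - p5 * s4 - 2 * p5 * v1 + 11 * p5 * w1 - 3 * p6 * s3 + 4 * p6 * s4 - p6 * s5 - 4 * p6 * w1 + 2 * p7 * s3 - 3 * p7 * s4 + p7 * s5 + p7 * w1 + w2 * y1 = 0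
  gff323G : -3 * p3 * v2 + 8 * p3 * w2 + 5 * p4 * v2 - 13 * p4 * w2 - 2 * p5 * v2 + 5 * p5 * w2 + s3 * s5 - 3 * s3 * s6 + 2 * s3 * s7 + s3 * w1 - s4 * s5 + 4 * s4 * s6 - 3 * s4 * s7 - 4 * s4 * w1 - s5 * s6 + s5 * s7 + 6 * s5 * w1 - 4 * s6 * w1 + s7 * w1 + w2 * y2 = 0
  gff413F : 2 * p4 * v1 - 2 * p4 * w1 + p5 * s4 - 6 * p5 * v1 + 10 * p5 * w1 - 2 * p6 * s4 + 3 * p6 * v1 - 5 * p6 * w1 + 2 * p7 * s5 - p7 * s6 = 0
  gff413G : 2 * p4 * v2 - 2 * p4 * w2 - 6 * p5 * v2 + 10 * p5 * w2 + 3 * p6 * v2 - 5 * p6 * w2 + s4 * s5 - 2 * s4 * s6 + 2 * s5 * s7 - s6 * s7 = 0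
  gff512F : 5 * p5 * v1 - 10 * p5 * w1 + p6 * s5 - 3 * p6 * v1 + 5 * p6 * w1 - 2 * p7 * s5 + p7 * s6 = 0
  gff512G : 5 * p5 * v2 - 10 * p5 * w2 - 3 * p6 * v2 + 5 * p6 * w2 + s5 * s6 - 2 * s5 * s7 + s6 * s7 = 0
  fff123F : -p5 * w2 + 2 * w1 * w1 = 0
  fff123G : -s5 * w2 + 2 * w1 * w2 = 0
  fff125F : -2 * p6 * w2 - p7 * v2 + 4 * p7 * w2 + 3 * v1 * v1 - 15 * v1 * w1 + 20 * w1 * w1 = 0
  fff125G : -2 * s6 * w2 - s7 * v2 + 4 * s7 * w2 + 3 * v1 * v2 - 5 * v1 * w2 - 10 * v2 * w1 + 20 * w1 * w2 = 0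
  ggf231F : -2 * p2 * p4 + p2 * p5 + 3 * p3 * p3 - 3 * p3 * p4 + p3 * p5 + p5 * u2 - s3 * u1 - 2 * u1 * w1 = 0
  ggf231G : p2 * s3 - 2 * p2 * s4 + p2 * s5 - p3 * s2 + 3 * p3 * s3 - 3 * p3 * s4 + p3 * s5 - s3 * u2 + s5 * u2 - 2 * u1 * w2 = 0
  ggf241F : -2 * p2 * p5 + p2 * p6 + 4 * p3 * p4 - 6 * p4 * p4 + 4 * p4 * p5 - p4 * p6 + p6 * u2 - s2 * y1 - s4 * u1 + s4 * y1 - u1 * v1 = 0
  ggf241G : p2 * s4 - 2 * p2 * s5 + p2 * s6 - p4 * s2 + 4 * p4 * s3 - 6 * p4 * s4 + 4 * p4 * s5 - p4 * s6 - s2 * y2 - s4 * u2 + s4 * y2 + s6 * u2 - u1 * v2 = 0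
  ggf242F : -2 * p2 * p5 + 3 * p2 * p6 - p2 * p7 + 4 * p3 * p4 - 2 * p3 * p5 - 3 * p3 * p6 + p3 * p7 - 10 * p4 * p4 + 20 * p4 * p5 - 5 * p4 * p6 + p4 * p7 - 10 * p5 * p5 + 5 * p5 * p6 - p5 * p7 + p6 * u2 - p7 * u2 - s4 * u1 + 2 * s4 * y1 + s5 * u1 - 2 * s5 * y1 + 2 * u1 * v1 - 5 * u1 * w1 = 0
  ggf242G : p2 * s4 - 3 * p2 * s5 + 3 * p2 * s6 - p2 * s7 - p3 * s4 + 3 * p3 * s5 - 3 * p3 * s6 + p3 * s7 - p4 * s2 + 5 * p4 * s3 - 10 * p4 * s4 + 10 * p4 * s5 - 5 * p4 * s6 + p4 * s7 + p5 * s2 - 5 * p5 * s3 + 10 * p5 * s4 - 10 * p5 * s5 + 5 * p5 * s6 - p5 * s7 - s4 * u2 + 2 * s4 * y2 + s5 * u2 - 2 * s5 * y2 + s6 * u2 - s7 * u2 + 2 * u1 * v2 - 5 * u1 * w2 = 0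
  ggf251F : -2 * p2 * p6 + p2 * p7 + 5 * p3 * p5 - 10 * p4 * p5 + 10 * p5 * p5 - 5 * p5 * p6 + p5 * p7 + p7 * u2 - p7 * y2 - s2 * y1 - s5 * u1 + 2 * s5 * y1 - 3 * u1 * v1 + 5 * u1 * w1 + 3 * v1 * y1 - 5 * w1 * y1 = 0
  ggf251G : p2 * s5 - 2 * p2 * s6 + p2 * s7 - p5 * s2 + 5 * p5 * s3 - 10 * p5 * s4 + 10 * p5 * s5 - 5 * p5 * s6 + p5 * s7 - s2 * y2 - s5 * u2 + 2 * s5 * y2 + s7 * u2 - s7 * y2 - 3 * u1 * v2 + 5 * u1 * w2 + 3 * v2 * y1 - 5 * w2 * y1 = 0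
  ggf341F : -3 * p3 * p5 + 3 * p3 * p6 - p3 * p7 + 4 * p4 * p4 - 6 * p4 * p5 + 4 * p4 * p6 - p4 * p7 + p7 * y2 - s4 * y1 - 3 * v1 * y1 + 5 * w1 * y1 = 0
  ggf341G : p3 * s4 - 3 * p3 * s5 + 3 * p3 * s6 - p3 * s7 - p4 * s3 + 4 * p4 * s4 - 6 * p4 * s5 + 4 * p4 * s6 - p4 * s7 - s4 * y2 + s7 * y2 - 3 * v2 * y1 + 5 * w2 * y1 = 0
  n2 : ¬ (p2 = 0 ∧ s2 = 0)
  n3 : ¬ (p3 = 0 ∧ s3 = 0)
  n4 : ¬ (w1 = 0 ∧ w2 = 0 ∧ p4 = 0 ∧ s4 = 0)
  n5 : ¬ (w1 = 0 ∧ w2 = 0 ∧ p5 = 0 ∧ s5 = 0)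
  n6 : ¬ (v1 = 0 ∧ v2 = 0 ∧ p6 = 0 ∧ s6 = 0)
  l42 : ¬ (w1 = 0 ∧ w2 = 0 ∧ p2 - 3 * p3 + 3 * p4 - p5 = 0 ∧ s2 - 3 * s3 + 3 * s4 - s5 = 0)
  s34 : ¬ (v1 - 3 * w1 = 0 ∧ p3 - 3 * p4 + 3 * p5 - p6 = 0 ∧ p4 - 2 * p5 + p6 = 0 ∧ y1 = 0)

/-- The hypotheses of `AlphaStmt` that are used here. -/
structure AH (β : Bil K) : Prop where
  arr : Arr (fun s u => 2 ≤ s ∨ s = 1 ∧ u.2 = 0) β
  S : ∀ s t, 2 ≤ s → s < t → ∀ l, ∃ u v, β s t u v ∉ K ∙ l
  L : ∀ s t, 2 ≤ s → 2 ≤ t → ∀ u, u ≠ 0 → β s t u ≠ 0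
  L1 : ∀ t, 2 ≤ t → ∀ c : K, ∃ v, β 1 t (1, 0) v ≠ c • v

lemma i1 {s : ℕ} (hs : 1 ≤ s) : 2 ≤ s ∨ s = 1 ∧ ((1, 0) : K × K).2 = 0 := by
  rcases Nat.lt_or_ge s 2 with h | h
  · exact Or.inr ⟨by omega, rfl⟩
  · exact Or.inl h

lemma subR {a b c : K × K} (h : a = b + c) {a1 a2 b1 b2 : K} (ha : a = (a1, a2)) (hb : b = (b1, b2)) :
    c = (a1 - b1, a2 - b2) := by
  obtain ⟨c1, c2⟩ := c
  rw [ha, hb, Prod.mk_add_mk, Prod.mk.injEq] at h
  rw [h.1, h.2]; simp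

lemma subL {a b c : K × K} (h : a = b + c) {a1 a2 c1 c2 : K} (ha : a = (a1, a2)) (hc : c = (c1, c2)) :
    b = (a1 - c1, a2 - c2) := subR (h.trans (add_comm _ _)) ha hc

lemma ng {a b : K × K} (h : a = - b) {b1 b2 : K} (hb : b = (b1, b2)) : a = (-b1, -b2) := by
  rw [h, hb]; rfl

lemma z2 [CharZero K] {a : K × K} (h : a = - a) : a = (0, 0) := by
  have h2 : (2 : K) • a = 0 := by linear_combination (norm := module) h
  exact (smul_eq_zero.1 h2).resolve_left two_ne_zero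

lemma six {x y z a b c d e f : K × K}
    (h : x.1 • a + x.2 • b = y.1 • c + y.2 • d - (z.1 • e + z.2 • f))
    {x1 x2 y1 y2 z1 z2 a1 a2 b1 b2 c1 c2 d1 d2 e1 e2 f1 f2 : K}
    (hx : x = (x1, x2)) (ha : a = (a1, a2)) (hb : b = (b1, b2)) (hy : y = (y1, y2)) (hc : c = (c1, c2))
    (hd : d = (d1, d2)) (hz : z = (z1, z2)) (he : e = (e1, e2)) (hf : f = (f1, f2)) :
    x1 * a1 + x2 * b1 - (y1 * c1 + y2 * d1) + (z1 * e1 + z2 * f1) = 0 ∧
      x1 * a2 + x2 * b2 - (y1 * c2 + y2 * d2) + (z1 * e2 + z2 * f2) = 0 := by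
  subst hx ha hb hy hc hd hz he hf
  simp only [Prod.smul_mk, smul_eq_mul, Prod.mk_add_mk, Prod.mk_sub_mk, Prod.mk.injEq] at h
  exact ⟨by linear_combination h.1, by linear_combination h.2⟩

lemma jexp {I : ℕ → K × K → Prop} {β : Bil K} (h : Arr I β) (r s t : ℕ) (u v w : K × K) (hr : I r u)
    (hs : I s v) (ht : I t w) :
    (β r s u v).1 • β (r + s) t (1, 0) w + (β r s u v).2 • β (r + s) t (0, 1) w =
      (β s t v w).1 • β r (s + t) u (1, 0) + (β s t v w).2 • β r (s + t) u (0, 1) -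
        ((β r t u w).1 • β s (r + t) v (1, 0) + (β r t u w).2 • β s (r + t) v (0, 1)) := by
  rw [← β.exp1, ← β.exp2, ← β.exp2]
  exact h.jac r s t u v w hr hs ht

lemma AH.kill {β : Bil K} (h : AH β) {t : ℕ} (ht : 2 ≤ t) (h1 : β 1 t (1, 0) (1, 0) = 0)
    (h2 : β 1 t (1, 0) (0, 1) = 0) : False := by
  obtain ⟨v, hv⟩ := h.L1 t ht 0
  exact hv (by rw [β.exp2, h1, h2]; simp)

lemma AH.kill2 {β : Bil K} (h : AH β) {s t : ℕ} (hs : 2 ≤ s) (ht : 2 ≤ t) (h1 : β s t (1, 0) (1, 0) = 0)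
    (h2 : β s t (1, 0) (0, 1) = 0) : False := by
  refine h.L s t hs ht (1, 0) (by simp) (LinearMap.ext fun v => ?_)
  rw [β.exp2, h1, h2]; simp

lemma AH.line {β : Bil K} (h : AH β) {s t : ℕ} (hs : 2 ≤ s) (ht : s < t)
    (h1 : (β s t (1, 0) (1, 0)).1 = 0) (h2 : (β s t (1, 0) (0, 1)).1 = 0)
    (h3 : (β s t (0, 1) (1, 0)).1 = 0) (h4 : (β s t (0, 1) (0, 1)).1 = 0) : False := by
  obtain ⟨u, v, huv⟩ := h.S s t hs ht (0, 1)
  refine huv (Submodule.mem_span_singleton.2 ⟨(β s t u v).2, Prod.ext ?_ (by simp)⟩)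
  rw [β.exp1 s t u v, β.exp2 s t (1, 0) v, β.exp2 s t (0, 1) v]
  simp [h1, h2, h3, h4]

lemma AH.ae [CharZero K] {β : Bil K} (h : AH β) (h12 : β 1 2 (1, 0) (1, 0) = 0)
    {w1 w2 v1 v2 u1 u2 y1 y2 p2 p3 p4 p5 p6 p7 s2 s3 s4 s5 s6 s7 : K}
    (ff14 : β 1 4 (1, 0) (1, 0) = (w1, w2)) (ff16 : β 1 6 (1, 0) (1, 0) = (v1, v2))
    (gg23 : β 2 3 (0, 1) (0, 1) = (u1, u2)) (gg34 : β 3 4 (0, 1) (0, 1) = (y1, y2))
    (gf21 : β 2 1 (0, 1) (1, 0) = (p2, s2))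
    (gf31 : β 3 1 (0, 1) (1, 0) = (p3, s3))
    (gf41 : β 4 1 (0, 1) (1, 0) = (p4, s4))
    (gf51 : β 5 1 (0, 1) (1, 0) = (p5, s5))
    (gf61 : β 6 1 (0, 1) (1, 0) = (p6, s6))
    (gf71 : β 7 1 (0, 1) (1, 0) = (p7, s7))
    : AE w1 w2 v1 v2 u1 u2 y1 y2 p2 p3 p4 p5 p6 p7 s2 s3 s4 s5 s6 s7 := by
  have dF := fun s t (hs : 1 ≤ s) (ht : 1 ≤ t) => h.arr.der s t (1, 0) (1, 0) (i1 hs) (i1 ht)
  have aF := fun s t (hs : 1 ≤ s) (ht : 1 ≤ t) => h.arr.anti s t (1, 0) (1, 0) (i1 hs) (i1 ht)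
  have dR := fun s t (hs : 2 ≤ s) (ht : 1 ≤ t) => h.arr.der s t (0, 1) (1, 0) (Or.inl hs) (i1 ht)
  have aR := fun s t (hs : 2 ≤ s) (ht : 1 ≤ t) => h.arr.anti s t (0, 1) (1, 0) (Or.inl hs) (i1 ht)
  have dG := fun s t (hs : 2 ≤ s) (ht : 2 ≤ t) => h.arr.der s t (0, 1) (0, 1) (Or.inl hs) (Or.inl ht)
  have aG := fun s t (hs : 2 ≤ s) (ht : 2 ≤ t) => h.arr.anti s t (0, 1) (0, 1) (Or.inl hs) (Or.inl ht)
  have gff := fun r s t (hr : 2 ≤ r) (hs : 1 ≤ s) (ht : 1 ≤ t) =>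
    jexp h.arr r s t (0, 1) (1, 0) (1, 0) (Or.inl hr) (i1 hs) (i1 ht)
  have fff := fun r s t (hr : 1 ≤ r) (hs : 1 ≤ s) (ht : 1 ≤ t) =>
    jexp h.arr r s t (1, 0) (1, 0) (1, 0) (i1 hr) (i1 hs) (i1 ht)
  have ggf := fun r s t (hr : 2 ≤ r) (hs : 2 ≤ s) (ht : 1 ≤ t) =>
    jexp h.arr r s t (0, 1) (0, 1) (1, 0) (Or.inl hr) (Or.inl hs) (i1 ht)
  have ff12 : β 1 2 (1, 0) (1, 0) = (0, 0) := h12
  have ff22 : β 2 2 (1, 0) (1, 0) = _ := z2 (aF 2 2 (by decide) (by decide))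
  have ff13 : β 1 3 (1, 0) (1, 0) = _ := subR (dF 1 2 (by decide) (by decide)) ff12 ff22
  have ff23 : β 2 3 (1, 0) (1, 0) = _ := subL (dF 1 3 (by decide) (by decide)) ff13 ff14
  have ff32 : β 3 2 (1, 0) (1, 0) = _ := ng (aF 2 3 (by decide) (by decide)) ff23
  have gf32 : β 3 2 (0, 1) (1, 0) = _ := subR (dR 3 1 (by decide) (by decide)) gf31 gf41
  have gf22 : β 2 2 (0, 1) (1, 0) = _ := subR (dR 2 1 (by decide) (by decide)) gf21 gf31
  have gf23 : β 2 3 (0, 1) (1, 0) = _ := subR (dR 2 2 (by decide) (by decide)) gf22 gf32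
  have fg14 : β 1 4 (1, 0) (0, 1) = _ := ng (aR 4 1 (by decide) (by decide)) gf41
  have ff33 : β 3 3 (1, 0) (1, 0) = _ := z2 (aF 3 3 (by decide) (by decide))
  have gf42 : β 4 2 (0, 1) (1, 0) = _ := subR (dR 4 1 (by decide) (by decide)) gf41 gf51
  have gf33 : β 3 3 (0, 1) (1, 0) = _ := subR (dR 3 2 (by decide) (by decide)) gf32 gf42
  have gf24 : β 2 4 (0, 1) (1, 0) = _ := subR (dR 2 3 (by decide) (by decide)) gf23 gf33
  have gg33 : β 3 3 (0, 1) (0, 1) = _ := z2 (aG 3 3 (by decide) (by decide))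
  have gg24 : β 2 4 (0, 1) (0, 1) = _ := subR (dG 2 3 (by decide) (by decide)) gg23 gg33
  have ff24 : β 2 4 (1, 0) (1, 0) = _ := subR (dF 2 3 (by decide) (by decide)) ff23 ff33
  have ff15 : β 1 5 (1, 0) (1, 0) = _ := subR (dF 1 4 (by decide) (by decide)) ff14 ff24
  have fg15 : β 1 5 (1, 0) (0, 1) = _ := ng (aR 5 1 (by decide) (by decide)) gf51
  have ff42 : β 4 2 (1, 0) (1, 0) = _ := ng (aF 2 4 (by decide) (by decide)) ff24
  have ff25 : β 2 5 (1, 0) (1, 0) = _ := subL (dF 1 5 (by decide) (by decide)) ff15 ff16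
  have ff34 : β 3 4 (1, 0) (1, 0) = _ := subL (dF 2 4 (by decide) (by decide)) ff24 ff25
  have gf52 : β 5 2 (0, 1) (1, 0) = _ := subR (dR 5 1 (by decide) (by decide)) gf51 gf61
  have gf43 : β 4 3 (0, 1) (1, 0) = _ := subR (dR 4 2 (by decide) (by decide)) gf42 gf52
  have gf34 : β 3 4 (0, 1) (1, 0) = _ := subR (dR 3 3 (by decide) (by decide)) gf33 gf43
  have gf25 : β 2 5 (0, 1) (1, 0) = _ := subR (dR 2 4 (by decide) (by decide)) gf24 gf34
  have gg25 : β 2 5 (0, 1) (0, 1) = _ := subR (dG 2 4 (by decide) (by decide)) gg24 gg34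
  have fg16 : β 1 6 (1, 0) (0, 1) = _ := ng (aR 6 1 (by decide) (by decide)) gf61
  have ff43 : β 4 3 (1, 0) (1, 0) = _ := ng (aF 3 4 (by decide) (by decide)) ff34
  have fg25 : β 2 5 (1, 0) (0, 1) = _ := ng (aR 5 2 (by decide) (by decide)) gf52
  have ff52 : β 5 2 (1, 0) (1, 0) = _ := ng (aF 2 5 (by decide) (by decide)) ff25
  have gg43 : β 4 3 (0, 1) (0, 1) = _ := ng (aG 3 4 (by decide) (by decide)) gg34
  have ff44 : β 4 4 (1, 0) (1, 0) = _ := z2 (aF 4 4 (by decide) (by decide))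
  have gf62 : β 6 2 (0, 1) (1, 0) = _ := subR (dR 6 1 (by decide) (by decide)) gf61 gf71
  have gf53 : β 5 3 (0, 1) (1, 0) = _ := subR (dR 5 2 (by decide) (by decide)) gf52 gf62
  have gf44 : β 4 4 (0, 1) (1, 0) = _ := subR (dR 4 3 (by decide) (by decide)) gf43 gf53
  have gf35 : β 3 5 (0, 1) (1, 0) = _ := subR (dR 3 4 (by decide) (by decide)) gf34 gf44
  have gf26 : β 2 6 (0, 1) (1, 0) = _ := subR (dR 2 5 (by decide) (by decide)) gf25 gf35
  have gg44 : β 4 4 (0, 1) (0, 1) = _ := z2 (aG 4 4 (by decide) (by decide))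
  have gg35 : β 3 5 (0, 1) (0, 1) = _ := subR (dG 3 4 (by decide) (by decide)) gg34 gg44
  have gg26 : β 2 6 (0, 1) (0, 1) = _ := subR (dG 2 5 (by decide) (by decide)) gg25 gg35
  have ff35 : β 3 5 (1, 0) (1, 0) = _ := subR (dF 3 4 (by decide) (by decide)) ff34 ff44
  have ff26 : β 2 6 (1, 0) (1, 0) = _ := subR (dF 2 5 (by decide) (by decide)) ff25 ff35
  have fg26 : β 2 6 (1, 0) (0, 1) = _ := ng (aR 6 2 (by decide) (by decide)) gf62
  have ff53 : β 5 3 (1, 0) (1, 0) = _ := ng (aF 3 5 (by decide) (by decide)) ff35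
  have ff17 : β 1 7 (1, 0) (1, 0) = _ := subR (dF 1 6 (by decide) (by decide)) ff16 ff26
  have fg17 : β 1 7 (1, 0) (0, 1) = _ := ng (aR 7 1 (by decide) (by decide)) gf71
  have ff62 : β 6 2 (1, 0) (1, 0) = _ := ng (aF 2 6 (by decide) (by decide)) ff26
  have gg53 : β 5 3 (0, 1) (0, 1) = _ := ng (aG 3 5 (by decide) (by decide)) gg35
  have fg24 : β 2 4 (1, 0) (0, 1) = _ := ng (aR 4 2 (by decide) (by decide)) gf42
  have ff51 : β 5 1 (1, 0) (1, 0) = _ := ng (aF 1 5 (by decide) (by decide)) ff15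
  have ff61 : β 6 1 (1, 0) (1, 0) = _ := ng (aF 1 6 (by decide) (by decide)) ff16
  have ff71 : β 7 1 (1, 0) (1, 0) = _ := ng (aF 1 7 (by decide) (by decide)) ff17
  have fg12 : β 1 2 (1, 0) (0, 1) = _ := ng (aR 2 1 (by decide) (by decide)) gf21
  have fg13 : β 1 3 (1, 0) (0, 1) = _ := ng (aR 3 1 (by decide) (by decide)) gf31
  have fg42 : β 4 2 (1, 0) (0, 1) = _ := ng (aR 2 4 (by decide) (by decide)) gf24
  have fg34 : β 3 4 (1, 0) (0, 1) = _ := ng (aR 4 3 (by decide) (by decide)) gf43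
  have gff212 := six (gff 2 1 2 (by decide) (by decide) (by decide)) gf21 ff32 gf32 ff12 gf23 gg23 gf22 ff14 fg14
  have gff213 := six (gff 2 1 3 (by decide) (by decide) (by decide)) gf21 ff33 gf33 ff13 gf24 gg24 gf23 ff15 fg15
  have gff312 := six (gff 3 1 2 (by decide) (by decide) (by decide)) gf31 ff42 gf42 ff12 gf33 gg33 gf32 ff15 fg15
  have gff214 := six (gff 2 1 4 (by decide) (by decide) (by decide)) gf21 ff34 gf34 ff14 gf25 gg25 gf24 ff16 fg16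
  have gff223 := six (gff 2 2 3 (by decide) (by decide) (by decide)) gf22 ff43 gf43 ff23 gf25 gg25 gf23 ff25 fg25
  have gff313 := six (gff 3 1 3 (by decide) (by decide) (by decide)) gf31 ff43 gf43 ff13 gf34 gg34 gf33 ff16 fg16
  have gff412 := six (gff 4 1 2 (by decide) (by decide) (by decide)) gf41 ff52 gf52 ff12 gf43 gg43 gf42 ff16 fg16
  have gff224 := six (gff 2 2 4 (by decide) (by decide) (by decide)) gf22 ff44 gf44 ff24 gf26 gg26 gf24 ff26 fg26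
  have gff323 := six (gff 3 2 3 (by decide) (by decide) (by decide)) gf32 ff53 gf53 ff23 gf35 gg35 gf33 ff26 fg26
  have gff413 := six (gff 4 1 3 (by decide) (by decide) (by decide)) gf41 ff53 gf53 ff13 gf44 gg44 gf43 ff17 fg17
  have gff512 := six (gff 5 1 2 (by decide) (by decide) (by decide)) gf51 ff62 gf62 ff12 gf53 gg53 gf52 ff17 fg17
  have fff123 := six (fff 1 2 3 (by decide) (by decide) (by decide)) ff12 ff33 gf33 ff23 ff15 fg15 ff13 ff24 fg24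
  have fff125 := six (fff 1 2 5 (by decide) (by decide) (by decide)) ff12 ff35 gf35 ff25 ff17 fg17 ff15 ff26 fg26
  have ggf231 := six (ggf 2 3 1 (by decide) (by decide) (by decide)) gg23 ff51 gf51 gf31 gf24 gg24 gf21 gf33 gg33
  have ggf241 := six (ggf 2 4 1 (by decide) (by decide) (by decide)) gg24 ff61 gf61 gf41 gf25 gg25 gf21 gf43 gg43
  have ggf242 := six (ggf 2 4 2 (by decide) (by decide) (by decide)) gg24 ff62 gf62 gf42 gf26 gg26 gf22 gf44 gg44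
  have ggf251 := six (ggf 2 5 1 (by decide) (by decide) (by decide)) gg25 ff71 gf71 gf51 gf26 gg26 gf21 gf53 gg53
  have ggf341 := six (ggf 3 4 1 (by decide) (by decide) (by decide)) gg34 ff71 gf71 gf41 gf35 gg35 gf31 gf44 gg44
  refine ⟨by linear_combination gff212.1, by linear_combination gff212.2, by linear_combination gff213.1, by linear_combination gff213.2, by linear_combination gff312.1, by linear_combination gff312.2, by linear_combination gff214.1, by linear_combination gff214.2, by linear_combination gff223.1, by linear_combination gff223.2, by linear_combination gff313.1, by linear_combination gff313.2, by linear_combination gff412.1, by linear_combination gff412.2, by linear_combination gff224.1, by linear_combination gff224.2, by linear_combination gff323.1, by linear_combination gff323.2, by linear_combination gff413.1, by linear_combination gff413.2, by linear_combination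 gff512.1, by linear_combination gff512.2, by linear_combination fff123.1, by linear_combination fff123.2, by linear_combination fff125.1, by linear_combination fff125.2, by linear_combination ggf231.1, by linear_combination ggf231.2, by linear_combination ggf241.1, by linear_combination ggf241.2, by linear_combination ggf242.1, by linear_combination ggf242.2, by linear_combination ggf251.1, by linear_combination ggf251.2, by linear_combination ggf341.1, by linear_combination ggf341.2, ?_, ?_, ?_, ?_, ?_, ?_, ?_⟩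
  · rintro ⟨a, b⟩
    exact h.kill (t := 2) (by decide) h12 (by rw [fg12]; simp [a, b])
  · rintro ⟨a, b⟩
    exact h.kill (t := 3) (by decide) (by rw [ff13]; simp) (by rw [fg13]; simp [a, b])
  · rintro ⟨a, b, c, d⟩
    exact h.kill (t := 4) (by decide) (by rw [ff14]; simp [a, b]) (by rw [fg14]; simp [c, d])
  · rintro ⟨a, b, c, d⟩
    exact h.kill (t := 5) (by decide) (by rw [ff15]; simp [a, b]) (by rw [fg15]; simp [c, d])
  · rintro ⟨a, b, c, d⟩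
    exact h.kill (t := 6) (by decide) (by rw [ff16]; simp [a, b]) (by rw [fg16]; simp [c, d])
  · rintro ⟨a, b, c, d⟩
    refine h.kill2 (s := 4) (t := 2) (by decide) (by decide) (by rw [ff42]; simp [a, b]) ?_
    rw [fg42]
    exact Prod.ext (by simp only [Prod.fst_zero]; linear_combination - c)
      (by simp only [Prod.snd_zero]; linear_combination - d)
  · rintro ⟨a, b, c, d⟩
    refine h.line (s := 3) (t := 4) (by decide) (by decide) ?_ ?_ ?_ ?_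
    · rw [ff34]; linear_combination a
    · rw [fg34]; linear_combination - c
    · rw [gf34]; linear_combination b
    · rw [gg34]; exact d
section scalar

variable [CharZero K] {w1 w2 v1 v2 u1 u2 y1 y2 p2 p3 p4 p5 p6 p7 s2 s3 s4 s5 s6 s7 : K}

lemma mz {a b : K} (ha : a ≠ 0) (h : a * b = 0) : b = 0 := (mul_eq_zero.1 h).resolve_left ha

lemma sq0 {a : K} (h : a * a = 0) : a = 0 := mul_self_eq_zero.1 h

/-- First bracket of the `f` lane in degree five. -/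
lemma sA (h : AE 0 1 v1 v2 u1 u2 y1 y2 p2 p3 p4 p5 p6 p7 s2 s3 s4 s5 s6 s7) : False := by
  obtain rfl : p5 = 0 := by linear_combination - h.fff123F
  obtain rfl : s5 = 0 := by linear_combination - h.fff123G
  by_cases h3 : s3 = 0
  · subst h3
    by_cases h2 : s2 = 0
    · subst h2
      obtain rfl : p3 = 2 * p2 := by linear_combination - h.gff212G
      obtain rfl : p4 = 3 * p2 := by linear_combination (-1 / 2) * h.gff312G
      exact h.n2 ⟨sq0 (by linear_combination (-1 / 12) * h.ggf231F), rfl⟩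
    · have a : p3 - 2 * p4 = 0 := mz h2 (by linear_combination h.gff212F)
      exact h.n3 ⟨by linear_combination (1 / 2) * (h.gff312G - a), rfl⟩
  obtain rfl : p4 = 0 := mz h3 (by linear_combination h.gff312F)
  by_cases h2 : s2 = 0
  · subst h2
    obtain rfl : p2 = 2 * p3 := by linear_combination (1 / 2) * h.gff213G
    have hp : p3 ≠ 0 := fun e => h.n2 ⟨by rw [e, mul_zero], rfl⟩
    have a : 3 * p3 + s3 * s4 = 0 := by linear_combination h.gff312G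
    have h4 : s4 ≠ 0 := fun e => hp (by rw [e] at a; linear_combination (1 / 3) * a)
    obtain rfl : s6 = 0 := mz h4 (by linear_combination (-1 / 2) * h.gff412G)
    obtain rfl : u1 = - p3 * s4 := by
      have : u1 + p3 * s4 = 0 := mz h3 (by linear_combination - h.ggf231F + p3 * a)
      linear_combination this
    exact hp (mz h4 (by linear_combination (1 / 8) * (h.ggf241G - s4 * h.gff214G)))
  obtain rfl : p3 = 0 := mz h2 (by linear_combination h.gff213F)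
  obtain rfl : s4 = 0 := mz h3 (by linear_combination h.gff312G)
  obtain rfl : u1 = 0 := mz h3 (by linear_combination - h.ggf231F)
  have hc : s2 * s3 ≠ 0 := mul_ne_zero h2 h3
  obtain rfl : p2 = - (s2 * s3) / 2 := by linear_combination (1 / 2) * h.gff212G
  obtain rfl : u2 = - (s2 * s3) / 2 := by
    have : u2 + (s2 * s3) / 2 = 0 := mz h3 (by linear_combination - h.ggf231G)
    linear_combination this
  obtain rfl : y1 = - s3 * p6 := by
    have : y1 + s3 * p6 = 0 := mz h2 (by linear_combination - h.ggf241F)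
    linear_combination this
  obtain rfl : y2 = - s3 * s6 := by
    have : y2 + s3 * s6 = 0 := mz h2 (by linear_combination - h.ggf241G)
    linear_combination this
  obtain rfl : p7 = 2 * p6 := by
    have : p7 - 2 * p6 = 0 := mz hc (by linear_combination h.ggf242F)
    linear_combination this
  obtain rfl : s7 = 2 * s6 := by
    have : s7 - 2 * s6 = 0 := mz hc (by linear_combination h.ggf242G)
    linear_combination this
  obtain rfl : p6 = 0 := by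
    by_contra hp
    have a : 3 * v1 - 2 * s6 = 0 := mz hp (by linear_combination h.gff413F)
    obtain rfl : v1 = 0 := by linear_combination (1 / 4) * (h.fff125G - (v2 - 3) * a)
    obtain rfl : s6 = 0 := by linear_combination (-1 / 2) * a
    obtain rfl : v2 = 3 := by
      have : v2 - 3 = 0 := mz hc (by linear_combination h.gff224G)
      linear_combination this
    exact hp (by linear_combination (1 / 4) * h.gff413G)
  obtain rfl : v1 = 0 := mz hc (by linear_combination - h.gff214F)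
  exact h.s34 ⟨by ring, by ring, by ring, by ring⟩

/-- First bracket of the `f` lane in degree seven, and `⁅g 2, f 1⁆ ∈ K f`. -/
lemma sB (h : AE 0 0 0 1 u1 u2 y1 y2 p2 p3 p4 p5 p6 p7 0 s3 s4 s5 s6 s7) : False := by
  obtain rfl : p7 = 0 := by linear_combination - h.fff125F
  obtain rfl : s7 = 0 := by linear_combination - h.fff125G
  obtain rfl : s3 = 0 := by
    by_contra h3
    exact h.n4 ⟨rfl, rfl, mz h3 (by linear_combination h.gff212F), mz h3 (by linear_combination h.gff212G)⟩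
  obtain rfl : s4 = 0 := by
    by_contra h4
    exact h.n5 ⟨rfl, rfl, mz h4 (by linear_combination - h.gff213F),
      mz h4 (by linear_combination - h.gff213G)⟩
  by_cases h5 : s5 = 0
  · subst h5
    exact h.l42 ⟨rfl, rfl, by linear_combination (-1 / 2) * h.gff224G, by ring⟩
  obtain rfl : p6 = 0 := mz h5 (by linear_combination h.gff214F)
  obtain rfl : p4 = 3 * p5 := by linear_combination (1 / 2) * h.gff413G
  obtain rfl : p3 = 6 * p5 := by linear_combination (-1 / 3) * (h.gff323G + h.gff512G)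
  obtain rfl : p2 = 15 / 2 * p5 := by linear_combination (-1 / 2) * h.gff223G
  obtain rfl : u2 = - 27 / 2 * p5 := by
    have : u2 + 27 / 2 * p5 = 0 := mz h5 (by linear_combination h.ggf231G)
    linear_combination this
  have : p5 = 0 := sq0 (by linear_combination (1 / 9) * h.ggf231F)
  exact h.n2 ⟨by rw [this, mul_zero], rfl⟩

/-- The harmonic case. -/
lemma sC1 (h : AE 0 0 v1 v2 u1 u2 y1 y2 p2 0 p4 p5 p6 p7 s2 s3 s4 s5 s6 s7) (h2 : s2 ≠ 0) (h3 : s3 ≠ 0) :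
    False := by
  have step : ∀ {a b c p : K}, a ≠ 0 → b ≠ 0 → a * b - 2 * a * c + b * c = 0 → - 2 * p * a + p * b = 0 →
      c ≠ 0 ∧ p = 0 := by
    intro a b c p ha hb e1 e2
    refine ⟨fun e => mul_ne_zero ha hb (by rw [e] at e1; linear_combination e1), ?_⟩
    exact mz (mul_ne_zero ha hb) (by linear_combination p * e1 - c * e2)
  obtain ⟨h4, rfl⟩ := step (c := s4) (p := p4) h2 h3 (by linear_combination h.gff212G)
    (by linear_combination h.gff212F)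
  obtain ⟨h5, rfl⟩ := step (c := s5) (p := p5) h3 h4 (by linear_combination h.gff312G)
    (by linear_combination h.gff312F)
  obtain ⟨h6, rfl⟩ := step (c := s6) (p := p6) h4 h5 (by linear_combination h.gff412G)
    (by linear_combination h.gff412F)
  obtain ⟨-, rfl⟩ := step (c := s7) (p := p7) h5 h6 (by linear_combination h.gff512G)
    (by linear_combination h.gff512F)
  obtain rfl : v1 = 0 := sq0 (by linear_combination (1 / 3) * h.fff125F)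
  exact h.s34 ⟨by ring, by ring, by ring, mz h4 (by linear_combination - h.ggf341F)⟩

/-- The isolated case. -/
lemma sC2 (h : AE 0 0 v1 v2 u1 u2 y1 y2 0 p3 p4 p5 p6 p7 s2 0 s4 s5 s6 s7) (h2 : s2 ≠ 0) : False := by
  obtain rfl : s4 = 0 := mz h2 (by linear_combination (-1 / 2) * h.gff212G)
  obtain rfl : p3 = 2 * p4 := by
    have : p3 - 2 * p4 = 0 := mz h2 (by linear_combination h.gff212F)
    linear_combination this
  have h4 : p4 ≠ 0 := fun e => h.n3 ⟨by rw [e, mul_zero], rfl⟩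
  have ggf231F : 6 * p4 * p4 + 2 * p4 * p5 + p5 * u2 = 0 := by linear_combination h.ggf231F
  have ggf231G : -2 * p4 * s2 + 2 * p4 * s5 + s5 * u2 = 0 := by linear_combination h.ggf231G
  have gff223G : 5 * p4 * v2 - 3 * s2 * s5 + 2 * s2 * s6 = 0 := by linear_combination h.gff223G
  have gff412F : 2 * p4 * v1 - p5 * v1 + p6 * s5 = 0 := by linear_combination h.gff412F
  have gff412G : 2 * p4 * v2 - p5 * v2 + s5 * s6 = 0 := by linear_combination h.gff412G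
  have gff323F : -p4 * v1 - 2 * p5 * v1 - p6 * s5 + p7 * s5 = 0 := by linear_combination h.gff323F
  have gff323G : -p4 * v2 - 2 * p5 * v2 - s5 * s6 + s5 * s7 = 0 := by linear_combination h.gff323G
  have fff125F : -p7 * v2 + 3 * v1 * v1 = 0 := by linear_combination h.fff125F
  have fff125G : -s7 * v2 + 3 * v1 * v2 = 0 := by linear_combination h.fff125G
  have ggf241F : 2 * p4 * p4 + 4 * p4 * p5 - p4 * p6 + p6 * u2 - s2 * y1 - u1 * v1 = 0 := by linear_combination h.ggf241F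
  have ggf241G : -p4 * s2 + 4 * p4 * s5 - p4 * s6 - s2 * y2 + s6 * u2 - u1 * v2 = 0 := by linear_combination h.ggf241G
  have ggf251F : 10 * p5 * p5 - 5 * p5 * p6 + p5 * p7 + p7 * u2 - p7 * y2 - s2 * y1 - s5 * u1 + 2 * s5 * y1 - 3 * u1 * v1 + 3 * v1 * y1 = 0 := by linear_combination h.ggf251F
  have ggf251G : -p5 * s2 + 10 * p5 * s5 - 5 * p5 * s6 + p5 * s7 - s2 * y2 - s5 * u2 + 2 * s5 * y2 + s7 * u2 - s7 * y2 - 3 * u1 * v2 + 3 * v2 * y1 = 0 := by linear_combination h.ggf251G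
  have ggf341G : -12 * p4 * s5 + 10 * p4 * s6 - 3 * p4 * s7 + s7 * y2 - 3 * v2 * y1 = 0 := by linear_combination h.ggf341G
  have hd : 2 * p4 + u2 ≠ 0 := fun e =>
    h4 (sq0 (by linear_combination (1 / 6) * (ggf231F - p5 * e)))
  have h5 : s5 ≠ 0 := fun e =>
    mul_ne_zero h4 h2 (by rw [e] at ggf231G; linear_combination (-1 / 2) * ggf231G)
  have hv : v2 ≠ 0 := by
    rintro rfl
    obtain rfl : v1 = 0 := sq0 (by linear_combination (1 / 3) * fff125F)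
    exact h.n6 ⟨rfl, rfl, mz h5 (by linear_combination gff412F), mz h5 (by linear_combination gff412G)⟩
  have a1 : p5 * s2 + 3 * p4 * s5 = 0 := mz hd (by linear_combination s2 * ggf231F + 3 * p4 * ggf231G)
  have a2 : p4 * v2 * (s5 + 4 * s2) + 3 * s2 * s5 ^ 2 = 0 := by
    linear_combination (-s5) * gff223G + 2 * s2 * gff412G + 2 * v2 * a1
  obtain rfl : s7 = 3 * v1 := mul_left_cancel₀ hv (by linear_combination - fff125G)
  obtain ⟨x, rfl⟩ : ∃ x, s5 = s2 * x := ⟨s5 / s2, by field_simp⟩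
  obtain rfl : p5 = -3 * p4 * x := mul_left_cancel₀ h2 (by linear_combination a1)
  have hD : x + 4 ≠ 0 := fun e =>
    h5 (sq0 (mz h2 (by linear_combination (1 / 3) * (a2 - p4 * v2 * s2 * e))))
  obtain ⟨r, hr⟩ : ∃ r, r * (x + 4) = 1 := ⟨1 / (x + 4), by field_simp⟩
  have c2 : p4 * v2 = -3 * x ^ 2 * s2 ^ 2 * r :=
    mul_left_cancel₀ h2 (by linear_combination r * a2 - p4 * v2 * s2 * hr)
  obtain rfl : s6 = 3 * x * (2 + 3 * x) * s2 * r :=
    mul_left_cancel₀ h5 (by linear_combination gff412G - (2 + 3 * x) * c2)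
  obtain rfl : v1 = x * (1 + 9 * x) * s2 * r :=
    mul_left_cancel₀ h5 (by linear_combination (1 / 3) * (gff412G + gff323G - (1 + 9 * x) * c2))
  have cu : x * u2 = 2 * p4 * (1 - x) := mul_left_cancel₀ h2 (by linear_combination ggf231G)
  obtain rfl : p6 = -(2 + 3 * x) * (1 + 9 * x) * p4 * r :=
    mul_left_cancel₀ h5 (by linear_combination gff412F)
  obtain rfl : p7 = -(1 + 9 * x) ^ 2 * p4 * r :=
    mul_left_cancel₀ h5 (by linear_combination gff412F + gff323F)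
  have ly : 3 * x * s2 * y1 + (1 + 9 * x) * p4 * y2 = (x - 1) * p4 ^ 2 :=
    mul_left_cancel₀ h2 (by
      linear_combination (-3 * x * s2) * ggf241F - (1 + 9 * x) * p4 * ggf241G - (1 + 9 * x) * u1 * c2)
  have lu : 3 * x ^ 2 * s2 * u1 = (17 * x + 1) * (x - 1) * p4 ^ 2 :=
    mul_left_cancel₀ h2 (by
      linear_combination (-3 * x * s2) * ggf251F - (1 + 9 * x) * p4 * ggf251G + (2 * x - 1) * s2 * ly
        - (1 + 9 * x) * s2 * p4 * cu - 3 * (1 + 9 * x) * (u1 - y1) * c2)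
  have hr0 : r ≠ 0 := left_ne_zero_of_mul_eq_one hr
  have fin : (x - 1) ^ 3 = 0 :=
    mul_left_cancel₀ (mul_ne_zero (mul_ne_zero h2 (pow_ne_zero 2 h4)) hr0) (by
      linear_combination (1 / 12) * (p4 * (ggf251G + ggf341G + (2 * x - 1) * ggf241G)
        - p4 * s2 * (-1 + 3 * (1 + 9 * x) * r + 3 * (2 * x - 1) * (2 + 3 * x) * r) * cu
        + (2 * x + 2) * u1 * c2 - (2 * x + 2) * s2 * r * lu
        + s2 * p4 ^ 2 * (-22 * x ^ 2 - 13 * x - 1) * hr))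
  obtain rfl : x = 1 := by linear_combination (pow_eq_zero_iff (n := 3) (by norm_num)).1 fin
  exact h.l42 ⟨rfl, rfl, by ring, by ring⟩

end scalar

lemma AH.conj {β : Bil K} (h : AH β) (e : (K × K) ≃ₗ[K] (K × K)) (ha : e (1, 0) = (1, 0)) :
    AH (β.conj e) where
  arr := h.arr.conj e fun s u hu => hu.imp id fun hu => ⟨hu.1, by
    have : u = u.1 • ((1, 0) : K × K) := Prod.ext (by simp) (by simp [hu.2])
    rw [this, map_smul, ha]; simp⟩
  S s t hs ht l := by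
    obtain ⟨u, v, huv⟩ := h.S s t hs ht (e l)
    refine ⟨e.symm u, e.symm v, fun h0 => huv ?_⟩
    obtain ⟨c, hc⟩ := Submodule.mem_span_singleton.1 h0
    rw [Bil.conj_apply, LinearEquiv.apply_symm_apply, LinearEquiv.apply_symm_apply,
      LinearEquiv.eq_symm_apply, map_smul] at hc
    exact Submodule.mem_span_singleton.2 ⟨c, hc⟩
  L s t hs ht u hu h0 := by
    refine h.L s t hs ht (e u) (by simpa using hu) (LinearMap.ext fun v => ?_)
    have := LinearMap.congr_fun h0 (e.symm v)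
    simpa [Bil.conj_apply] using this
  L1 t ht c := by
    obtain ⟨v, hv⟩ := h.L1 t ht c
    refine ⟨e.symm v, fun h0 => hv ?_⟩
    rw [Bil.conj_apply, LinearEquiv.apply_symm_apply, ha, LinearEquiv.symm_apply_eq, map_smul,
      LinearEquiv.apply_symm_apply] at h0
    exact h0

lemma exists_norm (g : K × K) (hg : g.2 ≠ 0) : ∃ e : (K × K) ≃ₗ[K] (K × K), e (1, 0) = (1, 0) ∧
    e (0, 1) = g ∧ ∀ x : K × K, e.symm x = (x.1 - x.2 * g.1 / g.2, x.2 / g.2) := by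
  obtain ⟨e, he⟩ := exists_basis (u := ((1, 0) : K × K)) (v := g) (by simpa using hg)
  refine ⟨e, by rw [he]; simp, by rw [he]; simp, fun x => ?_⟩
  rw [LinearEquiv.symm_apply_eq, he]
  ext <;> simp <;> field_simp <;> ring

lemma AH.low [CharZero K] {β : Bil K} (h : AH β) (h12 : β 1 2 (1, 0) (1, 0) = 0)
    (hc : β 1 4 (1, 0) (1, 0) ≠ 0 ∨ β 1 6 (1, 0) (1, 0) ≠ 0 ∨ (β 2 1 (0, 1) (1, 0)).2 ≠ 0) : False := by
  have pe : ∀ x : K × K, x = (x.1, x.2) := fun _ => rfl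
  have E := h.ae h12 (pe _) (pe _) (pe _) (pe _) (pe _) (pe _) (pe _) (pe _) (pe _) (pe _)
  have f21 : β 2 1 (1, 0) (1, 0) = 0 := by
    rw [h.arr.anti 1 2 _ _ (i1 le_rfl) (i1 (by decide)), h12, neg_zero]
  have f31 : β 3 1 (1, 0) (1, 0) = 0 := by
    have d := h.arr.der 2 1 _ _ (i1 (by decide)) (i1 le_rfl)
    have z : β 2 2 (1, 0) (1, 0) = 0 := z2 (h.arr.anti 2 2 _ _ (i1 (by decide)) (i1 (by decide)))
    rw [f21, z, add_zero] at d
    exact d.symm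
  have key : ∀ g : K × K, g.2 ≠ 0 → ∃ γ : Bil K, AH γ ∧ γ 1 2 (1, 0) (1, 0) = 0 ∧
      (∀ t, γ 1 t (1, 0) (1, 0) = ((β 1 t (1, 0) (1, 0)).1 - (β 1 t (1, 0) (1, 0)).2 * g.1 / g.2,
        (β 1 t (1, 0) (1, 0)).2 / g.2)) ∧
      ∀ k, β k 1 (1, 0) (1, 0) = 0 → γ k 1 (0, 1) (1, 0) =
        (g.2 * (β k 1 (0, 1) (1, 0)).1 - (β k 1 (0, 1) (1, 0)).2 * g.1, (β k 1 (0, 1) (1, 0)).2) := by
    intro g hg
    obtain ⟨e, ha, hb, hs⟩ := exists_norm g hg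
    refine ⟨β.conj e, h.conj e ha, by rw [Bil.conj_apply, ha, h12, map_zero],
      fun t => by rw [Bil.conj_apply, ha, hs], fun k hk => ?_⟩
    rw [Bil.conj_apply, ha, hb, β.exp1, hk, hs]
    ext <;> simp <;> field_simp
  by_cases w2 : (β 1 4 (1, 0) (1, 0)).2 = 0
  swap
  · obtain ⟨γ, hγ, g12, gF, -⟩ := key _ w2
    refine sA (hγ.ae g12 ?_ rfl rfl rfl rfl rfl rfl rfl rfl rfl)
    rw [gF, mul_div_cancel_left₀ _ w2, sub_self, div_self w2]
  have w1 : (β 1 4 (1, 0) (1, 0)).1 = 0 := sq0 (by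
    have := E.fff123F
    rw [w2] at this
    linear_combination (1 / 2) * this)
  have hw : ∀ g : K × K, ((β 1 4 (1, 0) (1, 0)).1 - (β 1 4 (1, 0) (1, 0)).2 * g.1 / g.2,
      (β 1 4 (1, 0) (1, 0)).2 / g.2) = (0, 0) := fun g => by rw [w1, w2]; simp
  by_cases h2 : (β 2 1 (0, 1) (1, 0)).2 = 0
  · have v2 : (β 1 6 (1, 0) (1, 0)).2 ≠ 0 := fun v2 => by
      have v1 : (β 1 6 (1, 0) (1, 0)).1 = 0 := sq0 (by
        have := E.fff125F
        rw [w1, w2, v2] at this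
        linear_combination (1 / 3) * this)
      rcases hc with hc | hc | hc
      · exact hc (Prod.ext w1 w2)
      · exact hc (Prod.ext v1 v2)
      · exact hc h2
    obtain ⟨γ, hγ, g12, gF, gR⟩ := key _ v2
    refine sB (hγ.ae g12 ((gF 4).trans (hw _)) ?_ rfl rfl ((gR 2 f21).trans (by rw [h2])) rfl rfl rfl rfl rfl)
    rw [gF, mul_div_cancel_left₀ _ v2, sub_self, div_self v2]
  by_cases h3 : (β 3 1 (0, 1) (1, 0)).2 = 0
  · obtain ⟨γ, hγ, g12, gF, gR⟩ := key _ h2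
    exact sC2 (hγ.ae g12 ((gF 4).trans (hw _)) rfl rfl rfl ((gR 2 f21).trans (by rw [sub_self]))
      ((gR 3 f31).trans (by rw [h3])) rfl rfl rfl rfl) h2
  · obtain ⟨γ, hγ, g12, gF, gR⟩ := key _ h3
    exact sC1 (hγ.ae g12 ((gF 4).trans (hw _)) rfl rfl rfl (gR 2 f21)
      ((gR 3 f31).trans (by rw [sub_self])) rfl rfl rfl rfl) h2 h3

end Pool.Agent.P78.ALow

namespace Pool.Agent.P78

/-- The cases of `AlphaStmt` with `⁅f 1, f 2⁆ = 0` that are decided in degree at most eight. -/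
theorem alpha_low {K : Type} [Field K] [CharZero K] {β : Bil K}
    (arr : Arr (fun s u => 2 ≤ s ∨ s = 1 ∧ u.2 = 0) β)
    (hS : ∀ s t, 2 ≤ s → s < t → ∀ l, ∃ u v, β s t u v ∉ K ∙ l)
    (hL : ∀ s t, 2 ≤ s → 2 ≤ t → ∀ u, u ≠ 0 → β s t u ≠ 0)
    (hL1 : ∀ t, 2 ≤ t → ∀ c : K, ∃ v, β 1 t (1, 0) v ≠ c • v)
    (h12 : β 1 2 (1, 0) (1, 0) = 0)
    (hc : β 1 4 (1, 0) (1, 0) ≠ 0 ∨ β 1 6 (1, 0) (1, 0) ≠ 0 ∨ (β 2 1 (0, 1) (1, 0)).2 ≠ 0) : False :=
  ALow.AH.low ⟨arr, hS, hL, hL1⟩ h12 hc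

end Pool.Agent.P78
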