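import Pool.Agent.Lib.MP_78c6b1_al.CA.AlphaLow
import Pool.Agent.Lib.MP_78c6b1_al.CA.AlphaA

/-! Head `2, 2, 2, …`: the uniform part and the assembly. -/

namespace Pool.Agent.P78.ALow

variable {K : Type} [Field K]

/-- On the first level of a Pascal array that may be nonzero all entries agree up to sign. -/
lemma lev {M : Type} [AddCommGroup M] (c : ℕ → ℕ → M) (a N : ℕ)
    (d : ∀ s t, a ≤ s → 1 ≤ t → c s t = c (s + 1) t + c s (t + 1))
    (z : ∀ s t, a ≤ s → 1 ≤ t → s + t ≤ N → c s t = 0) (i j : ℕ) (hi : a ≤ i) (hj : 1 ≤ j)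
    (hN : i + j = N + 1) (h0 : c i j = 0) : ∀ s t, a ≤ s → 1 ≤ t → s + t ≤ N + 1 → c s t = 0 := by
  have key : ∀ m t, 1 ≤ t → a + m + t = N + 1 → (c (a + m) t = 0 ↔ c a (N + 1 - a) = 0) := by
    intro m
    induction m with
    | zero =>
      intro t _ h
      obtain rfl : t = N + 1 - a := by omega
      rfl
    | succ m ih =>
      intro t ht h
      have e := d (a + m) t (by omega) ht
      rw [z (a + m) t (by omega) ht (by omega)] at e
      rw [← ih (t + 1) (by omega) (by omega), ← add_assoc, eq_neg_of_add_eq_zero_left e.symm, neg_eq_zero]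
  intro s t hs ht hst
  rcases Nat.lt_or_ge N (s + t) with h | h
  · obtain ⟨m, rfl⟩ := Nat.exists_eq_add_of_le hs
    obtain ⟨m', rfl⟩ := Nat.exists_eq_add_of_le hi
    exact (key m t ht (by omega)).2 ((key m' j hj hN).1 h0)
  · exact z s t hs ht h

/-- The `f` lane is abelian up to level `N`. -/
def PF (β : Bil K) (N : ℕ) : Prop := ∀ s t, 1 ≤ s → 1 ≤ t → s + t ≤ N → β s t (1, 0) (1, 0) = 0

/-- The `f` lane is an ideal up to level `N`. -/
def PS (β : Bil K) (N : ℕ) : Prop := ∀ s t, 2 ≤ s → 1 ≤ t → s + t ≤ N → (β s t (0, 1) (1, 0)).2 = 0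

lemma AH.pf {β : Bil K} (h : AH β) {N : ℕ} (z : PF β N) (i j : ℕ) (hi : 1 ≤ i) (hj : 1 ≤ j)
    (hN : i + j = N + 1) (h0 : β i j (1, 0) (1, 0) = 0) : PF β (N + 1) :=
  lev (fun s t => β s t (1, 0) (1, 0)) 1 N
    (fun s t hs ht => h.arr.der s t _ _ (i1 hs) (i1 ht)) z i j hi hj hN h0

lemma AH.ps {β : Bil K} (h : AH β) {N : ℕ} (z : PS β N) (i j : ℕ) (hi : 2 ≤ i) (hj : 1 ≤ j)
    (hN : i + j = N + 1) (h0 : (β i j (0, 1) (1, 0)).2 = 0) : PS β (N + 1) :=
  lev (fun s t => (β s t (0, 1) (1, 0)).2) 2 N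
    (fun s t hs ht => congrArg Prod.snd (h.arr.der s t _ _ (Or.inl hs) (i1 ht))) z i j hi hj hN h0

lemma AH.dg [CharZero K] {β : Bil K} (h : AH β) {s : ℕ} (hs : 1 ≤ s) : β s s (1, 0) (1, 0) = 0 :=
  z2 (h.arr.anti s s _ _ (i1 hs) (i1 hs))

lemma AH.stepS {β : Bil K} (h : AH β) {n : ℕ} (hn : 1 ≤ n) (hF : PF β (n + 4)) (hS : PS β (n + 2)) :
    PS β (n + 3) := by
  refine h.ps hS 2 (n + 1) le_rfl (by omega) (by omega) ?_
  by_contra h0
  have j := jexp h.arr 2 (n + 1) 1 (0, 1) (1, 0) (1, 0) (Or.inl le_rfl) (i1 (by omega)) (i1 le_rfl)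
  rw [hF (2 + (n + 1)) 1 (by omega) le_rfl (by omega), hF (n + 1) 1 (by omega) le_rfl (by omega),
    hF (n + 1) (2 + 1) (by omega) (by omega) (by omega), hS 2 1 le_rfl le_rfl (by omega)] at j
  simp only [smul_zero, zero_add, Prod.fst_zero, Prod.snd_zero, zero_smul, sub_zero] at j
  refine h.kill (t := 2 + (n + 1)) (by omega) (hF _ _ le_rfl (by omega) (by omega)) ?_
  rw [h.arr.anti _ 1 (0, 1) (1, 0) (Or.inl (by omega)) (i1 le_rfl), (smul_eq_zero.1 j).resolve_left h0,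
    neg_zero]

lemma AH.stepF [CharZero K] {β : Bil K} (h : AH β) {t : ℕ} (ht : 1 ≤ t) (hF : PF β (2 * t + 2))
    (hS : PS β (t + 4)) (h3 : 2 ≤ t) : PF β (2 * t + 3) := by
  refine h.pf hF (t + 1) (t + 2) (by omega) (by omega) (by omega) ?_
  by_contra h0
  have d1 := h.arr.der (t + 1) (t + 2) (1, 0) (1, 0) (i1 (by omega)) (i1 (by omega))
  have d2 := h.arr.der t (t + 2) (1, 0) (1, 0) (i1 (by omega)) (i1 (by omega))
  have d3 := h.arr.der t (t + 2 + 1) (1, 0) (1, 0) (i1 (by omega)) (i1 (by omega))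
  have a := h.arr.anti t (2 + (t + 2)) (1, 0) (1, 0) (i1 (by omega)) (i1 (by omega))
  rw [hF t (t + 2) ht (by omega) (by omega)] at d2
  rw [show t + 1 + 1 = t + 2 from rfl, h.dg (by omega : 1 ≤ t + 2)] at d1
  rw [show t + 2 + 1 + 1 = 2 + (t + 2) by omega] at d3
  have hne : β (2 + (t + 2)) t (1, 0) (1, 0) ≠ 0 := fun e => h0 (by
    have : (2 : K) • β (t + 1) (t + 2) (1, 0) (1, 0) = 0 := by
      linear_combination (norm := module) e - a + d1 - d2 - d3
    exact (smul_eq_zero.1 this).resolve_left two_ne_zero)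
  have j := jexp h.arr 2 (t + 2) t (0, 1) (1, 0) (1, 0) (Or.inl le_rfl) (i1 (by omega)) (i1 ht)
  rw [hF (t + 2) t (by omega) ht (by omega), hS 2 (t + 2) le_rfl (by omega) (by omega),
    hS 2 t le_rfl ht (by omega), show 2 + t = t + 2 by omega, h.dg (by omega : 1 ≤ t + 2)] at j
  simp only [smul_zero, add_zero, Prod.fst_zero, Prod.snd_zero, zero_smul, sub_zero] at j
  refine h.kill2 (s := t + 2) (t := 2) (by omega) le_rfl (hF _ _ (by omega) (by omega) (by omega)) ?_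
  rw [h.arr.anti 2 (t + 2) (0, 1) (1, 0) (Or.inl le_rfl) (i1 (by omega)), neg_eq_zero]
  exact Prod.ext ((smul_eq_zero.1 j).resolve_right hne) (hS 2 (t + 2) le_rfl (by omega) (by omega))

lemma AH.high [CharZero K] {β : Bil K} (h : AH β) (h12 : β 1 2 (1, 0) (1, 0) = 0)
    (h14 : β 1 4 (1, 0) (1, 0) = 0) (h16 : β 1 6 (1, 0) (1, 0) = 0) (h2 : (β 2 1 (0, 1) (1, 0)).2 = 0) :
    Lane β (1, 0) := by
  have f1 : PF β 1 := fun s t _ _ _ => by omega
  have f2 : PF β 2 := h.pf f1 1 1 le_rfl le_rfl rfl (h.dg le_rfl)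
  have f3 : PF β 3 := h.pf f2 1 2 le_rfl (by decide) rfl h12
  have f4 : PF β 4 := h.pf f3 2 2 (by decide) (by decide) rfl (h.dg (by decide))
  have f5 : PF β 5 := h.pf f4 1 4 le_rfl (by decide) rfl h14
  have f6 : PF β 6 := h.pf f5 3 3 (by decide) (by decide) rfl (h.dg (by decide))
  have f7 : PF β 7 := h.pf f6 1 6 le_rfl (by decide) rfl h16
  have f8 : PF β 8 := h.pf f7 4 4 (by decide) (by decide) rfl (h.dg (by decide))
  have s2 : PS β 2 := fun s t _ _ _ => by omega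
  have s3 : PS β 3 := h.ps s2 2 1 le_rfl le_rfl rfl h2
  have s4 : PS β 4 := h.stepS (n := 1) le_rfl f5 s3
  have s5 : PS β 5 := h.stepS (n := 2) (by decide) f6 s4
  have s6 : PS β 6 := h.stepS (n := 3) (by decide) f7 s5
  have s7 : PS β 7 := h.stepS (n := 4) (by decide) f8 s6
  have all : ∀ m, PF β (2 * (m + 3) + 2) ∧ PS β (2 * (m + 3) + 1) := by
    intro m
    induction m with
    | zero => exact ⟨f8, s7⟩
    | succ m ih =>
      have a := h.stepF (t := m + 3) (by omega) ih.1 (fun s t hs ht hst => ih.2 s t hs ht (by omega))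
        (by omega)
      have b : PF β (2 * (m + 3) + 3 + 1) :=
        h.pf a (m + 5) (m + 5) (by omega) (by omega) (by omega) (h.dg (by omega))
      have c : PS β (2 * (m + 3) + 2) := h.stepS (n := 2 * m + 5) (by omega) a ih.2
      exact ⟨b, h.stepS (n := 2 * m + 6) (by omega) b c⟩
  refine ⟨by simp, 2, fun s t hs ht => ⟨fun u => ?_, (all (s + t)).1 s t (by omega) (by omega) (by omega)⟩⟩
  refine Submodule.mem_span_singleton.2 ⟨(β s t u (1, 0)).1, Prod.ext (by simp) ?_⟩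
  rw [β.exp1 s t u, (all (s + t)).1 s t (by omega) (by omega) (by omega)]
  simp [(all (s + t)).2 s t hs (by omega) (by omega)]

lemma AH.shift {β : Bil K} (h : AH β) (ℓ : (K × K) →ₗ[K] K) : AH (β.shift ℓ) where
  arr := h.arr.shift ℓ (fun s u hs => by omega) fun s u hs => Or.inl (by omega)
  S s t hs ht := by
    rw [Bil.shift_big β ℓ (by omega) (by omega)]
    exact h.S s t hs ht
  L s t hs ht := by
    rw [Bil.shift_big β ℓ (by omega) (by omega)]
    exact h.L s t hs ht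
  L1 t ht c := by
    obtain ⟨v, hv⟩ := h.L1 t ht (c + ℓ (1, 0))
    refine ⟨v, fun e => hv ?_⟩
    have e2 : t ≠ 1 := by omega
    rw [Bil.shift_apply, if_pos rfl, if_neg e2, add_zero, sub_eq_iff_eq_add] at e
    rw [e, add_smul]

end Pool.Agent.P78.ALow

namespace Pool.Agent.P78

theorem alphaStmt : AlphaStmt := by
  intro K _ _ β arr nal hS hL hL1
  by_cases h3 : (β 1 2 (1, 0) (1, 0)).2 = 0
  swap
  · exact alphaA K β arr hS hL h3
  have h0 : ALow.AH β := ⟨arr, hS, hL, hL1⟩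
  set ℓ : (K × K) →ₗ[K] K := (β 1 2 (1, 0) (1, 0)).1 • LinearMap.fst K K K with hℓ
  have h := h0.shift ℓ
  have h12 : β.shift ℓ 1 2 (1, 0) (1, 0) = 0 := by
    rw [Bil.shift_apply, hℓ]
    exact Prod.ext (by simp) (by simp [h3])
  by_cases hc : β.shift ℓ 1 4 (1, 0) (1, 0) ≠ 0 ∨ β.shift ℓ 1 6 (1, 0) (1, 0) ≠ 0 ∨
      (β.shift ℓ 2 1 (0, 1) (1, 0)).2 ≠ 0
  · exact h.low h12 hc
  · simp only [not_or, not_not] at hc
    obtain ⟨l0, q, hq⟩ := h.high h12 hc.1 hc.2.1 hc.2.2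
    refine nal _ ⟨l0, q + 2, fun s t hs ht => ?_⟩
    have := hq s t (by omega) (by omega)
    rwa [Bil.shift_big β ℓ (by omega) (by omega)] at this

end Pool.Agent.P78
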