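import Pool.Agent.Lib.MP_78c6b1_al.CA.EEDefs

/-! Head `3, 2, 2, …`: normal forms of the product `u ∘ v = β 1 2 u v`. -/

namespace Pool.Agent.P78

open Filter

variable {K : Type} [Field K]

/-- The hypotheses of `BetaStmt`. -/
structure BH (β : Bil K) : Prop where
  arr : Arr (fun s _ => 1 ≤ s) β
  nal : ∀ l, ¬ Lane β l
  faith : Faith β 2
  ne : ∀ s t, 2 ≤ s → s < t → β s t ≠ 0
  pl : ∀ t, 2 ≤ t → ∀ c : (K × K) →ₗ[K] K, ∃ u v, β 1 t u v ≠ c u • v

/-- Form I: `a ∘ a ∈ K b`, `a ∘ b = b ∘ b = 0`. -/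
def BIStmt : Prop :=
  ∀ (K : Type) [Field K] [CharZero K] (β : Bil K), BH β → β 1 1 = 0 →
    (β 1 2 (1, 0) (1, 0)).1 = 0 → β 1 2 (1, 0) (0, 1) = 0 → β 1 2 (0, 1) (0, 1) = 0 → False

/-- Form II: `b ∘ b = 0`, `a ∘ b ∈ K b`, and the trace of `a` is not zero. -/
def BIIStmt : Prop :=
  ∀ (K : Type) [Field K] [CharZero K] (β : Bil K), BH β → β 1 1 = 0 →
    β 1 2 (0, 1) (0, 1) = 0 → (β 1 2 (1, 0) (0, 1)).1 = 0 →
    (β 1 2 (1, 0) (1, 0)).1 + (β 1 2 (1, 0) (0, 1)).2 ≠ 0 → False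

/-- Form III: the plane is a separable quadratic algebra. -/
def BIIIStmt : Prop :=
  ∀ (K : Type) [Field K] [CharZero K] (β : Bil K) (d : K), BH β → β 1 1 = 0 → d ≠ 0 →
    β 1 2 (1, 0) (1, 0) = (d, 0) → β 1 2 (1, 0) (0, 1) = (0, d) → β 1 2 (0, 1) (0, 1) = (1, 0) →
    β 2 2 (1, 0) (0, 1) = 0 → False

/-- Replace `u` in degree one by `u - ℓ u • X`. -/
noncomputable def Bil.shift (β : Bil K) (ℓ : (K × K) →ₗ[K] K) : Bil K := fun s t =>
  β s t - (if s = 1 then (LinearMap.lsmul K (K × K)).comp ℓ else 0) +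
    (if t = 1 then ((LinearMap.lsmul K (K × K)).comp ℓ).flip else 0)

lemma Bil.shift_apply (β : Bil K) (ℓ : (K × K) →ₗ[K] K) (s t : ℕ) (u v : K × K) :
    β.shift ℓ s t u v = β s t u v - (if s = 1 then ℓ u • v else 0) + (if t = 1 then ℓ v • u else 0) := by
  unfold Bil.shift
  split_ifs <;> simp

lemma Bil.shift_big (β : Bil K) (ℓ : (K × K) →ₗ[K] K) {s t : ℕ} (hs : s ≠ 1) (ht : t ≠ 1) :
    β.shift ℓ s t = β s t := by
  refine LinearMap.ext fun u => LinearMap.ext fun v => ?_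
  rw [Bil.shift_apply, if_neg hs, if_neg ht, sub_zero, add_zero]

lemma Arr.shift {I : ℕ → K × K → Prop} {β : Bil K} (h : Arr I β) (ℓ : (K × K) →ₗ[K] K)
    (hI : ∀ s u, I s u → 1 ≤ s) (hM : ∀ s u, I s u → I (s + 1) u) : Arr I (β.shift ℓ) where
  der s t u v hs ht := by
    have h1 := hI _ _ hs
    have h2 := hI _ _ ht
    have e1 : s + 1 ≠ 1 := by omega
    have e2 : t + 1 ≠ 1 := by omega
    simp only [Bil.shift_apply, if_neg e1, if_neg e2]
    rw [h.der s t u v hs ht]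
    abel
  anti s t u v hs ht := by
    simp only [Bil.shift_apply]
    rw [h.anti s t u v hs ht]
    abel
  jac r s t u v w hr hs ht := by
    have h1 := hI _ _ hr
    have h2 := hI _ _ hs
    have h3 := hI _ _ ht
    have e1 : r + s ≠ 1 := by omega
    have e2 : s + t ≠ 1 := by omega
    have e3 : r + t ≠ 1 := by omega
    have d1 := h.der s t v w hs ht
    have d2 := h.der r t u w hr ht
    have d3 := h.der r s u v hr hs
    have j := h.jac r s t u v w hr hs ht
    rw [← neg_neg (β (r + 1) s u v), ← h.anti (r + 1) s u v (hM _ _ hr) hs] at d3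
    simp only [Bil.shift_apply, if_neg e1, if_neg e2, if_neg e3, map_add, map_sub,
      LinearMap.add_apply, LinearMap.sub_apply, j]
    by_cases c1 : r = 1 <;> by_cases c2 : s = 1 <;> by_cases c3 : t = 1 <;>
      simp only [c1, c2, c3, if_true, if_false, map_smul, LinearMap.smul_apply, map_zero,
        LinearMap.zero_apply, add_comm 1] at d1 d2 d3 ⊢
    · linear_combination (norm := module) ℓ u • d1 - ℓ v • d2 + ℓ w • d3
    · linear_combination (norm := module) ℓ u • d1 - ℓ v • d2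
    · linear_combination (norm := module) ℓ u • d1 + ℓ w • d3
    · linear_combination (norm := module) ℓ u • d1
    · linear_combination (norm := module) ℓ w • d3 - ℓ v • d2
    · linear_combination (norm := module) (- ℓ v) • d2
    · linear_combination (norm := module) ℓ w • d3
    · module

lemma BH.shift {β : Bil K} (h : BH β) (ℓ : (K × K) →ₗ[K] K) : BH (β.shift ℓ) where
  arr := h.arr.shift ℓ (fun _ _ hs => hs) fun _ _ hs => hs.trans (Nat.le_succ _)
  nal l hl := by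
    obtain ⟨h0, q, hq⟩ := hl
    refine h.nal l ⟨h0, q + 2, fun s t hs ht => ?_⟩
    have := hq s t (by omega) (by omega)
    rwa [Bil.shift_big β ℓ (by omega) (by omega)] at this
  faith s hs u hu := by
    refine ((h.faith s hs u hu).and_eventually (eventually_ge_atTop 2)).mono fun t ht => ?_
    rw [Bil.shift_big β ℓ (by omega) (by omega)]
    exact ht.1
  ne s t hs ht := by
    rw [Bil.shift_big β ℓ (by omega) (by omega)]
    exact h.ne s t hs ht
  pl t ht c := by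
    obtain ⟨u, v, huv⟩ := h.pl t ht (c + ℓ)
    refine ⟨u, v, fun e => huv ?_⟩
    have e2 : t ≠ 1 := by omega
    rw [Bil.shift_apply, if_pos rfl, if_neg e2, add_zero, sub_eq_iff_eq_add] at e
    rw [e, LinearMap.add_apply, add_smul]

/-- Change of basis. -/
noncomputable def Bil.conj (β : Bil K) (e : (K × K) ≃ₗ[K] (K × K)) : Bil K := fun s t =>
  ((β s t).compl₁₂ e.toLinearMap e.toLinearMap).compr₂ e.symm.toLinearMap

lemma Bil.conj_apply (β : Bil K) (e : (K × K) ≃ₗ[K] (K × K)) (s t : ℕ) (u v : K × K) :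
    β.conj e s t u v = e.symm (β s t (e u) (e v)) := rfl

lemma Arr.conj {I : ℕ → K × K → Prop} {β : Bil K} (h : Arr I β) (e : (K × K) ≃ₗ[K] (K × K))
    (hI : ∀ s u, I s u → I s (e u)) : Arr I (β.conj e) where
  der s t u v hs ht := by
    simp only [Bil.conj_apply]
    rw [h.der s t _ _ (hI _ _ hs) (hI _ _ ht), map_add]
  anti s t u v hs ht := by
    simp only [Bil.conj_apply]
    rw [h.anti s t _ _ (hI _ _ hs) (hI _ _ ht), map_neg]
  jac r s t u v w hr hs ht := by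
    simp only [Bil.conj_apply, LinearEquiv.apply_symm_apply]
    rw [h.jac r s t _ _ _ (hI _ _ hr) (hI _ _ hs) (hI _ _ ht), map_sub]

lemma Lane.of_conj {β : Bil K} {e : (K × K) ≃ₗ[K] (K × K)} {l : K × K} (hl : Lane (β.conj e) l) :
    Lane β (e l) := by
  obtain ⟨h0, q, hq⟩ := hl
  refine ⟨by simpa using h0, q, fun s t hs ht => ⟨fun u => ?_, ?_⟩⟩
  · obtain ⟨c, hc⟩ := Submodule.mem_span_singleton.1 ((hq s t hs ht).1 (e.symm u))
    rw [Bil.conj_apply, LinearEquiv.apply_symm_apply, LinearEquiv.eq_symm_apply, map_smul] at hc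
    exact Submodule.mem_span_singleton.2 ⟨c, hc⟩
  · have := (hq s t hs ht).2
    rwa [Bil.conj_apply, LinearEquiv.map_eq_zero_iff] at this

lemma BH.conj {β : Bil K} (h : BH β) (e : (K × K) ≃ₗ[K] (K × K)) : BH (β.conj e) where
  arr := h.arr.conj e fun _ _ hs => hs
  nal l hl := h.nal _ hl.of_conj
  faith s hs u hu := by
    refine (h.faith s hs (e u) (by simpa using hu)).mono fun t ht h0 => ht ?_
    refine LinearMap.ext fun v => ?_
    have := LinearMap.congr_fun h0 (e.symm v)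
    simpa [Bil.conj_apply] using this
  ne s t hs ht h0 := by
    refine h.ne s t hs ht (LinearMap.ext fun u => LinearMap.ext fun v => ?_)
    have := LinearMap.congr_fun (LinearMap.congr_fun h0 (e.symm u)) (e.symm v)
    simpa [Bil.conj_apply] using this
  pl t ht c := by
    obtain ⟨u, v, huv⟩ := h.pl t ht (c.comp e.symm.toLinearMap)
    refine ⟨e.symm u, e.symm v, fun h0 => huv ?_⟩
    rw [Bil.conj_apply, LinearEquiv.apply_symm_apply, LinearEquiv.apply_symm_apply,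
      LinearEquiv.symm_apply_eq, map_smul, LinearEquiv.apply_symm_apply] at h0
    exact h0

lemma exists_basis {u v : K × K} (h : u.1 * v.2 - u.2 * v.1 ≠ 0) :
    ∃ e : (K × K) ≃ₗ[K] (K × K), ∀ x y : K, e (x, y) = x • u + y • v := by
  let f : (K × K) →ₗ[K] (K × K) :=
    (LinearMap.fst K K K).smulRight u + (LinearMap.snd K K K).smulRight v
  have hf : ∀ x y : K, f (x, y) = x • u + y • v := fun x y => by simp [f]
  have hi : Function.Injective f := by
    rw [injective_iff_map_eq_zero]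
    rintro ⟨x, y⟩ h0
    rw [hf, Prod.ext_iff] at h0
    simp only [Prod.fst_add, Prod.smul_fst, smul_eq_mul, Prod.fst_zero, Prod.snd_add, Prod.smul_snd,
      Prod.snd_zero] at h0
    have hx : x = 0 := (mul_eq_zero.1 (show x * (u.1 * v.2 - u.2 * v.1) = 0 by
      linear_combination v.2 * h0.1 - v.1 * h0.2)).resolve_right h
    have hy : y = 0 := (mul_eq_zero.1 (show y * (u.1 * v.2 - u.2 * v.1) = 0 by
      linear_combination u.1 * h0.2 - u.2 * h0.1)).resolve_right h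
    simp [hx, hy]
  exact ⟨LinearEquiv.ofInjectiveEndo f hi, hf⟩

lemma Bil.exp1 (β : Bil K) (s t : ℕ) (u v : K × K) :
    β s t u v = u.1 • β s t (1, 0) v + u.2 • β s t (0, 1) v := by
  have : u = u.1 • ((1, 0) : K × K) + u.2 • ((0, 1) : K × K) := by ext <;> simp
  conv_lhs => rw [this]
  simp only [map_add, map_smul, LinearMap.add_apply, LinearMap.smul_apply]

lemma Bil.exp2 (β : Bil K) (s t : ℕ) (u v : K × K) :
    β s t u v = v.1 • β s t u (1, 0) + v.2 • β s t u (0, 1) := by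
  have : v = v.1 • ((1, 0) : K × K) + v.2 • ((0, 1) : K × K) := by ext <;> simp
  conv_lhs => rw [this]
  simp only [map_add, map_smul]

lemma Bil.ext4 {β : Bil K} {s t : ℕ} (h1 : β s t (1, 0) (1, 0) = 0) (h2 : β s t (1, 0) (0, 1) = 0)
    (h3 : β s t (0, 1) (1, 0) = 0) (h4 : β s t (0, 1) (0, 1) = 0) : β s t = 0 := by
  refine LinearMap.ext fun u => LinearMap.ext fun v => ?_
  rw [β.exp1, β.exp2 s t (1, 0), β.exp2 s t (0, 1), h1, h2, h3, h4]
  simp

lemma BH.diag [CharZero K] {β : Bil K} (h : BH β) {s : ℕ} (hs : 1 ≤ s) (u : K × K) : β s s u u = 0 := by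
  have := h.arr.anti s s u u hs hs
  have h2 : (2 : K) • β s s u u = 0 := by linear_combination (norm := module) this
  exact (smul_eq_zero.1 h2).resolve_left two_ne_zero

/-- The product is commutative. -/
lemma BH.comm {β : Bil K} (h : BH β) (h11 : β 1 1 = 0) (u v : K × K) : β 1 2 u v = β 1 2 v u := by
  have a := h.arr.der 1 1 u v le_rfl le_rfl
  have b := h.arr.anti 1 2 v u le_rfl (by norm_num)
  rw [h11] at a
  simp only [LinearMap.zero_apply, Nat.reduceAdd] at a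
  linear_combination (norm := module) - a - b

/-- Jacobi in degree four. -/
lemma BH.four {β : Bil K} (h : BH β) (h11 : β 1 1 = 0) (u v w : K × K) :
    β 1 2 u (β 1 2 v w) - β 2 2 u (β 1 2 v w) = β 1 2 v (β 1 2 u w) - β 2 2 v (β 1 2 u w) := by
  have j := h.arr.jac 1 1 2 u v w le_rfl le_rfl (by norm_num)
  have a := fun x y => h.arr.der 1 2 x y le_rfl (by norm_num)
  rw [h11] at j
  simp only [LinearMap.zero_apply, Nat.reduceAdd, map_zero] at j a
  linear_combination (norm := module) a u (β 1 2 v w) - a v (β 1 2 u w) - j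

lemma BH.exists_abelian [CharZero K] {β : Bil K} (h : BH β) : ∃ ℓ, β.shift ℓ 1 1 = 0 := by
  set p := β 1 1 (1, 0) (0, 1) with hp
  refine ⟨p.2 • LinearMap.fst K K K - p.1 • LinearMap.snd K K K, Bil.ext4 ?_ ?_ ?_ ?_⟩
  · rw [Bil.shift_apply, h.diag le_rfl]; simp
  · rw [Bil.shift_apply, ← hp]; ext <;> simp
  · rw [Bil.shift_apply, h.arr.anti 1 1 (1, 0) (0, 1) le_rfl le_rfl, ← hp]; ext <;> simp
  · rw [Bil.shift_apply, h.diag le_rfl]; simp

lemma Bil.conj_zero {β : Bil K} {s t : ℕ} (h : β s t = 0) (e : (K × K) ≃ₗ[K] (K × K)) :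
    β.conj e s t = 0 := by
  refine LinearMap.ext fun u => LinearMap.ext fun v => ?_
  simp [Bil.conj_apply, h]

/-- The case in which the trace of `b` vanishes. -/
lemma beta_trace [CharZero K] (H1 : BIStmt) (H2 : BIIStmt) (H3 : BIIIStmt) {β : Bil K} (h : BH β)
    (h11 : β 1 1 = 0) (ht : (β 1 2 (1, 0) (0, 1)).1 + (β 1 2 (0, 1) (0, 1)).2 = 0) : False := by
  have c := h.comm h11 (0, 1) (1, 0)
  have a22 := h.arr.anti 2 2 (1, 0) (0, 1) (by norm_num) (by norm_num)
  have f1 := h.four h11 (1, 0) (0, 1) (1, 0)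
  have f2 := h.four h11 (1, 0) (0, 1) (0, 1)
  rw [β.exp2 1 2 (1, 0) (β 1 2 _ _), β.exp2 2 2 (1, 0) (β 1 2 _ _), β.exp2 1 2 (0, 1) (β 1 2 (1, 0) _),
    β.exp2 2 2 (0, 1) (β 1 2 (1, 0) _)] at f1 f2
  rw [h.diag (by norm_num : 1 ≤ 2), h.diag (by norm_num : 1 ≤ 2), a22] at f1 f2
  simp only [c] at f1 f2
  rcases hx : β 1 2 (1, 0) (1, 0) with ⟨x1, x2⟩
  rcases hy : β 1 2 (1, 0) (0, 1) with ⟨y1, y2⟩
  rcases hz : β 1 2 (0, 1) (0, 1) with ⟨z1, z2⟩
  rcases hp : β 2 2 (1, 0) (0, 1) with ⟨p1, p2⟩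
  rw [hy] at c
  simp only [hx, hy, hz, hp, Prod.ext_iff, Prod.smul_mk, smul_eq_mul, Prod.mk_add_mk, Prod.mk_sub_mk,
    smul_zero, Prod.neg_mk, zero_add, add_zero] at f1 f2 ht
  obtain ⟨e1, e2⟩ := f1
  obtain ⟨e3, e4⟩ := f2
  by_cases hz1 : z1 = 0
  · have hy1 : y1 = 0 := by grind
    have hz2 : z2 = 0 := by grind
    by_cases hτ : x1 + y2 = 0
    · have hy2 : y2 = 0 := by grind
      refine H1 K β h h11 ?_ ?_ ?_
      · rw [hx]; grind
      · rw [hy, hy1, hy2]; rfl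
      · rw [hz, hz1, hz2]; rfl
    · exact H2 K β h h11 (by rw [hz, hz1, hz2]; rfl) (by rw [hy, hy1]) (by rw [hx, hy]; exact hτ)
  · have ee : β 1 2 (z1, z2) (z1, z2) = (z1 * y2 + y1 ^ 2) • (z1, z2) := by
      rw [β.exp1, β.exp2 1 2 (1, 0), β.exp2 1 2 (0, 1), c, hx, hy, hz]
      ext <;> simp <;> grind
    have eb : β 1 2 (z1, z2) (0, 1) = (z1 * y2 + y1 ^ 2) • (0, 1) := by
      rw [β.exp1, hy, hz]
      ext <;> simp <;> grind
    by_cases hd : z1 * y2 + y1 ^ 2 = 0
    · obtain ⟨e, he⟩ := exists_basis (u := ((0, 1) : K × K)) (v := (z1, z2)) (by simpa using hz1)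
      have ha : e (1, 0) = (0, 1) := by rw [he]; simp
      have hb : e (0, 1) = (z1, z2) := by rw [he]; simp
      refine H1 K _ (h.conj e) (Bil.conj_zero h11 e) ?_ ?_ ?_
      · rw [Bil.conj_apply, ha, hz, ← hb]; simp
      · rw [Bil.conj_apply, ha, hb, h.comm h11, eb, hd]; simp
      · rw [Bil.conj_apply, hb, ee, hd]; simp
    · obtain ⟨e, he⟩ := exists_basis (u := (z1, z2)) (v := ((0, 1) : K × K)) (by simpa using hz1)
      have ha : e (1, 0) = (z1, z2) := by rw [he]; simp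
      have hb : e (0, 1) = (0, 1) := by rw [he]; simp
      refine H3 K _ _ (h.conj e) (Bil.conj_zero h11 e) hd ?_ ?_ ?_ ?_
      · rw [Bil.conj_apply, ha, ee, ← ha]; simp
      · rw [Bil.conj_apply, ha, hb, eb, LinearEquiv.symm_apply_eq, he]; simp
      · rw [Bil.conj_apply, hb, hz, ← ha]; simp
      · rw [Bil.conj_apply, ha, hb, β.exp1, hp, h.diag (by norm_num : 1 ≤ 2)]
        have hp1 : p1 = 0 := by grind
        have hp2 : p2 = 0 := by grind
        simp [hp1, hp2]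

theorem betaStmt_of (H1 : BIStmt) (H2 : BIIStmt) (H3 : BIIIStmt) : BetaStmt := by
  intro K _ _ β h1 h2 h3 h4 h5
  have h0 : BH β := ⟨h1, h2, fun s hs => h3 s (by omega), h4, h5⟩
  obtain ⟨ℓ, h11⟩ := h0.exists_abelian
  have h := h0.shift ℓ
  generalize β.shift ℓ = γ at h h11
  set τa := (γ 1 2 (1, 0) (1, 0)).1 + (γ 1 2 (1, 0) (0, 1)).2 with hτa
  set τb := (γ 1 2 (1, 0) (0, 1)).1 + (γ 1 2 (0, 1) (0, 1)).2 with hτb
  by_cases hb : τb = 0
  · exact beta_trace H1 H2 H3 h h11 hb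
  · obtain ⟨e, he⟩ := exists_basis (u := ((0, 1) : K × K)) (v := (τb, -τa)) (by simpa using hb)
    have ha : e (1, 0) = (0, 1) := by rw [he]; simp
    have hb' : e (0, 1) = (τb, -τa) := by rw [he]; simp
    have hs : ∀ v : K × K, e.symm v = (v.2 + v.1 * τa / τb, v.1 / τb) := fun v => by
      rw [LinearEquiv.symm_apply_eq, he]
      ext <;> simp <;> field_simp <;> ring
    refine beta_trace H1 H2 H3 (h.conj e) (Bil.conj_zero h11 e) ?_
    rw [Bil.conj_apply, Bil.conj_apply, ha, hb', hs, hs, γ.exp2 1 2 (0, 1) (τb, -τa), γ.exp1 1 2 (τb, -τa),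
      γ.exp2 1 2 (1, 0) (τb, -τa), γ.exp2 1 2 (0, 1) (τb, -τa), h.comm h11 (0, 1) (1, 0)]
    simp only [Prod.fst_add, Prod.snd_add, Prod.smul_fst, Prod.smul_snd, smul_eq_mul]
    field_simp
    rw [hτa, hτb]
    ring

end Pool.Agent.P78
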