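import Pool.Agent.Lib.MP_78c6b1_al.Lim.R1Defs

/-! Structure constants of graded algebras spanned by `X` (of weight two) and `E q, E (q + 1), …`
with `⁅X, E s⁆ = E (s + 2)` and `⁅E s, E t⁆ = c s t • E (s + t)`. -/

namespace Pool.Agent.P78

open Filter

variable {K : Type} [Field K]

/-- The identities satisfied by the structure constants. -/
structure Cst2 (q : ℕ) (c : ℕ → ℕ → K) : Prop where
  der : ∀ s t, q ≤ s → q ≤ t → c s t = c (s + 2) t + c s (t + 2)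
  anti : ∀ s t, q ≤ s → q ≤ t → c t s = - c s t
  jac : ∀ r s t, q ≤ r → q ≤ s → q ≤ t →
    c r s * c (r + s) t = c s t * c r (s + t) - c r t * c s (r + t)

/-- After rescaling, the constants are those of the subalgebra `e 2, e 3, …` of the Witt algebra. -/
def IsWitt4 (c : ℕ → ℕ → K) : Prop :=
  ∃ (l : K) (β : ℕ → K), l ≠ 0 ∧ (∀ s, β s ≠ 0) ∧ (∀ s, 3 ≤ s → l * β s = ((s : K) - 2) * β (s + 2)) ∧
    ∀ s t, 3 ≤ s → 3 ≤ t → β s * β t * c s t = ((t : K) - s) * β (s + t)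

/-- No second derivation commuting with `X` when no constant vanishes. -/
def P2Stmt : Prop :=
  ∀ (K : Type) [Field K] [CharZero K] (q w : ℕ) (c : ℕ → ℕ → K) (κ : ℕ → K), Cst2 q c →
    (∀ s t, q ≤ s → s < t → c s t ≠ 0) → 2 ≤ w → (∀ t, q ≤ t → κ (t + 2) = κ t) →
    (∀ s t, q ≤ s → q ≤ t → κ (s + t) * c s t = κ s * c (s + w) t + κ t * c s (t + w)) →
    κ (q + 1) = κ q ∧ (w ≠ 2 → κ q = 0)

/-- The tight case is the Witt subalgebra. -/
def Q4Stmt : Prop :=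
  ∀ (K : Type) [Field K] [CharZero K] (c : ℕ → ℕ → K), Cst2 3 c →
    (∀ s t, 3 ≤ s → s < t → c s t ≠ 0) → IsWitt4 c

/-- The slack case has an abelian odd lane. -/
def S1Stmt : Prop :=
  ∀ (K : Type) [Field K] [CharZero K] (c : ℕ → ℕ → K), Cst2 2 c → (∃ᶠ t in atTop, c 4 t ≠ 0) →
    ∀ s t, 1 ≤ s → 1 ≤ t → c (2 * s + 1) (2 * t + 1) = 0

end Pool.Agent.P78
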