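import Pool.Agent.Lib.MP_78c6b1_al.CA.EEa

/-! The adic case with two even lanes: reduction to the array statements. -/

namespace Pool.Agent.P78

open Module Submodule Filter

variable {K L : Type} [Field K] [LieRing L] [LieAlgebra K L]
  {x : L} {Ψ : ℕ → Submodule K L} {q : ℕ} {E : ℕ → K × K →ₗ[K] L} {lam : ℕ → L →ₗ[K] K × K}

/-- The linear map with the values `a`, `b` on the standard basis. -/
def pair (K : Type) {L : Type} [Field K] [LieRing L] [LieAlgebra K L] (a b : L) : K × K →ₗ[K] L :=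
  (LinearMap.toSpanSingleton K L a).coprod (LinearMap.toSpanSingleton K L b)

lemma pair_apply (a b : L) (u : K × K) : pair K a b u = u.1 • a + u.2 • b := rfl

lemma exists_pair {U W : Submodule K L} [FiniteDimensional K (L ⧸ W)] (h : W ≤ U)
    (hc : cod W = cod U + 2) : ∃ a ∈ U, ∃ b ∈ U, U ≤ LinearMap.range (pair K a b) ⊔ W := by
  obtain ⟨e, he, he'⟩ := exists_fin_span U W
  have h1 : finrank K (U.map W.mkQ) = 2 := by have := cod_eq_add h; omega
  generalize finrank K (U.map W.mkQ) = n at e he he' h1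
  subst h1
  refine ⟨e 0, he 0, e 1, he 1, he'.trans ((sup_comm _ _).le.trans (sup_le_sup_right (span_le.2 ?_) _))⟩
  rintro _ ⟨j, rfl⟩
  fin_cases j
  exacts [⟨(1, 0), by simp [pair_apply]⟩, ⟨(0, 1), by simp [pair_apply]⟩]

lemma mem_span_of_ker {κ : End K (K × K)} {l v : K × K} (h0 : κ ≠ 0) (hl : l ≠ 0) (h1 : κ l = 0)
    (h2 : κ v = 0) : v ∈ K ∙ l := by
  have a1 := finrank_lt (mt LinearMap.ker_eq_top.1 h0)
  simp only [finrank_prod, finrank_self] at a1
  rwa [eq_of_le_of_finrank_le ((span_singleton_le_iff_mem l (LinearMap.ker κ)).2 h1)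
    (by rw [finrank_span_singleton hl]; omega)]

lemma EF.chain_mem (P : EF x Ψ) (y : L) {j : ℕ} (hj : 1 ≤ j) :
    (LieAlgebra.ad K L x ^ (j - 1)) y ∈ Ψ j := by
  induction j, hj using Nat.le_induction with
  | base => exact P.one.ge trivial
  | succ j hj ih => exact chain_step (K := K) x y hj ▸ P.act x ih

lemma EF.cod_two (h : CA K x) (P : EF x Ψ) : im K x ≤ Ψ 2 ∧ cod (Ψ 2) ≤ 3 ∧
    (3 ≤ cod (Ψ 2) → Ψ 2 = (Ψ 1).map (LieAlgebra.ad K L x)) := by
  have := h.lim.fin_opn (h.opn_map (P.opn 1))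
  have h1 : cod ((Ψ 1).map (LieAlgebra.ad K L x)) = 3 := by rw [P.one, Submodule.map_top]; exact h.cod_im
  refine ⟨?_, h1 ▸ cod_anti (P.map_le 1), fun e => (eq_of_cod_le (P.map_le 1) (h1 ▸ e)).symm⟩
  rintro _ ⟨v, rfl⟩
  exact P.act x (j := 1) (P.one.ge trivial)

lemma EF.tight (h : CA K x) (P : EF x Ψ) {m : ℕ} (hm : 2 ≤ m) (hc : cod (Ψ m) + 2 ≤ 2 * m) {j : ℕ}
    (hj : m ≤ j) : cod (Ψ j) + 2 = 2 * j := le_antisymm (by
  induction j, hj using Nat.le_induction with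
  | base => exact hc
  | succ j hj ih => have := P.cod_le h (hm.trans hj); omega) (P.bud j)

lemma Fr.lie_mem (P : EF x Ψ) (G : Fr x Ψ E lam q) {k t : ℕ} (ht : q ≤ t) {y v : L} (hy : y ∈ Ψ k)
    (h : aop E lam y k t = 0) (hv : v ∈ Ψ t) : ⁅y, v⁆ ∈ Ψ (k + t + 1) := by
  have := G.right (k + t) (by omega) _ (P.lie hy hv)
  rwa [G.lam_right P ht hy hv, ← act_apply, h, LinearMap.zero_apply, map_zero, sub_zero] at this

lemma Fr.act_sub (G : Fr x Ψ E lam q) {t : ℕ} (ht : q ≤ t) (y : L) (c : K) (v : K × K) :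
    aop E lam (y - c • x) 1 t v = aop E lam y 1 t v - c • v := by
  rw [act_apply, act_apply, sub_lie, smul_lie, map_sub, map_smul, G.step t ht, add_comm 1 t,
    G.left _ (by omega)]

variable [Uncountable K]

lemma Lim.kappa_ne (h : Lim K L) {U V W : Submodule K L} (hU : Opn U) (hV : Opn V) (hW : Opn W)
    (H : ∀ u ∈ U, ∀ v ∈ V, ⁅u, v⁆ ∈ W) (hUV : cod U ≠ cod V) : cod W ≤ cod U + cod V + 2 := by
  by_cases h1 : U ≤ V
  · rw [add_comm (cod U)]
    exact h.kappa' hV hU hW (fun v hv u hu => by rw [← lie_skew]; exact neg_mem (H u hu v hv))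
      fun h2 => hUV (by rw [le_antisymm h1 h2])
  · exact h.kappa' hU hV hW H h1

lemma Fr.line (h : CA K x) (P : EF x Ψ) (G : Fr x Ψ E lam q) {k t : ℕ} (ht : q ≤ t) {y : L}
    (hy : y ∈ Ψ k) (hy' : y ∉ Ψ (k + 1)) (h0 : aop E lam y k t = 0)
    (hc : cod (Ψ (k + 1)) ≠ cod (Ψ t) + 1) : cod (Ψ (k + t + 1)) ≤ cod (Ψ (k + 1)) + cod (Ψ t) + 1 := by
  have := h.lim.fin_opn (P.opn (k + 1))
  have h1 := cod_le_sup_span (Ψ (k + 1)) y
  have h2 := cod_lt (U := Ψ (k + 1)) (V := Ψ (k + 1) ⊔ K ∙ y) (left_lt_sup.2 (by simpa using hy'))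
  have h3 := h.lim.kappa_ne ((P.opn (k + 1)).mono (le_sup_left (b := K ∙ y))) (P.opn t)
    (P.opn (k + t + 1)) (fun u hu v hv => by
      obtain ⟨w, hw, _, a1, rfl⟩ := Submodule.mem_sup.1 hu
      obtain ⟨c, rfl⟩ := mem_span_singleton.1 a1
      rw [add_lie, smul_lie]
      exact add_mem (add_right_comm k 1 t ▸ P.lie hw hv) (smul_mem _ _ (G.lie_mem P ht hy h0 hv)))
    (by omega)
  omega

variable [CharZero K]

lemma EF.alpha (HI : InvStmt) (HA : AlphaStmt) (h : CA K x) (P : EF x Ψ) (hc : cod (Ψ 2) ≤ 2) :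
    False := by
  have hf := fun s => h.lim.fin_opn (P.opn s)
  have h1 : ∀ j, 2 ≤ j → cod (Ψ j) + 2 = 2 * j := fun j => P.tight h le_rfl (by omega)
  have := fin_mono (le_sup_left : Ψ 2 ≤ Ψ 2 ⊔ K ∙ x)
  have a1 := cod_le_sup_span (Ψ 2) x
  have a2 := cod_lt (U := Ψ 2) (V := Ψ 2 ⊔ K ∙ x) (left_lt_sup.2 (by simpa using P.ne))
  have a3 := h1 2 le_rfl
  obtain ⟨a, -, ha⟩ := SetLike.not_le_iff_exists.1 fun e : ⊤ ≤ Ψ 2 ⊔ K ∙ x => by
    rw [top_unique e, cod_top] at a1; omega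
  have a4 := le_span_sup_of_cod (le_top (a := Ψ 2 ⊔ K ∙ x)) (by rw [cod_top]; omega) trivial ha
  have : FiniteDimensional K (L ⧸ im K x) :=
    h.lim.fin_opn ((h.opn_map (U := ⊤) ⟨0, le_top⟩).mono LinearMap.map_le_range)
  obtain ⟨b, hb, hb'⟩ := SetLike.not_le_iff_exists.1 fun e : Ψ 2 ≤ im K x => by
    have := cod_anti e; rw [h.cod_im] at this; omega
  have a5 := le_span_sup_of_cod (P.cod_two h).1 (by rw [h.cod_im]; omega) hb hb'
  let E := fun s => pair K ((LieAlgebra.ad K L x ^ (s - 1)) a) ((LieAlgebra.ad K L x ^ (s - 1 - 1)) b)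
  have a6 : ∀ s, 2 ≤ s → ∀ u, ⁅x, E s u⁆ = E (s + 1) u := fun s hs u => by
    simp only [E, pair_apply, lie_add, lie_smul]
    rw [chain_step x a (by omega), chain_step x b (by omega), show s - 1 + 1 = s + 1 - 1 by omega]
  obtain ⟨lam, G⟩ := P.exists_fr h (E := E) le_rfl
    (fun s hs => by have := h1 s hs; have := h1 (s + 1) (by omega); omega) a6
    (fun u => add_mem (smul_mem _ _ (P.chain_mem a one_le_two)) (smul_mem _ _ hb)) fun v hv => by
      obtain ⟨_, b1, _, ⟨w, rfl⟩, rfl⟩ := mem_sup.1 (a5.le hv)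
      obtain ⟨_, b2, _, b3, rfl⟩ := mem_sup.1 (a4.le (mem_top (x := w)))
      obtain ⟨g, hg, _, b4, rfl⟩ := mem_sup.1 b3
      obtain ⟨c, rfl⟩ := mem_span_singleton.1 b1
      obtain ⟨d, rfl⟩ := mem_span_singleton.1 b2
      obtain ⟨e, rfl⟩ := mem_span_singleton.1 b4
      exact mem_sup.2 ⟨_, ⟨(d, c), rfl⟩, _, P.act x hg, by simp [E, pair_apply]; abel⟩
  refine HA K (bil E lam) (G.arr P (fun s u hu => ?_) fun s t u v hu hv => by omega)
    (G.nal HI h P one_le_two) (fun s t hs ht l => ?_) (fun s t hs ht u hu e => ?_) fun t ht c => ?_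
  · obtain hs | ⟨rfl, hu⟩ := hu
    · exact ⟨G.mem s hs u, G.step s hs u⟩
    · exact ⟨P.one.ge trivial, by simp [E, pair_apply, hu]⟩
  · by_contra! e
    have b1 := cod_le_sup_span (Ψ (s + t + 1)) (E (s + t) l)
    have b2 := h1 s hs
    have b3 := h1 t (by omega)
    have b4 := h1 (s + t + 1) (by omega)
    have b5 := h.lim.kappa_ne (P.opn s) (P.opn t) ((P.opn (s + t + 1)).mono
      (le_sup_left (b := K ∙ E (s + t) l))) (fun u hu v hv => (sup_comm (K ∙ E (s + t) l) _).le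
        (G.mem_sup (by omega) (P.lie hu hv) (by
          rw [G.lam_left P hs hu hv, G.lam_right P (by omega) (G.mem s hs _) hv]
          exact e _ _))) (by omega)
    omega
  · have b2 := h1 (s + 1) (by omega)
    have b3 := h1 t ht
    have b4 := h1 (s + t + 1) (by omega)
    have b5 := G.line h P ht (G.mem s hs u)
      (fun e' => hu ((G.left s hs u).symm.trans (G.zero s hs _ e'))) e (by omega)
    omega
  · by_contra! e
    have b3 := h1 t ht
    have b4 := h1 (1 + t + 1) (by omega)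
    have b5 : _ ≤ cod (Ψ 2) + _ + 1 := G.line h P ht (k := 1) (y := a - c • x) (P.one.ge trivial)
      (fun e' => ha (by simpa using add_mem_sup e' (smul_mem _ c (mem_span_singleton_self x))))
      (LinearMap.ext fun v => by
        rw [G.act_sub ht, ← e v]
        simp [E, act_apply, bil_apply, pair_apply]) (by change cod (Ψ 2) ≠ _; omega)
    omega

lemma EF.beta (HI : InvStmt) (HB : BetaStmt) (h : CA K x) (P : EF x Ψ)
    (h1 : ∀ j, 2 ≤ j → cod (Ψ j) + 1 = 2 * j) : False := by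
  have hf := fun s => h.lim.fin_opn (P.opn s)
  have := fin_mono (le_sup_left : Ψ 2 ≤ Ψ 2 ⊔ K ∙ x)
  have a1 := cod_le_sup_span (Ψ 2) x
  have a2 := cod_lt (U := Ψ 2) (V := Ψ 2 ⊔ K ∙ x) (left_lt_sup.2 (by simpa using P.ne))
  have a3 := h1 2 le_rfl
  obtain ⟨a, -, b, -, a4⟩ := exists_pair (le_top (a := Ψ 2 ⊔ K ∙ x)) (by rw [cod_top]; omega)
  let E := fun s => pair K ((LieAlgebra.ad K L x ^ (s - 1)) a) ((LieAlgebra.ad K L x ^ (s - 1)) b)
  have a6 : ∀ s, 1 ≤ s → ∀ u, ⁅x, E s u⁆ = E (s + 1) u := fun s hs u => by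
    simp only [E, pair_apply, lie_add, lie_smul]
    rw [chain_step x a hs, chain_step x b hs]
  have a7 : ∀ s, 1 ≤ s → ∀ u, E s u ∈ Ψ s := fun s hs u =>
    add_mem (smul_mem _ _ (P.chain_mem a hs)) (smul_mem _ _ (P.chain_mem b hs))
  have a8 : ∀ w : L, ∃ (u : K × K) (e : K), ∃ g ∈ Ψ 2, w = E 1 u + (g + e • x) := fun w => by
    obtain ⟨_, ⟨u, rfl⟩, _, b3, rfl⟩ := mem_sup.1 (a4 (mem_top (x := w)))
    obtain ⟨g, hg, _, b4, rfl⟩ := mem_sup.1 b3
    obtain ⟨e, rfl⟩ := mem_span_singleton.1 b4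
    exact ⟨u, e, g, hg, rfl⟩
  obtain ⟨lam, G⟩ := P.exists_fr h (E := E) le_rfl
    (fun s hs => by have := h1 s hs; have := h1 (s + 1) (by omega); omega)
    (fun s hs => a6 s (by omega)) (a7 2 one_le_two) fun v hv => by
      obtain ⟨w, -, rfl⟩ := ((P.cod_two h).2.2 (by omega)).le hv
      obtain ⟨u, e, g, hg, rfl⟩ := a8 w
      exact mem_sup.2 ⟨_, ⟨u, rfl⟩, _, P.act x hg, by simp [a6 1 le_rfl]⟩
  refine HB K (bil E lam) (G.arr P (fun s u hs => ⟨a7 s hs u, a6 s hs u⟩) fun s t u v hu hv => by omega)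
    (G.nal HI h P one_le_two) (fun s hs u hu e => hu ?_) (fun s t hs ht e => ?_) fun t ht c => ?_
  · have b1 := P.act x (G.faith P (a7 s hs u) (e.mono fun _ => not_not.1))
    rw [a6 s hs] at b1
    exact (G.left _ (by omega) u).symm.trans (G.zero _ (by omega) _ b1)
  · have b2 := h1 s hs
    have b3 := h1 t (by omega)
    have b4 := h1 (s + t + 1) (by omega)
    have b5 := h.lim.kappa_ne (P.opn s) (P.opn t) (P.opn (s + t + 1)) (fun u hu v hv =>
      G.lie_mem P (by omega) hu (LinearMap.ext fun w => (G.lam_left P hs hu (G.mem t (by omega) w)).trans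
        (by rw [← bil_apply, e]; rfl)) hv) (by omega)
    omega
  · by_contra! e
    have hU := (P.opn 2).mono (le_sup_right (a := LinearMap.range (E 1 - c.smulRight x)))
    have := h.lim.fin_opn hU
    have b1 := cod_le_sup_span (LinearMap.range (E 1 - c.smulRight x) ⊔ Ψ 2) x
    rw [top_unique (a := _ ⊔ K ∙ x) fun w _ => by
      obtain ⟨u, d, g, hg, rfl⟩ := a8 w
      exact mem_sup.2 ⟨_, add_mem_sup ⟨u, rfl⟩ hg, _, smul_mem _ (c u + d) (mem_span_singleton_self x),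
        by simp [add_smul]; abel⟩, cod_top] at b1
    have b3 := h1 t ht
    have b4 := h1 (1 + t + 1) (by omega)
    have b5 := h.lim.kappa_ne hU (P.opn t) (P.opn (1 + t + 1)) (fun u hu v hv => by
      obtain ⟨_, ⟨w, rfl⟩, g, hg, rfl⟩ := mem_sup.1 hu
      rw [add_lie]
      exact add_mem (G.lie_mem P ht (P.one.ge trivial) (LinearMap.ext fun z =>
        (G.act_sub ht _ _ z).trans (sub_eq_zero.2 (e w z))) hv) (P.anti (by omega) (P.lie hg hv)))
      (by omega)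
    omega

omit [Uncountable K] in
lemma EF.gamma (HI : InvStmt) (HN : NilStmt) (h : CA K x) (P : EF x Ψ) {w : ℕ} (hw : 1 ≤ w)
    (h1 : ∀ j, 2 ≤ j → j ≤ w + 1 → cod (Ψ j) + 1 = 2 * j) (h2 : cod (Ψ (w + 2)) + 2 ≤ 2 * (w + 2)) :
    False := by
  have hf := fun s => h.lim.fin_opn (P.opn s)
  have h3 : ∀ j, w + 2 ≤ j → cod (Ψ j) + 2 = 2 * j := fun j => P.tight h (by omega) h2
  have h4 : ∀ j, 1 ≤ j → j ≤ w → Ψ (j + 1) = (Ψ j).map (LieAlgebra.ad K L x) := fun j a1 a2 => by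
    obtain rfl | a3 := a1.eq_or_lt
    · exact (P.cod_two h).2.2 (by have := h1 2 le_rfl (by omega); omega)
    · exact P.map_eq h a3 (by have := h1 j a3 (by omega); have := h1 (j + 1) (by omega) (by omega); omega)
  have h5 : ∀ s, w + 2 ≤ s → cod (Ψ (s + 1)) = cod (Ψ s) + 2 := fun s hs => by
    have := h3 s hs; have := h3 (s + 1) (by omega); omega
  have h6 : ∀ s, w + 1 ≤ s → ∀ v ∈ Ψ s, ⁅x, v⁆ ∈ Ψ (s + 2) → v ∈ Ψ (s + 1) := fun s hs v =>
    P.inj h (by omega) (P.map_eq h (by omega) (h5 _ (by omega)).ge)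
  have a1 := h1 (w + 1) (by omega) le_rfl
  have a2 := h3 (w + 2) le_rfl
  obtain ⟨g, hg, hg'⟩ := SetLike.not_le_iff_exists.1
    fun e : Ψ (w + 2) ≤ (Ψ (w + 1)).map (LieAlgebra.ad K L x) => by
      have := cod_anti e; rw [P.cod_map h (by omega)] at this; omega
  obtain ⟨z, hz, rfl⟩ := (h4 w hw le_rfl).le (P.anti (by omega) hg)
  have h7 : ∀ c : K, z - c • x ∉ Ψ (w + 1) := fun c e => hg' ⟨_, e, by simp⟩
  obtain ⟨a, ha, b, hb, hab⟩ := exists_pair (P.anti (Nat.le_add_right (w + 2) 1)) (h5 _ le_rfl)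
  obtain ⟨lam, G⟩ := P.exists_fr h (q := w + 2)
    (E := fun s => (LieAlgebra.ad K L x ^ (s - (w + 2))) ∘ₗ pair K a b) (by omega) h5
    (fun s hs u => by rw [show s + 1 - (w + 2) = s - (w + 2) + 1 by omega, pow_succ']; rfl)
    (fun u => by simpa [pair_apply] using add_mem (smul_mem _ _ ha) (smul_mem _ _ hb))
    (by simpa [End.one_eq_id] using hab)
  generalize (fun s => (LieAlgebra.ad K L x ^ (s - (w + 2))) ∘ₗ pair K a b) = E at G
  have h8 : ∀ {y}, y ∈ Ψ w → ⁅x, y⁆ ∈ Ψ (w + 2) → (∀ t, w + 2 ≤ t → aop E lam y w t = aop E lam y w (w + 2))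
      ∧ IsDer (bil E lam) (w + 2) w fun _ => aop E lam y w (w + 2) := fun {y} hy hy' => by
    have b1 : ∀ t, w + 2 ≤ t → aop E lam y w t = aop E lam y w (w + 2) := fun t ht => by
      induction t, ht using Nat.le_induction with
      | base => rfl
      | succ t ht ih => rw [← ih, ← sub_eq_zero.1 ((G.act_x P ht hy).symm.trans (G.act_zero P ht hy'))]
    refine ⟨b1, fun s t u v hs ht => ?_⟩
    have := G.isDer P hy s t u v hs ht
    rwa [b1 s hs, b1 t ht, b1 _ (by omega)] at this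
  have h9 := fun κ => HN K (w + 2) _ κ (G.arr_tail P) (G.faith' P) (G.nal HI h P (by omega))
  have h10 : ∀ {y}, y ∈ Ψ w → ⁅x, y⁆ ∈ Ψ (w + 2) → aop E lam y w (w + 2) = 0 → y ∈ Ψ (w + 1) :=
    fun hy hy' e => G.faith P hy ((eventually_ge_atTop _).mono fun t ht => ((h8 hy hy').1 t ht).trans e)
  obtain rfl | hw := hw.eq_or_lt
  · obtain ⟨_, b1, b2⟩ := SetLike.not_le_iff_exists.1 fun e : Ψ 2 ≤ Ψ 3 => by
      have := cod_anti e; norm_num at a1 a2; omega
    obtain ⟨f, -, rfl⟩ := (h4 1 le_rfl le_rfl).le b1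
    set F := fun s => (LieAlgebra.ad K L x ^ (s - 1)) f
    have f1 : ∀ s, 1 ≤ s → ⁅x, F s⁆ = F (s + 1) := fun s => chain_step x f
    have f2 : ∀ s, 1 ≤ s → F s ∈ Ψ s := fun s => P.chain_mem f
    have f3 : ∀ s, 2 ≤ s → F s ∉ Ψ (s + 1) := fun s hs => by
      induction s, hs using Nat.le_induction with
      | base => exact f1 1 le_rfl ▸ b2
      | succ s hs ih => exact f1 s (by omega) ▸ mt (h6 s hs _ (f2 s (by omega))) ih
    obtain ⟨c, hc⟩ := exists_coeff (le_span_sup_of_cod (P.anti (Nat.le_add_right 2 1))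
      (by norm_num at a1 a2 ⊢; omega) b1 b2).le b1 b2 (P.act z (f2 1 le_rfl))
    have z1 : z - c • x ∈ Ψ 1 := P.one.ge trivial
    have z2 : ⁅x, z - c • x⁆ ∈ Ψ 3 := by simpa using hg
    have z3 : ∀ s, 1 ≤ s → ⁅z - c • x, F s⁆ ∈ Ψ (s + 2) := fun s hs => by
      induction s, hs using Nat.le_induction with
      | base => rw [sub_lie, smul_lie]; exact hc
      | succ s hs ih =>
        have := sub_mem (P.act x ih) (P.anti (by omega) (P.lie z2 (f2 s hs)))
        rwa [leibniz_lie, add_sub_cancel_left, f1 s hs] at this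
    have f4 : ∀ s, 3 ≤ s → lam s (F s) = lam 3 (F 3) := fun s hs => by
      induction s, hs using Nat.le_induction with
      | base => rfl
      | succ s hs ih => rw [← f1 s (by omega), G.lam_x P hs (f2 s (by omega)), ih]
    have f5 : lam 3 (F 3) ≠ 0 := fun e => f3 3 (by omega) (by
      simpa [e] using G.right 3 le_rfl _ (f2 3 (by omega)))
    have z4 : ∀ s, 3 ≤ s → ∀ v ∈ Ψ s, ⁅z - c • x, v⁆ ∈ Ψ (s + 2) →
        aop E lam (z - c • x) 1 3 (lam s v) = 0 := fun s hs v hv e => by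
      rw [← (h8 z1 z2).1 s hs, act_apply, ← G.lam_right P hs z1 hv]
      exact G.zero _ (by omega) _ (P.anti (by omega) e)
    have z5 := z4 3 le_rfl _ (f2 3 (by omega)) (z3 3 (by omega))
    have z6 := mt (h10 z1 z2) (h7 c)
    obtain ⟨c', c1, c2, c3, c4⟩ := exists_cst_gen (U := Ψ) (W := fun i => Ψ (i + 1)) (q := 1) (d := 1)
      (fun {i j _ _} ha hb => P.lie (j := j + 1) ha hb) (P.one.ge trivial) f2 f1 f3 fun s t hs ht => by
        by_cases e : s + t = 2
        · obtain ⟨rfl, rfl⟩ : s = 1 ∧ t = 1 := by omega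
          exact ⟨0, by simp⟩
        have b3 := P.lie (f2 s hs) (f2 t ht)
        obtain ⟨d, hd⟩ := mem_span_singleton.1 (mem_span_of_ker z6 f5 z5 (z4 (s + t) (by omega) _ b3 (by
          rw [leibniz_lie]
          exact add_mem (P.anti (by omega) (P.lie (z3 s hs) (f2 t ht)))
            (P.anti (by omega) (P.lie (f2 s hs) (z3 t ht))))))
        have b4 := sub_mem b3 (smul_mem _ d (f2 (s + t) (by omega)))
        exact ⟨d, by simpa [f4 (s + t) (by omega), hd] using G.right (s + t) (by omega) _ b4⟩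
    have c5 := (Cst.one_eq ⟨c1, c2, c3⟩ (q1Stmt K c' ⟨c1, c2, c3⟩)).2
    refine z6 ((h9 _).2.1 _ f5 (h8 z1 z2).2 z5 fun s t hs ht => ?_)
    rw [bil_apply, ← f4 s hs, ← G.lam_left P hs (f2 s (by omega)) (G.mem t ht _), f4 s hs, ← f4 t ht,
      ← G.lam_right P ht (f2 s (by omega)) (f2 t (by omega))]
    exact G.zero _ (by omega) _ (by simpa [c5 s t (by omega) (by omega)] using c4 s t (by omega) (by omega))
  · obtain ⟨k, rfl⟩ : ∃ k, w = k + 2 := ⟨w - 2, by omega⟩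
    obtain ⟨y, hy, rfl⟩ := (h4 (k + 1) (by omega) (by omega)).le hz
    change ⁅x, ⁅x, y⁆⁆ ∈ _ at hg
    change ⁅x, y⁆ ∈ _ at hz
    have b1 := (h8 hz hg).1
    have b2 : ∀ j : ℕ, aop E lam y (k + 1) (k + 2 + 2 + j) = aop E lam y (k + 1) (k + 2 + 2) -
        (j : K) • aop E lam ⁅x, y⁆ (k + 2) (k + 2 + 2) := fun j => by
      induction j with
      | zero => simp
      | succ j ih =>
        rw [Nat.cast_succ, add_smul, one_smul, ← sub_sub, ← ih, ← b1 (k + 2 + 2 + j) (by omega),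
          G.act_x P (by omega) hy, sub_sub_cancel, add_assoc _ j]
    have b3 : ⁅y, ⁅x, y⁆⁆ ∈ Ψ (k + 1 + (k + 2) + 1) := h6 _ (by omega) _ (P.lie hy hz) (by
      rw [leibniz_lie, lie_self, zero_add]
      exact P.anti (by omega) (P.lie hy hg))
    refine h7 0 ((sub_mem_iff_left _ (by simp)).2 (h10 hz hg ((h9 _).1 _ (h8 hz hg).2 ((h9 _).2.2 (k + 2)
      (aop E lam y (k + 1) (k + 2 + 2)) (by omega) (LinearMap.ext fun v => ?_)))))
    have b4 := LinearMap.congr_fun (G.act_zero P le_rfl b3) v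
    have b5 := G.lam_right P (show k + 2 + 2 ≤ k + 2 + (k + 2 + 2) by omega) hy
      (P.lie hz (G.mem _ le_rfl v))
    have b6 := G.lam_right P (show k + 2 + 2 ≤ k + 1 + (k + 2 + 2) by omega) hz
      (P.lie hy (G.mem _ le_rfl v))
    rw [← act_apply, ← act_apply, add_comm (k + 2) (k + 2 + 2), b2] at b5
    rw [← act_apply, ← act_apply, b1 _ (by omega)] at b6
    rw [act_apply, lie_lie, map_sub, add_assoc, add_comm (k + 2) (k + 2 + 2), b5,
      show k + 1 + (k + 2 + 2 + (k + 2)) = k + 2 + (k + 1 + (k + 2 + 2)) by omega, b6] at b4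
    simpa [sub_right_comm, sub_eq_zero] using b4

theorem eeStmt_of (HI : InvStmt) (HN : NilStmt) (HA : AlphaStmt) (HB : BetaStmt) : EEStmt := by
  classical
  intro K L _ _ _ _ _ x Φ q h _ P he
  have Q := P.ef he
  generalize (fun k => Φ (2 * k)) = Ψ at Q
  by_cases h1 : cod (Ψ 2) ≤ 2
  · exact Q.alpha HI HA h h1
  by_cases h2 : ∃ j, 2 ≤ j ∧ cod (Ψ j) + 1 ≠ 2 * j
  · obtain ⟨h3, h4⟩ := Nat.find_spec h2
    have h5 := fun m => Nat.find_min h2 (m := m)
    generalize Nat.find h2 = n at h3 h4 h5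
    have h6 := (Q.cod_two h).2.1
    obtain ⟨w, rfl⟩ := Nat.exists_eq_add_of_le' h3
    have h7 : ∀ j, 2 ≤ j → j ≤ w + 1 → cod (Ψ j) + 1 = 2 * j := fun j a1 a2 =>
      not_not.1 fun e => h5 j (by omega) ⟨a1, e⟩
    have hw : 1 ≤ w := Nat.pos_of_ne_zero (by rintro rfl; norm_num at h4; omega)
    have h8 : cod (Ψ (w + 2)) ≤ _ := Q.cod_le h (s := w + 1) (by omega)
    have h9 := h7 (w + 1) (by omega) le_rfl
    exact Q.gamma HI HN h hw h7 (by omega)
  · exact Q.beta HI HB h fun j hj => not_not.1 fun e => h2 ⟨j, hj, e⟩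

end Pool.Agent.P78
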