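import Pool.Agent.Lib.MP_78c6b1_al.CA.EEDefs

/-! An abelian ideal lane is invariant under every chain of derivations that ends in the tail. -/

namespace Pool.Agent.P78

open Filter

namespace Inv

variable {K : Type} [Field K]

theorem frame {l : K × K} (hl : l ≠ 0) : ∃ (m : K × K) (φ ψ : (K × K) →ₗ[K] K),
    φ l = 0 ∧ ∀ v, v = ψ v • l + φ v • m := by
  by_cases h : l.1 = 0
  · have h2 : l.2 ≠ 0 := fun h2 => hl (Prod.ext h h2)
    refine ⟨(1, 0), LinearMap.fst K K K, l.2⁻¹ • LinearMap.snd K K K, by simpa using h,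
      fun v => Prod.ext (by simp [h]) (by simp; field_simp)⟩
  · refine ⟨(0, 1), LinearMap.snd K K K - (l.2 * l.1⁻¹) • LinearMap.fst K K K,
      l.1⁻¹ • LinearMap.fst K K K, by simp [h],
      fun v => Prod.ext (by simp; field_simp) ?_⟩
    simp only [LinearMap.smul_apply, LinearMap.fst_apply, smul_eq_mul, LinearMap.sub_apply,
      LinearMap.snd_apply, Prod.snd_add, Prod.smul_snd]
    ring

theorem step [CharZero K] {q Q k : ℕ} {β : Bil K} {l m : K × K} {φ ψ : (K × K) →ₗ[K] K}
    {ρ : ℕ → Module.End K (K × K)} (hA : Arr (fun s _ => q ≤ s) β) (hF : Faith β q) (hl : l ≠ 0)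
    (h4 : ∀ v, v = ψ v • l + φ v • m) (hq : q ≤ Q)
    (hL : ∀ s t, Q ≤ s → Q ≤ t → (∀ u, φ (β s t u l) = 0) ∧ β s t l l = 0)
    (hD : IsDer β q k ρ) {c : K} (hc : ∀ t, Q ≤ t → φ (ρ t l) = c) : c = 0 := by
  by_contra hc0
  have anti : ∀ s t u v, Q ≤ s → Q ≤ t → β t s v u = -β s t u v := fun s t u v hs ht =>
    hA.anti s t u v (hq.trans hs) (hq.trans ht)
  have hl' : ∀ s t v, Q ≤ s → Q ≤ t → φ (β s t l v) = 0 := fun s t v hs ht => by
    rw [anti t s v l ht hs, map_neg, (hL t s ht hs).1, neg_zero]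
  have hr : ∀ s t, Q ≤ s → Q ≤ t → β s t l m = ψ (β s t l m) • l := fun s t hs ht => by
    conv_lhs => rw [h4 (β s t l m), hl' s t m hs ht, zero_smul, add_zero]
  have hρ : ∀ t, Q ≤ t → ρ t l = ψ (ρ t l) • l + c • m := fun t ht => by
    conv_lhs => rw [h4 (ρ t l), hc t ht]
  have e1 : ∀ s t, Q ≤ s → Q ≤ t → ψ (β s (k + t) l m) = ψ (β t (k + s) l m) := by
    intro s t hs ht
    have h := hD s t l l (hq.trans hs) (hq.trans ht)
    rw [(hL s t hs ht).2, map_zero, hρ s hs, hρ t ht] at h
    simp only [map_add, map_smul, LinearMap.add_apply, LinearMap.smul_apply] at h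
    rw [(hL (k + s) t (by omega) ht).2, (hL s (k + t) hs (by omega)).2,
      anti t (k + s) l m ht (by omega)] at h
    have h' := congrArg ψ h
    simp only [smul_zero, zero_add, map_zero, map_add, map_smul, map_neg, smul_eq_mul] at h'
    apply mul_left_cancel₀ hc0
    linear_combination -h'
  have e2 : ∀ s t, Q ≤ s → Q ≤ t → ψ (β s t l m) = φ (β (k + s) t m m) := by
    intro s t hs ht
    have h := congrArg φ (hD s t l m (hq.trans hs) (hq.trans ht))
    rw [hr s t hs ht, hρ s hs] at h
    simp only [map_add, map_smul, LinearMap.add_apply, LinearMap.smul_apply, smul_eq_mul] at h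
    rw [hc (s + t) (by omega), hl' (k + s) t m (by omega) ht, hl' s (k + t) _ hs (by omega)] at h
    apply mul_left_cancel₀ hc0
    linear_combination h
  have e3 : ∀ t, Q ≤ t → β Q (k + t) l = 0 := by
    intro t ht
    have a1 := e1 Q t le_rfl ht
    have a2 := e2 Q (k + t) le_rfl (by omega)
    have a3 := e2 t (k + Q) ht (by omega)
    have a4 := congrArg φ (anti (k + Q) (k + t) m m (by omega) (by omega))
    rw [map_neg] at a4
    have a5 : ψ (β Q (k + t) l m) = 0 := by
      have : (2 : K) * ψ (β Q (k + t) l m) = 0 := by linear_combination a1 + a2 + a3 + a4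
      simpa using this
    refine LinearMap.ext fun v => ?_
    rw [h4 v, map_add, map_smul, map_smul, (hL Q (k + t) le_rfl (by omega)).2,
      hr Q (k + t) le_rfl (by omega), a5]
    simp
  obtain ⟨t, ht, ht'⟩ := frequently_atTop.1 (hF Q hq l hl) (k + Q)
  obtain ⟨d, rfl⟩ : ∃ d, t = k + d := ⟨t - k, by omega⟩
  exact ht' (e3 d (by omega))

end Inv

theorem invStmt : InvStmt := by
  intro K _ _ q β l u₀ ρ hq hA hF ⟨hl, Q₀, hL⟩ hD hρ h0
  obtain ⟨m, φ, ψ, h1, h4⟩ := Inv.frame hl
  have hmem : ∀ v, v ∈ K ∙ l ↔ φ v = 0 := fun v => by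
    refine ⟨fun h => ?_, fun h => ?_⟩
    · obtain ⟨a, rfl⟩ := Submodule.mem_span_singleton.1 h
      rw [map_smul, h1, smul_zero]
    · exact Submodule.mem_span_singleton.2 ⟨ψ v, by
        conv_rhs => rw [h4 v, h, zero_smul, add_zero]⟩
  have hA' : ∀ j, q ≤ j → ∀ t, q ≤ t → ρ j t = β j t u₀ := by
    intro j hj
    induction j, hj using Nat.le_induction with
    | base => exact h0
    | succ j hj ih =>
      intro t ht
      rw [hρ j t (hq.trans hj) ht, ih t ht, ih (t + 1) (by omega)]
      refine LinearMap.ext fun v => ?_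
      rw [LinearMap.sub_apply, hA.der j t u₀ v hj ht]
      simp
  have key : ∀ k, 1 ≤ k → (∀ᶠ t in atTop, φ (ρ (k + 1) t l) = 0) →
      ∀ᶠ t in atTop, φ (ρ k t l) = 0 := by
    intro k hk h
    obtain ⟨T, hT⟩ := eventually_atTop.1 h
    have hc : ∀ t, max (max q Q₀) T ≤ t → φ (ρ k t l) = φ (ρ k (max (max q Q₀) T) l) := by
      intro t ht
      induction t, ht using Nat.le_induction with
      | base => rfl
      | succ t ht ih =>
        have := hT t (by omega)
        rw [hρ k t hk (by omega), LinearMap.sub_apply, map_sub] at this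
        rw [← ih]
        linear_combination -this
    have := Inv.step (Q := max (max q Q₀) T) hA hF hl h4 (by omega)
      (fun s t hs ht => ⟨fun u => (hmem _).1 ((hL s t (by omega) (by omega)).1 u),
        (hL s t (by omega) (by omega)).2⟩) (hD k hk) hc
    exact eventually_atTop.2 ⟨_, fun t ht => (hc t ht).trans this⟩
  have down : ∀ d k, 1 ≤ k → k + d = max q Q₀ → ∀ᶠ t in atTop, φ (ρ k t l) = 0 := by
    intro d
    induction d with
    | zero =>
      intro k _ hk
      refine eventually_atTop.2 ⟨max q Q₀, fun t ht => ?_⟩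
      rw [hA' k (by omega) t (by omega)]
      exact (hmem _).1 ((hL k t (by omega) (by omega)).1 u₀)
    | succ d ih => exact fun k hk h => key k hk (ih (k + 1) (by omega) (by omega))
  exact (down (max q Q₀ - 1) 1 le_rfl (by omega)).mono fun t ht => (hmem _).2 ht

end Pool.Agent.P78
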