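import Pool.Agent.Lib.MP_78c6b1_al.CA.EEDefs

/-! Constant derivations of a graded algebra with two lanes. -/

namespace Pool.Agent.P78

open Filter

namespace Nil

variable {K : Type} [Field K]

theorem span2 {l m : K × K} (hl : l ≠ 0) (hm : ∀ c : K, m ≠ c • l) (v : K × K) :
    ∃ a b : K, v = a • l + b • m := by
  have hD : l.1 * m.2 - l.2 * m.1 ≠ 0 := by
    intro hD
    by_cases h1 : l.1 = 0
    · have h2 : l.2 ≠ 0 := fun h2 => hl (Prod.ext h1 h2)
      have h3 : m.1 = 0 := by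
        rw [h1, zero_mul, zero_sub, neg_eq_zero] at hD
        exact (mul_eq_zero.1 hD).resolve_left h2
      refine hm (m.2 / l.2) (Prod.ext ?_ ?_)
      · simp [h1, h3]
      · simp [h2]
    · refine hm (m.1 / l.1) (Prod.ext ?_ ?_)
      · simp [h1]
      · simp only [Prod.smul_snd, smul_eq_mul]
        field_simp
        linear_combination hD
  have hi := mul_inv_cancel₀ hD
  refine ⟨(v.1 * m.2 - v.2 * m.1) * (l.1 * m.2 - l.2 * m.1)⁻¹,
    (l.1 * v.2 - l.2 * v.1) * (l.1 * m.2 - l.2 * m.1)⁻¹, Prod.ext ?_ ?_⟩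
  · simp only [Prod.fst_add, Prod.smul_fst, smul_eq_mul]
    linear_combination -v.1 * hi
  · simp only [Prod.snd_add, Prod.smul_snd, smul_eq_mul]
    linear_combination -v.2 * hi

theorem notMul {κ : Module.End K (K × K)} {l m : K × K} (hl : κ l = 0) (hm : κ m ≠ 0) (c : K) :
    m ≠ c • l := by
  rintro rfl
  exact hm (by rw [map_smul, hl, smul_zero])

theorem exists_ne {κ : Module.End K (K × K)} (h : κ ≠ 0) : ∃ m, κ m ≠ 0 := by
  by_contra h1
  exact h (LinearMap.ext fun m => by_contra fun h2 => h1 ⟨m, h2⟩)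

theorem one [CharZero K] {q w : ℕ} {β : Bil K} {κ : Module.End K (K × K)}
    (hL : ∀ l, ¬ Lane β l) (hd : IsDer β q w fun _ => κ) (h2 : κ * κ = 0) : κ = 0 := by
  by_contra h0
  obtain ⟨m, hm⟩ := exists_ne h0
  have hk : ∀ v, κ (κ v) = 0 := fun v => congrArg (fun f : Module.End K (K × K) => f v) h2
  have hker : ∀ v, κ v = 0 → ∃ c : K, c • κ m = v := by
    intro v hv
    obtain ⟨a, b, rfl⟩ := span2 hm (notMul (hk m) hm) v
    rw [map_add, map_smul, map_smul, hk, smul_zero, zero_add] at hv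
    have hb : b = 0 := (smul_eq_zero.1 hv).resolve_right hm
    exact ⟨a, by rw [hb, zero_smul, add_zero]⟩
  have hll : ∀ s t, q + w ≤ s → q + w ≤ t → β s t (κ m) (κ m) = 0 := by
    intro s t hs ht
    obtain ⟨s, rfl⟩ : ∃ s', s = w + s' := ⟨s - w, by omega⟩
    obtain ⟨t, rfl⟩ : ∃ t', t = w + t' := ⟨t - w, by omega⟩
    have e1 := hd s t m m (by omega) (by omega)
    have e2 := hd (w + s) t (κ m) m (by omega) (by omega)
    have e3 := hd s (w + t) m (κ m) (by omega) (by omega)
    have e4 := hk (β s t m m)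
    simp only [hk, map_zero, LinearMap.zero_apply, zero_add, add_zero] at e1 e2 e3
    rw [e1, map_add, e2, e3, ← two_smul K] at e4
    exact (smul_eq_zero.1 e4).resolve_left two_ne_zero
  refine hL (κ m) ⟨hm, q + w, fun s t hs ht => ⟨fun u => ?_, hll s t hs ht⟩⟩
  refine Submodule.mem_span_singleton.2 (hker _ ?_)
  have e1 := hd s t u (κ m) (by omega) (by omega)
  obtain ⟨c, hc⟩ := hker (κ u) (hk u)
  simp only [hk, map_zero, add_zero] at e1
  rw [e1, ← hc, map_smul, LinearMap.smul_apply, hll (w + s) t (by omega) ht, smul_zero]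

theorem two [CharZero K] {q : ℕ} {β : Bil K} {κ : Module.End K (K × K)}
    (hA : Arr (fun s _ => q ≤ s) β) (hF : Faith β q) (hL : ∀ l, ¬ Lane β l) {l : K × K}
    (hl : l ≠ 0) (hd : IsDer β q 1 fun _ => κ) (hk : κ l = 0)
    (hll : ∀ s t, q ≤ s → q ≤ t → β s t l l = 0) : κ = 0 := by
  by_contra h0
  have h2 : κ * κ ≠ 0 := fun h => h0 (one hL hd h)
  obtain ⟨m, hm⟩ := exists_ne h0
  have hb := span2 hl (notMul hk hm)
  obtain ⟨a, μ, hμ⟩ := hb (κ m)
  have hkk : ∀ v, κ (κ v) = μ • κ v := by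
    intro v
    obtain ⟨c, d, rfl⟩ := hb v
    have e : κ (κ m) = μ • κ m := by
      conv_lhs => rw [hμ]
      rw [map_add, map_smul, map_smul, hk, smul_zero, zero_add]
    rw [map_add, map_smul, map_smul, hk, smul_zero, zero_add, map_smul, e, smul_comm]
  have hμ0 : μ ≠ 0 := by
    intro h
    refine h2 (LinearMap.ext fun v => ?_)
    have := hkk v
    rw [h, zero_smul] at this
    exact this
  have hm' : κ (κ m) ≠ 0 := by
    rw [hkk]
    exact smul_ne_zero hμ0 hm
  have step : ∀ s t, q ≤ s → q ≤ t → κ (β s t l (κ m)) = μ • β s (t + 1) l (κ m) := by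
    intro s t hs ht
    have e := hd s t l (κ m) hs ht
    simp only [hk, map_zero, LinearMap.zero_apply, zero_add] at e
    rw [e, hkk, map_smul, add_comm 1 t]
  have key : ∀ t, q + 1 ≤ t → β (q + 1) t l = 0 := by
    intro t ht
    obtain ⟨t, rfl⟩ : ∃ t', t = t' + 1 := ⟨t - 1, by omega⟩
    have e1 := step q t le_rfl (by omega)
    have e2 := step q (t + 1) le_rfl (by omega)
    have e3 := hkk (β q t l (κ m))
    rw [e1, map_smul, e2] at e3
    have e4 : β q (t + 1 + 1) l (κ m) = β q (t + 1) l (κ m) :=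
      smul_right_injective _ hμ0 (smul_right_injective _ hμ0 e3)
    have e5 := hA.der q (t + 1) l (κ m) le_rfl (show q ≤ t + 1 by omega)
    rw [e4] at e5
    have e6 : β (q + 1) (t + 1) l (κ m) = 0 := by
      have := e5.symm
      rwa [add_eq_right] at this
    refine LinearMap.ext fun v => ?_
    obtain ⟨c, d, rfl⟩ := span2 hl (notMul hk hm') v
    rw [map_add, map_smul, map_smul, e6, hll (q + 1) (t + 1) (by omega) (by omega), smul_zero,
      smul_zero, add_zero, LinearMap.zero_apply]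
  obtain ⟨t, h1, h3⟩ := ((hF (q + 1) (by omega) l hl).and_eventually
    (eventually_ge_atTop (q + 1))).exists
  exact h1 (key t h3)

theorem apply_eq (f : Module.End K (K × K)) (x y : K) :
    f (x, y) = (x * (f (1, 0)).1 + y * (f (0, 1)).1, x * (f (1, 0)).2 + y * (f (0, 1)).2) := by
  have e : ((x, y) : K × K) = x • ((1, 0) : K × K) + y • ((0, 1) : K × K) := by simp
  rw [e, map_add, map_smul, map_smul]
  rfl

theorem three [CharZero K] {κ A : Module.End K (K × K)} {w : ℕ} (hw : w ≠ 0)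
    (h : A * κ - κ * A = (w : K) • (κ * κ)) : κ * κ = 0 := by
  have hw' : (w : K) ≠ 0 := Nat.cast_ne_zero.2 hw
  obtain ⟨a, c, hac⟩ : ∃ a c, κ (1, 0) = (a, c) := ⟨_, _, rfl⟩
  obtain ⟨b, d, hbd⟩ : ∃ b d, κ (0, 1) = (b, d) := ⟨_, _, rfl⟩
  obtain ⟨p, r, hpr⟩ : ∃ p r, A (1, 0) = (p, r) := ⟨_, _, rfl⟩
  obtain ⟨q, s, hqs⟩ : ∃ q s, A (0, 1) = (q, s) := ⟨_, _, rfl⟩
  have hκ : ∀ x y, κ (x, y) = (x * a + y * b, x * c + y * d) := fun x y => by
    rw [apply_eq, hac, hbd]
  have hA : ∀ x y, A (x, y) = (x * p + y * q, x * r + y * s) := fun x y => by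
    rw [apply_eq, hpr, hqs]
  have e : ∀ v, A (κ v) - κ (A v) = (w : K) • κ (κ v) := fun v =>
    congrArg (fun f : Module.End K (K × K) => f v) h
  have e1 := e (1, 0)
  have e2 := e (0, 1)
  rw [hac, hpr, hA, hκ, hκ] at e1
  rw [hbd, hqs, hA, hκ, hκ] at e2
  have e11 := congrArg Prod.fst e1
  have e21 := congrArg Prod.snd e1
  have e12 := congrArg Prod.fst e2
  have e22 := congrArg Prod.snd e2
  simp only [Prod.fst_sub, Prod.snd_sub, Prod.smul_fst, Prod.smul_snd, smul_eq_mul]
    at e11 e21 e12 e22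
  have t2 : (a + d) ^ 2 - 2 * (a * d - b * c) = 0 :=
    mul_left_cancel₀ hw' (by linear_combination -e11 - e22)
  have t3 : (a + d) ^ 3 - 3 * (a + d) * (a * d - b * c) = 0 :=
    mul_left_cancel₀ hw' (by linear_combination -a * e11 - b * e21 - c * e12 - d * e22)
  have hT : a + d = 0 := pow_eq_zero_iff (n := 3) (by norm_num) |>.1
    (by linear_combination 3 * (a + d) * t2 - 2 * t3)
  have hD : a * d - b * c = 0 :=
    mul_left_cancel₀ (two_ne_zero (α := K)) (by linear_combination (a + d) * hT - t2)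
  refine LinearMap.ext fun v => ?_
  obtain ⟨x, y⟩ := v
  show κ (κ (x, y)) = 0
  rw [hκ, hκ]
  refine Prod.ext ?_ ?_
  · show (x * a + y * b) * a + (x * c + y * d) * b = 0
    linear_combination (x * a + y * b) * hT - x * hD
  · show (x * a + y * b) * c + (x * c + y * d) * d = 0
    linear_combination (x * c + y * d) * hT - y * hD

end Nil

theorem nilStmt : NilStmt := by
  intro K _ _ q β κ hA hF hL
  exact ⟨fun _ hd h2 => Nil.one hL hd h2, fun _ hl hd hk hll => Nil.two hA hF hL hl hd hk hll,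
    fun _ _ hw h => Nil.three hw h⟩

end Pool.Agent.P78
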