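import Pool.Agent.Lib.MP_78c6b1_al.CA.OE
import Pool.Agent.Lib.MP_78c6b1_al.CA.EEb
import Pool.Agent.Lib.MP_78c6b1_al.CA.Inv
import Pool.Agent.Lib.MP_78c6b1_al.CA.Nil

/-! The classification statement from the three remaining blocks. -/

namespace Pool.Agent.P78

theorem eeStmt_of_AB (HA : AlphaStmt) (HB : BetaStmt) : EEStmt :=
  eeStmt_of invStmt nilStmt HA HB

theorem classStmt_of_UAB (HU : U1Stmt) (HA : AlphaStmt) (HB : BetaStmt) : ClassStmt :=
  classStmt_of_U1_EE HU (eeStmt_of_AB HA HB)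

end Pool.Agent.P78
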