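import Pool.Agent.Lib.MP_78c6b1_al.CA.Defs

/-! Graded algebras with two lanes.  Every layer is identified with `K × K` by `ad X`, and
`β s t u v` is the bracket of `u` in degree `s` with `v` in degree `t`.  The predicate `I s u`
says that `u` exists in degree `s`. -/

namespace Pool.Agent.P78

open Filter

/-- Arrays of bilinear maps. -/
abbrev Bil (K : Type) [Field K] := ℕ → ℕ → (K × K) →ₗ[K] (K × K) →ₗ[K] (K × K)

variable {K : Type} [Field K]

/-- The identities satisfied by the brackets. -/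
structure Arr (I : ℕ → K × K → Prop) (β : Bil K) : Prop where
  der : ∀ s t u v, I s u → I t v → β s t u v = β (s + 1) t u v + β s (t + 1) u v
  anti : ∀ s t u v, I s u → I t v → β t s v u = - β s t u v
  jac : ∀ r s t u v w, I r u → I s v → I t w →
    β (r + s) t (β r s u v) w = β r (s + t) u (β s t v w) - β s (r + t) v (β r t u w)

/-- Every nonzero element of degree at least `q` acts nontrivially in infinitely many degrees. -/
def Faith (β : Bil K) (q : ℕ) : Prop := ∀ s, q ≤ s → ∀ u, u ≠ 0 → ∃ᶠ t in atTop, β s t u ≠ 0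

/-- `l` spans an abelian ideal of the deep tail. -/
def Lane (β : Bil K) (l : K × K) : Prop :=
  l ≠ 0 ∧ ∃ q, ∀ s t, q ≤ s → q ≤ t → (∀ u, β s t u l ∈ K ∙ l) ∧ β s t l l = 0

/-- `ρ` is a derivation of degree `k` of the tail. -/
def IsDer (β : Bil K) (q k : ℕ) (ρ : ℕ → Module.End K (K × K)) : Prop :=
  ∀ s t u v, q ≤ s → q ≤ t → ρ (s + t) (β s t u v) = β (k + s) t (ρ s u) v + β s (k + t) u (ρ t v)

/-- An abelian ideal lane is invariant under every chain of derivations that ends in the tail. -/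
def InvStmt : Prop :=
  ∀ (K : Type) [Field K] [CharZero K] (q : ℕ) (β : Bil K) (l u₀ : K × K)
    (ρ : ℕ → ℕ → Module.End K (K × K)), 1 ≤ q → Arr (fun s _ => q ≤ s) β → Faith β q → Lane β l →
    (∀ j, 1 ≤ j → IsDer β q j (ρ j)) → (∀ j t, 1 ≤ j → q ≤ t → ρ (j + 1) t = ρ j t - ρ j (t + 1)) →
    (∀ t, q ≤ t → ρ q t = β q t u₀) → ∀ᶠ t in atTop, ρ 1 t l ∈ K ∙ l

/-- Constant derivations. -/
def NilStmt : Prop :=
  ∀ (K : Type) [Field K] [CharZero K] (q : ℕ) (β : Bil K) (κ : Module.End K (K × K)),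
    Arr (fun s _ => q ≤ s) β → Faith β q → (∀ l, ¬ Lane β l) →
    (∀ w, IsDer β q w (fun _ => κ) → κ * κ = 0 → κ = 0) ∧
    (∀ l, l ≠ 0 → IsDer β q 1 (fun _ => κ) → κ l = 0 → (∀ s t, q ≤ s → q ≤ t → β s t l l = 0) → κ = 0) ∧
    ∀ (w : ℕ) (A : Module.End K (K × K)), w ≠ 0 → A * κ - κ * A = (w : K) • (κ * κ) → κ * κ = 0

/-- Head `2, 2, 2, …`: `(1, 0)` is born in degree one and `(0, 1)` in degree two. -/
def AlphaStmt : Prop :=
  ∀ (K : Type) [Field K] [CharZero K] (β : Bil K), Arr (fun s u => 2 ≤ s ∨ s = 1 ∧ u.2 = 0) β →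
    (∀ l, ¬ Lane β l) →
    (∀ s t, 2 ≤ s → s < t → ∀ l, ∃ u v, β s t u v ∉ K ∙ l) →
    (∀ s t, 2 ≤ s → 2 ≤ t → ∀ u, u ≠ 0 → β s t u ≠ 0) →
    (∀ t, 2 ≤ t → ∀ c : K, ∃ v, β 1 t (1, 0) v ≠ c • v) → False

/-- Head `3, 2, 2, …`: both lanes are born in degree one. -/
def BetaStmt : Prop :=
  ∀ (K : Type) [Field K] [CharZero K] (β : Bil K), Arr (fun s _ => 1 ≤ s) β →
    (∀ l, ¬ Lane β l) → Faith β 1 →
    (∀ s t, 2 ≤ s → s < t → β s t ≠ 0) →
    (∀ t, 2 ≤ t → ∀ c : (K × K) →ₗ[K] K, ∃ u v, β 1 t u v ≠ c u • v) → False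

end Pool.Agent.P78
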