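import Pool.Agent.Lib.MP_78c6b1_al.CA.OEb
import Pool.Agent.Lib.MP_78c6b1_al.CA.EEDefs

/-! The adic case with two even lanes: frames and arrays. -/

namespace Pool.Agent.P78

open Module Submodule Filter

variable {K L : Type} [Field K] [LieRing L] [LieAlgebra K L]

/-- The filtration with halved weights. -/
structure EF (x : L) (Ψ : ℕ → Submodule K L) : Prop where
  one : Ψ 1 = ⊤
  anti : Antitone Ψ
  lie : ∀ {i j a b}, a ∈ Ψ i → b ∈ Ψ j → ⁅a, b⁆ ∈ Ψ (i + j)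
  opn : ∀ k, Opn (Ψ k)
  bud : ∀ k, 2 * k ≤ cod (Ψ k) + 2
  ne : x ∉ Ψ 2
  faith : ∀ k y, (∀ᶠ n in atTop, ∀ v ∈ Ψ n, ⁅y, v⁆ ∈ Ψ (k + n + 1)) → y ∈ Ψ (k + 1)
  raise : ∀ (e : ℕ → L) r, (∀ k, r ≤ k → ⁅x, e k⁆ = e (k + 1)) → (∀ k, r ≤ k → e k ∈ Ψ k) →
    (∀ k, r ≤ k → ∀ u : L, ⁅u, e k⁆ ∈ (K ∙ e (k + 1)) ⊔ Ψ (k + 2)) →
    (∀ j k, r ≤ j → r ≤ k → ∀ u ∈ Ψ j, ⁅u, e k⁆ ∈ (K ∙ e (j + k)) ⊔ Ψ (j + k + 1)) →
    (∀ j k, r ≤ j → r ≤ k → ⁅e j, e k⁆ ∈ Ψ (j + k + 1)) → ∃ k, r ≤ k ∧ e k ∈ Ψ (k + 1)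

variable {x : L} {Φ Ψ : ℕ → Submodule K L} {q : ℕ}

lemma MaxF.ef (P : MaxF x Φ q) (h : ∀ k, Φ (2 * k + 1) = Φ (2 * k + 2)) : EF x fun k => Φ (2 * k) := by
  refine ⟨P.fil.two, fun _ _ e => P.fil.anti (by omega),
    fun ha hb => P.fil.anti (by omega) (P.fil.lie ha hb), fun k => P.fil.opn _, fun k => P.fil.bud _,
    fun e => P.fil.ne ((h 1).ge e), fun k y hy => P.faith _ ?_, fun e r h1 h2 h3 h4 h5 => ?_⟩
  · obtain ⟨m, hm⟩ := eventually_atTop.1 hy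
    refine (eventually_ge_atTop (2 * m)).mono fun n hn v hv => ?_
    obtain ⟨l, rfl | rfl⟩ := n.even_or_odd'
    · exact P.fil.anti (by omega) (hm l (by omega) v hv)
    · exact P.fil.anti (by omega) (hm (l + 1) (by omega) v ((h l).le hv))
  let M := fun i => if i % 2 = 0 then Φ i else (K ∙ e (i / 2)) ⊔ Φ (i + 1)
  have e0 : ∀ k, M (2 * k) = Φ (2 * k) := fun k => by simp [M]
  have e1 : ∀ k, M (2 * k + 1) = (K ∙ e k) ⊔ Φ (2 * k + 2) := fun k => by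
    simp [M, show (2 * k + 1) / 2 = k by omega]
  have e2 : ∀ k, r ≤ k → M (2 * k + 1) ≤ Φ (2 * k) := fun k hk =>
    (e1 k).le.trans (sup_le (by simpa using h2 k hk) (P.fil.anti (by omega)))
  have e3 : ∀ i, Φ i ≤ M i := fun i => by
    obtain ⟨k, rfl | rfl⟩ := i.even_or_odd'
    · exact (e0 k).ge
    · exact (e1 k).ge.trans' (le_sup_of_le_right (h k).le)
  have e4 : ∀ {k v}, v ∈ M (2 * k + 1) → ∃ c : K, ∃ w ∈ Φ (2 * k + 2), v = c • e k + w :=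
    fun {k v} hv => by
      obtain ⟨_, a1, w, hw, rfl⟩ := mem_sup.1 ((e1 k).le hv)
      obtain ⟨c, rfl⟩ := mem_span_singleton.1 a1
      exact ⟨c, w, hw, rfl⟩
  have e5 : ∀ j k, r ≤ j → r ≤ k → ∀ u ∈ Φ (2 * j), ∀ v ∈ M (2 * k + 1), ⁅u, v⁆ ∈ M (2 * (j + k) + 1) :=
    fun j k hj hk u hu v hv => by
      obtain ⟨c, w, hw, rfl⟩ := e4 hv
      rw [lie_add, lie_smul, e1]
      exact add_mem (smul_mem _ _ (h4 j k hj hk u hu))
        (mem_sup_right (P.fil.anti (by omega) (P.fil.lie hu hw)))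
  have HM : ACh x M (2 * (q + r)) := by
    refine ⟨fun i hi => ?_, fun i hi => ?_, fun i hi u v hv => ?_, fun i j hi hj u hu v hv => ?_,
      fun i _ => (P.fil.opn i).mono (e3 i), fun i hi hx => ?_⟩ <;>
      obtain ⟨k, rfl | rfl⟩ := i.even_or_odd'
    · exact (e2 k (by omega)).trans (e0 k).ge
    · exact (e0 (k + 1)).le.trans (le_sup_right.trans (e1 k).ge)
    · rw [e0, ← P.ach.adic _ (by omega)]
      exact e0 (k + 1)
    · rw [e1, Submodule.map_sup, ← P.ach.adic _ (by omega), map_span, Set.image_singleton]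
      exact (e1 (k + 1)).trans (by rw [← h1 k (by omega)]; rfl)
    · exact e3 _ (P.fil.act u ((e0 k).le hv))
    · obtain ⟨c, w, hw, rfl⟩ := e4 hv
      rw [lie_add, lie_smul]
      exact (e1 (k + 1)).ge (add_mem (smul_mem _ _ (h3 k (by omega) u)) (mem_sup_right (P.fil.act u hw)))
    · obtain ⟨l, rfl | rfl⟩ := j.even_or_odd'
      · exact e3 _ (P.fil.lie ((e0 k).le hu) ((e0 l).le hv))
      · rw [show 2 * k + (2 * l + 1) = 2 * (k + l) + 1 by omega]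
        exact e5 k l (by omega) (by omega) u ((e0 k).le hu) v hv
    · obtain ⟨l, rfl | rfl⟩ := j.even_or_odd'
      · rw [show 2 * k + 1 + 2 * l = 2 * (l + k) + 1 by omega, ← lie_skew]
        exact neg_mem (e5 l k (by omega) (by omega) v ((e0 l).le hv) u hu)
      · obtain ⟨c, w, hw, rfl⟩ := e4 hu
        obtain ⟨d, z, hz, rfl⟩ := e4 hv
        rw [add_lie, lie_add, smul_lie, lie_smul]
        exact e3 _ (add_mem (add_mem (smul_mem _ _ (smul_mem _ _ (P.fil.anti (by omega)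
          (h5 k l (by omega) (by omega))))) (P.fil.anti (by omega)
          (P.fil.lie (smul_mem _ _ (h2 k (by omega))) hz)))
          (P.fil.anti (by omega) (P.fil.lie hw (e2 l (by omega) hv))))
    · exact P.ach.ne _ (by omega) ((e0 k).le hx)
    · exact P.ach.ne _ (by omega) (e2 k (by omega) hx)
  obtain ⟨m, hm⟩ := eventually_atTop.1 (P.max M _ HM fun i _ => e3 i)
  exact ⟨m + r, by omega, (h _).le (hm _ (by omega) ((e1 _).ge
    (mem_sup_left (mem_span_singleton_self _))))⟩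

lemma EF.act (P : EF x Ψ) (u : L) {j : ℕ} {b : L} (hb : b ∈ Ψ j) : ⁅u, b⁆ ∈ Ψ (j + 1) :=
  add_comm 1 j ▸ P.lie (P.one.ge trivial) hb

lemma EF.map_le (P : EF x Ψ) (s : ℕ) : (Ψ s).map (LieAlgebra.ad K L x) ≤ Ψ (s + 1) := by
  rintro _ ⟨v, hv, rfl⟩
  exact P.act x hv

lemma EF.cod_map (h : CA K x) (P : EF x Ψ) {s : ℕ} (hs : 2 ≤ s) :
    cod ((Ψ s).map (LieAlgebra.ad K L x)) = cod (Ψ s) + 2 :=
  h.cod_map (P.opn s) fun hx => P.ne (P.anti hs hx)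

lemma EF.cod_le (h : CA K x) (P : EF x Ψ) {s : ℕ} (hs : 2 ≤ s) : cod (Ψ (s + 1)) ≤ cod (Ψ s) + 2 :=
  have := h.lim.fin_opn (h.opn_map (P.opn s))
  (cod_anti (P.map_le s)).trans (P.cod_map h hs).le

lemma EF.map_eq (h : CA K x) (P : EF x Ψ) {s : ℕ} (hs : 2 ≤ s)
    (hc : cod (Ψ s) + 2 ≤ cod (Ψ (s + 1))) : Ψ (s + 1) = (Ψ s).map (LieAlgebra.ad K L x) :=
  have := h.lim.fin_opn (h.opn_map (P.opn s))
  (eq_of_cod_le (P.map_le s) ((P.cod_map h hs).le.trans hc)).symm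

lemma EF.inj (h : CA K x) (P : EF x Ψ) {s : ℕ} (hs : 2 ≤ s)
    (hc : Ψ (s + 2) = (Ψ (s + 1)).map (LieAlgebra.ad K L x)) {v : L} (hv : v ∈ Ψ s)
    (hv' : ⁅x, v⁆ ∈ Ψ (s + 2)) : v ∈ Ψ (s + 1) := by
  obtain ⟨w, hw, e⟩ := hc.le hv'
  obtain ⟨c, hc⟩ := mem_span_singleton.1 (h.ker (v - w) (by rw [lie_sub]; exact sub_eq_zero.2 e.symm))
  by_cases h0 : c = 0
  · rwa [sub_eq_zero.1 (show v - w = 0 by rw [← hc, h0, zero_smul])]
  · exact absurd ((smul_mem_iff _ h0).1 (hc ▸ sub_mem (P.anti hs hv) (P.anti (by omega) hw))) P.ne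

/-- A frame of the layers from `q` on. -/
structure Fr (x : L) (Ψ : ℕ → Submodule K L) (E : ℕ → K × K →ₗ[K] L) (lam : ℕ → L →ₗ[K] K × K)
    (q : ℕ) : Prop where
  mem : ∀ s, q ≤ s → ∀ u, E s u ∈ Ψ s
  step : ∀ s, q ≤ s → ∀ u, ⁅x, E s u⁆ = E (s + 1) u
  left : ∀ s, q ≤ s → ∀ u, lam s (E s u) = u
  zero : ∀ s, q ≤ s → ∀ v ∈ Ψ (s + 1), lam s v = 0
  right : ∀ s, q ≤ s → ∀ v ∈ Ψ s, v - E s (lam s v) ∈ Ψ (s + 1)

variable {E : ℕ → K × K →ₗ[K] L} {lam : ℕ → L →ₗ[K] K × K}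

lemma EF.exists_fr (h : CA K x) (P : EF x Ψ) (hq : 2 ≤ q)
    (hc : ∀ s, q ≤ s → cod (Ψ (s + 1)) = cod (Ψ s) + 2) (h1 : ∀ s, q ≤ s → ∀ u, ⁅x, E s u⁆ = E (s + 1) u)
    (h2 : ∀ u, E q u ∈ Ψ q) (h3 : Ψ q ≤ LinearMap.range (E q) ⊔ Ψ (q + 1)) : ∃ lam, Fr x Ψ E lam q := by
  have hf := fun s => h.lim.fin_opn (P.opn s)
  have h4 : ∀ s, q ≤ s → (∀ u, E s u ∈ Ψ s) ∧ Ψ s ≤ LinearMap.range (E s) ⊔ Ψ (s + 1) := fun s hs => by
    induction s, hs using Nat.le_induction with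
    | base => exact ⟨h2, h3⟩
    | succ s hs ih =>
      refine ⟨fun u => h1 s hs u ▸ P.act x (ih.1 u), ?_⟩
      refine (P.map_eq h (by omega) (hc s hs).ge).le.trans ((Submodule.map_mono ih.2).trans ?_)
      rw [Submodule.map_sup]
      refine sup_le_sup ?_ (P.map_le _)
      rintro _ ⟨_, ⟨u, rfl⟩, rfl⟩
      exact ⟨u, (h1 s hs u).symm⟩
  have h5 : ∀ s, q ≤ s → LinearMap.ker ((Ψ (s + 1)).mkQ ∘ₗ E s) = ⊥ := fun s hs => by
    have a1 := ((Ψ (s + 1)).mkQ ∘ₗ E s).finrank_range_add_finrank_ker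
    have a2 := cod_eq_add (P.anti (Nat.le_add_right s 1))
    have a3 := finrank_mono (Submodule.map_mono (f := (Ψ (s + 1)).mkQ) (h4 s hs).2)
    rw [Submodule.map_sup, mkQ_map_self, sup_bot_eq, ← LinearMap.range_comp] at a3
    have a4 := hc s hs
    simp only [finrank_prod, finrank_self] at a1
    exact finrank_eq_zero.1 (by omega)
  choose! g hg using fun s hs => LinearMap.exists_leftInverse_of_injective _ (h5 s hs)
  have h6 : ∀ s, q ≤ s → ∀ u, g s ((Ψ (s + 1)).mkQ (E s u)) = u := fun s hs u =>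
    LinearMap.congr_fun (hg s hs) u
  have h7 : ∀ s, ∀ v ∈ Ψ (s + 1), g s ((Ψ (s + 1)).mkQ v) = 0 := fun s v hv => by
    rw [mkQ_apply, (Submodule.Quotient.mk_eq_zero _).2 hv, map_zero]
  refine ⟨fun s => g s ∘ₗ (Ψ (s + 1)).mkQ, fun s hs => (h4 s hs).1, h1, h6, fun s _ => h7 s,
    fun s hs v hv => ?_⟩
  obtain ⟨_, ⟨u, rfl⟩, w, hw, rfl⟩ := mem_sup.1 ((h4 s hs).2 hv)
  simpa only [LinearMap.comp_apply, map_add, h6 s hs, h7 s w hw, add_zero, add_sub_cancel_left]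

/-- The action of `y`, of degree `k`, on the layer `t`. -/
def aop (E : ℕ → K × K →ₗ[K] L) (lam : ℕ → L →ₗ[K] K × K) (y : L) (k t : ℕ) : End K (K × K) :=
  lam (k + t) ∘ₗ LieAlgebra.ad K L y ∘ₗ E t

/-- The array of brackets. -/
def bil (E : ℕ → K × K →ₗ[K] L) (lam : ℕ → L →ₗ[K] K × K) : Bil K := fun s t =>
  ((LieAlgebra.ad K L : L →ₗ[K] End K L).compl₁₂ (E s) (E t)).compr₂ (lam (s + t))

lemma act_apply (y : L) (k t : ℕ) (v : K × K) : aop E lam y k t v = lam (k + t) ⁅y, E t v⁆ := rfl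

lemma bil_apply (s t : ℕ) (u v : K × K) : bil E lam s t u v = lam (s + t) ⁅E s u, E t v⁆ := rfl

lemma Fr.congr (G : Fr x Ψ E lam q) {s : ℕ} (hs : q ≤ s) {v w : L} (h : v - w ∈ Ψ (s + 1)) :
    lam s v = lam s w := by
  rw [← sub_eq_zero, ← map_sub, G.zero s hs _ h]

lemma Fr.lam_x (P : EF x Ψ) (G : Fr x Ψ E lam q) {s : ℕ} (hs : q ≤ s) {v : L} (hv : v ∈ Ψ s) :
    lam (s + 1) ⁅x, v⁆ = lam s v := by
  rw [← G.left (s + 1) (by omega) (lam s v), ← G.step s hs]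
  exact G.congr (by omega) (by rw [← lie_sub]; exact P.act x (G.right s hs v hv))

lemma Fr.lam_right (P : EF x Ψ) (G : Fr x Ψ E lam q) {k t : ℕ} (ht : q ≤ t) {y v : L} (hy : y ∈ Ψ k)
    (hv : v ∈ Ψ t) : lam (k + t) ⁅y, v⁆ = lam (k + t) ⁅y, E t (lam t v)⁆ :=
  G.congr (by omega) (by rw [← lie_sub]; exact P.lie (j := t + 1) hy (G.right t ht v hv))

lemma Fr.lam_left (P : EF x Ψ) (G : Fr x Ψ E lam q) {k t : ℕ} (hk : q ≤ k) {y v : L} (hy : y ∈ Ψ k)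
    (hv : v ∈ Ψ t) : lam (k + t) ⁅y, v⁆ = lam (k + t) ⁅E k (lam k y), v⁆ :=
  G.congr (by omega) (sub_lie y _ v ▸ add_right_comm k 1 t ▸ P.lie (G.right k hk y hy) hv)

/-- The derivation rule for three elements whose pairwise degrees are in the tail. -/
lemma Fr.jac (P : EF x Ψ) (G : Fr x Ψ E lam q) {r s t : ℕ} (h1 : q ≤ r + s) (h2 : q ≤ s + t)
    (h3 : q ≤ r + t) {y v w : L} (hy : y ∈ Ψ r) (hv : v ∈ Ψ s) (hw : w ∈ Ψ t) :
    lam (r + (s + t)) ⁅y, E (s + t) (lam (s + t) ⁅v, w⁆)⁆ =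
      lam (r + s + t) ⁅E (r + s) (lam (r + s) ⁅y, v⁆), w⁆ +
        lam (s + (r + t)) ⁅v, E (r + t) (lam (r + t) ⁅y, w⁆)⁆ := by
  rw [← G.lam_right P h2 hy (P.lie hv hw), ← G.lam_left P h1 (P.lie hy hv) hw,
    ← G.lam_right P h3 hv (P.lie hy hw), leibniz_lie, map_add, add_assoc r, add_left_comm s]

lemma Fr.arr (P : EF x Ψ) (G : Fr x Ψ E lam q) {I : ℕ → K × K → Prop}
    (h1 : ∀ s u, I s u → E s u ∈ Ψ s ∧ ⁅x, E s u⁆ = E (s + 1) u)
    (h2 : ∀ s t u v, I s u → I t v → q ≤ s + t) : Arr I (bil E lam) := by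
  refine ⟨fun s t u v hu hv => ?_, fun s t u v hu hv => ?_, fun r s t u v w hu hv hw => ?_⟩ <;>
    simp only [bil_apply]
  · rw [← G.lam_x P (h2 s t u v hu hv) (P.lie (h1 s u hu).1 (h1 t v hv).1), leibniz_lie, (h1 s u hu).2,
      (h1 t v hv).2, map_add, add_right_comm s 1 t, add_assoc s t 1]
  · rw [← lie_skew, map_neg, add_comm]
  · rw [G.jac P (h2 _ _ _ _ hu hv) (h2 _ _ _ _ hv hw) (h2 _ _ _ _ hu hw) (h1 r u hu).1 (h1 s v hv).1
      (h1 t w hw).1, add_sub_cancel_right]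

lemma Fr.arr_tail (P : EF x Ψ) (G : Fr x Ψ E lam q) : Arr (fun s _ => q ≤ s) (bil E lam) :=
  G.arr P (fun s u hs => ⟨G.mem s hs u, G.step s hs u⟩) fun _ _ _ _ hs _ => by omega

lemma Fr.isDer (P : EF x Ψ) (G : Fr x Ψ E lam q) {k : ℕ} {y : L} (hy : y ∈ Ψ k) :
    IsDer (bil E lam) q k (aop E lam y k) := fun s t u v hs ht =>
  G.jac P (by omega) (by omega) (by omega) hy (G.mem s hs u) (G.mem t ht v)

lemma Fr.act_x (P : EF x Ψ) (G : Fr x Ψ E lam q) {k t : ℕ} (ht : q ≤ t) {y : L} (hy : y ∈ Ψ k) :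
    aop E lam ⁅x, y⁆ (k + 1) t = aop E lam y k t - aop E lam y k (t + 1) := by
  refine LinearMap.ext fun v => ?_
  rw [LinearMap.sub_apply, act_apply, act_apply, act_apply, ← G.lam_x P (by omega)
    (P.lie hy (G.mem t ht v)), leibniz_lie, G.step t ht, map_add, add_right_comm k 1 t, add_assoc k t 1,
    add_sub_cancel_right]

lemma Fr.act_zero (P : EF x Ψ) (G : Fr x Ψ E lam q) {k t : ℕ} (ht : q ≤ t) {y : L}
    (hy : y ∈ Ψ (k + 1)) : aop E lam y k t = 0 := LinearMap.ext fun v =>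
  G.zero _ (by omega) _ (add_right_comm k 1 t ▸ P.lie hy (G.mem t ht v))

lemma Fr.faith (P : EF x Ψ) (G : Fr x Ψ E lam q) {k : ℕ} {y : L} (hy : y ∈ Ψ k)
    (h : ∀ᶠ t in atTop, aop E lam y k t = 0) : y ∈ Ψ (k + 1) := by
  refine P.faith k y ((h.and (eventually_ge_atTop q)).mono fun t ht v hv => ?_)
  have := G.right (k + t) (by omega) _ (P.lie hy hv)
  rwa [G.lam_right P ht.2 hy hv, ← act_apply, ht.1, LinearMap.zero_apply, map_zero, sub_zero] at this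

lemma Fr.faith' (P : EF x Ψ) (G : Fr x Ψ E lam q) : Faith (bil E lam) q := fun s hs u hu h =>
  hu ((G.left s hs u).symm.trans (G.zero s hs _ (G.faith P (G.mem s hs u) (h.mono fun _ => not_not.1))))

lemma Fr.mem_sup (G : Fr x Ψ E lam q) {s : ℕ} (hs : q ≤ s) {v : L} (hv : v ∈ Ψ s) {l : K × K}
    (h : lam s v ∈ K ∙ l) : v ∈ (K ∙ E s l) ⊔ Ψ (s + 1) := by
  obtain ⟨c, hc⟩ := mem_span_singleton.1 h
  simpa [← map_smul, hc] using add_mem_sup (smul_mem _ c (mem_span_singleton_self (E s l)))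
    (G.right s hs v hv)

lemma Fr.nal [CharZero K] (HI : InvStmt) (h : CA K x) (P : EF x Ψ) (G : Fr x Ψ E lam q) (hq : 1 ≤ q)
    (l : K × K) : ¬ Lane (bil E lam) l := fun H => by
  have h1 : ∀ y : L, ∀ᶠ t in atTop, ⁅y, E t l⁆ ∈ (K ∙ E (t + 1) l) ⊔ Ψ (t + 2) := fun y => by
    have a1 : ∀ j, 1 ≤ j → (LieAlgebra.ad K L x ^ (j - 1)) y ∈ Ψ j := fun j hj => by
      induction j, hj using Nat.le_induction with
      | base => exact P.one.ge trivial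
      | succ j hj ih => exact chain_step (K := K) x y hj ▸ P.act x ih
    filter_upwards [HI K q _ l (lam q ((LieAlgebra.ad K L x ^ (q - 1)) y))
      (fun j => aop E lam ((LieAlgebra.ad K L x ^ (j - 1)) y) j) hq (G.arr_tail P) (G.faith' P) H
      (fun j hj => G.isDer P (a1 j hj))
      (fun j t hj ht => by rw [← chain_step x y hj, G.act_x P ht (a1 j hj)])
      (fun t ht => LinearMap.ext fun v => G.lam_left P le_rfl (a1 q hq) (G.mem t ht v)),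
      eventually_ge_atTop q] with t a2 a3
    rw [act_apply, add_comm] at a2
    exact G.mem_sup (by omega) (P.act y (G.mem t a3 l)) a2
  have := h.lim.fin_opn (P.opn 2)
  obtain ⟨z, hz⟩ := (cod_le_iff (W := Ψ 2)).1 le_rfl
  obtain ⟨m, hm⟩ := eventually_atTop.1 (eventually_all.2 fun j => h1 (z j))
  obtain ⟨h0, r, hr⟩ := H
  obtain ⟨k, hk, e⟩ := P.raise (fun k => E k l) (q + m + r) (fun k hk => G.step k (by omega) l)
    (fun k hk => G.mem k (by omega) l) (fun k hk u => by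
      obtain ⟨g, hg, s, hs, rfl⟩ := Submodule.mem_sup.1 (hz.ge (mem_top (x := u)))
      obtain ⟨c, rfl⟩ := (mem_span_range_iff_exists_fun K).1 hs
      rw [add_lie, sum_lie]
      exact add_mem (mem_sup_right (add_comm 2 k ▸ P.lie hg (G.mem k (by omega) l)))
        (sum_mem fun j _ => by rw [smul_lie]; exact smul_mem _ _ (hm k (by omega) j)))
    (fun j k hj hk u hu => G.mem_sup (by omega) (P.lie hu (G.mem k (by omega) l)) (by
      rw [G.lam_left P (by omega) hu (G.mem k (by omega) l)]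
      exact (hr j k (by omega) (by omega)).1 _))
    fun j k hj hk => by
      simpa [← bil_apply, (hr j k (by omega) (by omega)).2] using G.right (j + k) (by omega) _
        (P.lie (G.mem j (by omega) l) (G.mem k (by omega) l))
  exact h0 ((G.left k (by omega) l).symm.trans (G.zero k (by omega) _ e))

end Pool.Agent.P78
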