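import Pool.Agent.Lib.MP_78c6b1_al.Lim.R2Defs

/-! The adic case: the maximal filtration in which `x` has weight two. -/

namespace Pool.Agent.P78

open Module Submodule Filter PowerSeries

variable {K L : Type} [Field K] [LieRing L] [LieAlgebra K L]

variable (K) in
/-- The hypotheses of the adic case. -/
structure CA (x : L) : Prop where
  lim : Lim K L
  ker : ∀ v, ⁅x, v⁆ = 0 → v ∈ K ∙ x
  cod_im : cod (im K x) = 3
  adic : Adic K x

/-- An `ad x`-periodic chain of deep ideals. -/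
structure ACh (x : L) (M : ℕ → Submodule K L) (q : ℕ) : Prop where
  anti : ∀ i, q ≤ i → M (i + 1) ≤ M i
  adic : ∀ i, q ≤ i → M (i + 2) = (M i).map (LieAlgebra.ad K L x)
  act : ∀ i, q ≤ i → ∀ u : L, ∀ v ∈ M i, ⁅u, v⁆ ∈ M (i + 2)
  lie : ∀ i j, q ≤ i → q ≤ j → ∀ u ∈ M i, ∀ v ∈ M j, ⁅u, v⁆ ∈ M (i + j)
  opn : ∀ i, q ≤ i → Opn (M i)
  ne : ∀ i, q ≤ i → x ∉ M i

/-- A Lie filtration with all weights at least two. -/
structure Fil2 (x : L) (Φ : ℕ → Submodule K L) : Prop where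
  two : Φ 2 = ⊤
  anti : Antitone Φ
  lie : ∀ {i j a b}, a ∈ Φ i → b ∈ Φ j → ⁅a, b⁆ ∈ Φ (i + j)
  gam_le : ∀ k, gam K L k ≤ Φ (2 * k)
  bud : ∀ s, s ≤ cod (Φ s) + 2
  ne : x ∉ Φ 3

/-- The elements that shift the deep terms of a chain by at least `s`. -/
def shiftM (M : ℕ → Submodule K L) (s : ℕ) : Submodule K L where
  carrier := {y | ∀ᶠ n in atTop, ∀ v ∈ M n, ⁅y, v⁆ ∈ M (n + s)}
  zero_mem' := Eventually.of_forall (by simp)
  add_mem' ha hb := (Eventually.and ha hb).mono fun n h v hv => by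
    simpa using add_mem (h.1 v hv) (h.2 v hv)
  smul_mem' c _ h := Eventually.mono h fun n h v hv => by simpa using smul_mem _ c (h v hv)

/-- A maximal filtration. -/
structure MaxF (x : L) (Φ : ℕ → Submodule K L) (q : ℕ) : Prop where
  fil : Fil2 x Φ
  ach : ACh x Φ q
  faith : ∀ s, shiftM Φ s ≤ Φ s
  max : ∀ (M : ℕ → Submodule K L) r, ACh x M r → (∀ i, r ≤ i → Φ i ≤ M i) → ∀ᶠ i in atTop, M i ≤ Φ i

lemma R2.ca [Module K⟦X⟧ L] [IsScalarTower K K⟦X⟧ L] {x a b : L} (h : R2 K x a b) (hA : Adic K x) :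
    CA K x := by
  have h1 : ∀ (c : K) (f g : K⟦X⟧), ⁅x, c • x + f • a + g • b⁆ = (X * f) • a + (X * g) • b :=
    fun c f g => by rw [lie_add, lie_add, lie_smul, lie_self, smul_zero, zero_add, mul_smul, mul_smul,
      h.tgen.act, h.tgen.act]
  have h2 : ∀ c d e : K, c • x + d • a + e • b ∈ im K x → c = 0 ∧ d = 0 ∧ e = 0 := by
    rintro c d e ⟨w, hw⟩
    obtain ⟨c', f, g, rfl⟩ := h.tgen.gen w
    obtain ⟨a1, a2, a3⟩ := h.free c (C d - X * f) (C e - X * g) (by
      rw [sub_smul, sub_smul, C_smul, C_smul, ← sub_eq_zero.2 (hw.symm.trans (h1 c' f g))]; abel)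
    exact ⟨a1, by simpa using congrArg constantCoeff a2, by simpa using congrArg constantCoeff a3⟩
  refine ⟨h.lim, fun v hv => ?_, ?_, hA⟩
  · obtain ⟨c, f, g, rfl⟩ := h.tgen.gen v
    obtain ⟨-, a2, a3⟩ := h.free 0 (X * f) (X * g) (by rw [zero_smul, zero_add, ← h1 c, hv])
    simp [(mul_eq_zero.1 a2).resolve_left X_ne_zero, (mul_eq_zero.1 a3).resolve_left X_ne_zero,
      mem_span_singleton]
  · refine (finrank_eq_card_basis (Basis.mk (v := fun i => (im K x).mkQ (![x, a, b] i))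
      (Fintype.linearIndependent_iff.2 fun g hg => ?_) fun v _ => ?_)).trans (by simp)
    · have := h2 (g 0) (g 1) (g 2) ((Submodule.Quotient.mk_eq_zero _).1
        (by simpa [Fin.sum_univ_three] using hg))
      intro i
      fin_cases i
      exacts [this.1, this.2.1, this.2.2]
    · obtain ⟨v, rfl⟩ := (im K x).mkQ_surjective v
      obtain ⟨c, f, g, rfl⟩ := h.tgen.gen v
      obtain ⟨f', hf⟩ := smul_eq_sum (L := L) f 1
      obtain ⟨g', hg⟩ := smul_eq_sum (L := L) g 1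
      have h3 : ∀ w, (im K x).mkQ ⁅x, w⁆ = 0 := fun w => (Submodule.Quotient.mk_eq_zero _).2 ⟨w, rfl⟩
      refine (mem_span_range_iff_exists_fun K).2 ⟨![c, constantCoeff f, constantCoeff g], ?_⟩
      rw [hf, hg]
      simp only [pow_one, h.tgen.act, map_add, h3]
      simp [Fin.sum_univ_three]

variable {x : L} {M Φ : ℕ → Submodule K L} {q : ℕ}

lemma CA.opn_map (h : CA K x) {U : Submodule K L} (hU : Opn U) :
    Opn (U.map (LieAlgebra.ad K L x)) := by
  obtain ⟨n, hn⟩ := hU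
  obtain ⟨m, hm⟩ := h.adic
  refine ⟨n + m + 1, fun v hv => ?_⟩
  obtain ⟨w, hw, rfl⟩ := hm (n + m) (by omega) v hv
  exact ⟨w, hn (gam_anti (by omega) hw), rfl⟩

lemma CA.cod_map (h : CA K x) {U : Submodule K L} (hU : Opn U) (hx : x ∉ U) :
    cod (U.map (LieAlgebra.ad K L x)) = cod U + 2 := by
  have := h.lim.fin_opn hU
  have := h.lim.fin_opn (h.opn_map hU)
  have h1 := cod_le_sup_span U x
  have h2 := cod_lt (U := U) (V := U ⊔ K ∙ x) (left_lt_sup.2 (by simpa using hx))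
  have h3 : LinearMap.ker (LieAlgebra.ad K L x) = K ∙ x :=
    le_antisymm h.ker (by simp)
  rw [cod_eq_add (V := im K x) LinearMap.map_le_range, h.cod_im, im, ← LinearMap.range_comp,
    ← (LinearMap.quotKerEquivRange _).finrank_eq, LinearMap.ker_comp, ker_mkQ, comap_map_eq, h3]
  change 3 + cod (U ⊔ K ∙ x) = _
  omega

lemma ACh.mono (H : ACh x M q) {r : ℕ} (h : q ≤ r) : ACh x M r :=
  ⟨fun i hi => H.anti i (h.trans hi), fun i hi => H.adic i (h.trans hi),
    fun i hi => H.act i (h.trans hi), fun i j hi hj => H.lie i j (h.trans hi) (h.trans hj),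
    fun i hi => H.opn i (h.trans hi), fun i hi => H.ne i (h.trans hi)⟩

lemma ACh.anti' (H : ACh x M q) {i j : ℕ} (hi : q ≤ i) (hj : i ≤ j) : M j ≤ M i := by
  induction j, hj using Nat.le_induction with
  | base => rfl
  | succ j hj ih => exact (H.anti j (by omega)).trans ih

lemma ACh.cod_add (h : CA K x) (H : ACh x M q) {i : ℕ} (hi : q ≤ i) (k : ℕ) :
    cod (M (i + 2 * k)) = cod (M i) + 2 * k := by
  induction k with
  | zero => rfl
  | succ k ih =>
    rw [mul_add, ← add_assoc, H.adic _ (by omega), h.cod_map (H.opn _ (by omega)) (H.ne _ (by omega)),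
      ih, add_assoc]

lemma ACh.gam_act (H : ACh x M q) (n : ℕ) {g : L} (hg : g ∈ gam K L n) {i : ℕ} (hi : q ≤ i) {v : L}
    (hv : v ∈ M i) : ⁅g, v⁆ ∈ M (i + 2 * n) := by
  induction n using Nat.twoStepInduction generalizing g i v with
  | zero => exact H.anti' hi (by omega) (H.act i hi g v hv)
  | one => exact H.act i hi g v hv
  | more n _ ih =>
    rw [← lie_skew, neg_mem_iff]
    refine gam_succ_le (W := (M (i + 2 * (n + 2))).comap (LieAlgebra.ad K L v)).2
      (fun u w hw => ?_) hg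
    change ⁅v, ⁅u, w⁆⁆ ∈ M _
    rw [← lie_skew, neg_mem_iff, lie_lie]
    refine sub_mem (H.act (i + 2 * (n + 1)) (by omega) u _ (ih hw hi hv)) ?_
    rw [show i + 2 * (n + 2) = i + 2 + 2 * (n + 1) by omega]
    exact ih hw (by omega) (H.act i hi u v hv)

lemma ACh.le_shiftM (H : ACh x M q) {i : ℕ} (hi : q ≤ i) : M i ≤ shiftM M i := fun y hy =>
  (eventually_ge_atTop q).mono fun n hn v hv => add_comm i n ▸ H.lie i n hi hn y hy v hv

lemma ACh.fil2 [Uncountable K] (h : CA K x) (H : ACh x M q) : Fil2 x (shiftM M) := by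
  have h1 : Antitone (shiftM M) := fun _ _ hab _ hy =>
    (Eventually.and hy (eventually_ge_atTop q)).mono fun _ hn v hv =>
      H.anti' (by omega) (by omega) (hn.1 v hv)
  have h2 : ∀ k, gam K L k ≤ shiftM M (2 * k) := fun k g hg =>
    (eventually_ge_atTop q).mono fun n hn v hv => H.gam_act k hg hn hv
  refine ⟨top_unique ((h2 1).trans' le_top), h1, fun {i j a b} ha hb => ?_, h2, fun s => ?_,
    fun hx => ?_⟩
  · filter_upwards [ha, hb, (tendsto_add_atTop_nat j).eventually ha,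
      (tendsto_add_atTop_nat i).eventually hb] with n h1 h2 h3 h4 v hv
    rw [lie_lie]
    exact sub_mem ((show n + j + i = n + (i + j) by omega) ▸ h3 _ (h2 v hv))
      (add_assoc n i j ▸ h4 _ (h1 v hv))
  · have hU : Opn (shiftM M s) := ⟨s, (h2 s).trans (h1 (by omega))⟩
    have := h.lim.fin s
    have := h.lim.fin_opn hU
    obtain ⟨e, he, he'⟩ := exists_fin_span (shiftM M s) (gam K L s)
    obtain ⟨n, hn⟩ := eventually_atTop.1 (eventually_all.2 he)
    have h3 : ∀ i, n + q + 2 * (cod (shiftM M s) + 1) ≤ i →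
        cod (M (i + s)) ≤ cod (shiftM M s) + cod (M i) + 2 := fun i hi =>
      h.lim.kappa' hU (H.opn i (by omega)) (H.opn _ (by omega)) (fun u hu v hv => by
        obtain ⟨g, hg, z, hz, rfl⟩ := mem_sup.1 (he' hu)
        obtain ⟨c, rfl⟩ := (mem_span_range_iff_exists_fun K).1 hz
        rw [add_lie, sum_lie]
        exact add_mem (H.anti' (by omega) (by omega) (H.gam_act s hg (by omega) hv))
          (sum_mem fun j _ => by rw [smul_lie]; exact smul_mem _ _ (hn i (by omega) j v hv)))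
        fun hle => by
          have := cod_anti (hle.trans (H.anti' (i := q + 2 * (cod (shiftM M s) + 1)) (by omega)
            (by omega)))
          rw [H.cod_add h le_rfl] at this
          omega
    have a1 := h3 _ le_rfl
    have a2 := h3 _ (Nat.le_add_right _ s)
    rw [add_assoc _ s s, ← two_mul, H.cod_add h (by omega)] at a2
    omega
  · obtain ⟨n, hn⟩ := eventually_atTop.1 hx
    have h3 : ∀ i, n + q ≤ i → M (i + 2) ≤ M (i + 3) := fun i hi => by
      rw [H.adic i (by omega)]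
      rintro _ ⟨v, hv, rfl⟩
      exact hn i (by omega) v hv
    have := h.lim.fin_opn (H.opn (n + q + 2) (by omega))
    have a1 := cod_anti ((h3 _ le_rfl).trans (h3 (n + q + 1) (by omega)))
    have a2 := H.cod_add h (show q ≤ n + q + 2 by omega) 1
    rw [show n + q + 2 + 2 * 1 = n + q + 1 + 3 by omega] at a2
    omega

lemma Fil2.opn (P : Fil2 x Φ) (s : ℕ) : Opn (Φ s) := ⟨s, (P.gam_le s).trans (P.anti (by omega))⟩

lemma Fil2.act (P : Fil2 x Φ) (u : L) {j : ℕ} {b : L} (hb : b ∈ Φ j) : ⁅u, b⁆ ∈ Φ (j + 2) :=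
  add_comm 2 j ▸ P.lie (P.two.ge trivial) hb

lemma Fil2.map_le (P : Fil2 x Φ) (s : ℕ) : (Φ s).map (LieAlgebra.ad K L x) ≤ Φ (s + 2) := by
  rintro _ ⟨v, hv, rfl⟩
  exact P.act x hv

lemma Fil2.cod_le (h : CA K x) (P : Fil2 x Φ) {s : ℕ} (hs : 3 ≤ s) :
    cod (Φ (s + 2)) ≤ cod (Φ s) + 2 :=
  have := h.lim.fin_opn (h.opn_map (P.opn s))
  (cod_anti (P.map_le s)).trans (h.cod_map (P.opn s) fun hx => P.ne (P.anti hs hx)).le

lemma Fil2.ach (h : CA K x) (P : Fil2 x Φ) : ∃ q N, ACh x Φ q ∧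
    ∀ i, q ≤ i → cod (Φ i) + cod (Φ (i + 1)) + 3 = 2 * i + N := by
  obtain ⟨N, ⟨q, hq, h1⟩, h2⟩ := wellFounded_lt.has_min
    {N | ∃ q, 3 ≤ q ∧ cod (Φ q) + cod (Φ (q + 1)) + 3 = 2 * q + N}
    ⟨cod (Φ 3) + cod (Φ (3 + 1)) + 3 - 2 * 3, 3, le_rfl, by have := P.bud 3; have := P.bud (3 + 1); omega⟩
  have h3 : ∀ i, q ≤ i → cod (Φ i) + cod (Φ (i + 1)) + 3 = 2 * i + N := fun i hi => by
    induction i, hi using Nat.le_induction with
    | base => exact h1
    | succ i hi ih =>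
      have a1 := P.cod_le h (hq.trans hi)
      have a2 := P.bud (i + 1)
      have a3 := P.bud (i + 2)
      have a4 := h2 (cod (Φ (i + 1)) + cod (Φ (i + 2)) + 3 - 2 * (i + 1)) ⟨i + 1, by omega, by
        rw [show i + 1 + 1 = i + 2 from rfl]; omega⟩
      rw [show i + 1 + 1 = i + 2 from rfl]
      omega
  refine ⟨q, N, ⟨fun i _ => P.anti i.le_succ, fun i hi => ?_, fun i _ u v => P.act u,
    fun i j _ _ u hu v => P.lie hu, fun i _ => P.opn i, fun i hi hx => P.ne (P.anti (by omega) hx)⟩, h3⟩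
  have := h.lim.fin_opn (h.opn_map (P.opn i))
  refine (eq_of_cod_le (P.map_le i) ?_).symm
  have a1 := h3 i hi
  have a2 := h3 (i + 1) (by omega)
  rw [show i + 1 + 1 = i + 2 from rfl] at a2
  rw [h.cod_map (P.opn i) fun hx => P.ne (P.anti (by omega) hx)]
  omega

lemma CA.ach_gam (h : CA K x) : ∃ q, ACh x (fun i => gam K L ((i + 1) / 2)) q := by
  obtain ⟨n, hn⟩ := h.adic
  refine ⟨2 * n + 4, fun i _ => gam_anti (by omega), fun i hi => le_antisymm (fun v hv => ?_) ?_,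
    fun i _ u v hv => gam_anti (by omega) (lie_mem_gam_succ u hv),
    fun i j _ _ u hu v hv => gam_anti (by omega) (lie_mem_gam hu hv), fun i _ => opn_gam _,
    fun i hi hx => h.lim.ne n fun v hv => ?_⟩
  · exact hn ((i + 1) / 2) (by omega) v (gam_anti (by omega) hv)
  · rintro _ ⟨v, hv, rfl⟩
    exact gam_anti (by omega) (lie_mem_gam_succ x hv)
  · obtain ⟨w, hw, rfl⟩ := hn n le_rfl v hv
    exact gam_anti (by omega) (lie_mem_gam hx hw)

theorem CA.exists_max [Uncountable K] (h : CA K x) : ∃ (Φ : ℕ → Submodule K L) (q : ℕ), MaxF x Φ q := by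
  obtain ⟨q₀, H₀⟩ := h.ach_gam
  obtain ⟨q₁, N₁, H₁⟩ := (H₀.fil2 h).ach h
  obtain ⟨N, ⟨Φ, q, P, H, h1⟩, h2⟩ := wellFounded_lt.has_min
    {N | ∃ (Φ : ℕ → Submodule K L) (q : ℕ), Fil2 x Φ ∧ ACh x Φ q ∧
      ∀ i, q ≤ i → cod (Φ i) + cod (Φ (i + 1)) + 3 = 2 * i + N} ⟨N₁, _, q₁, H₀.fil2 h, H₁⟩
  have h3 : ∀ (M : ℕ → Submodule K L) r, ACh x M r → (∀ i, r ≤ i → Φ i ≤ M i) →
      ∀ᶠ i in atTop, shiftM M i ≤ Φ i := fun M r HM hM => by
    obtain ⟨q', N', H', h4⟩ := (HM.fil2 h).ach h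
    have h5 := h2 N' ⟨_, q', HM.fil2 h, H', h4⟩
    refine (eventually_ge_atTop (q + q' + r)).mono fun i hi => ?_
    have := h.lim.fin_opn (P.opn i)
    have := h.lim.fin_opn (P.opn (i + 1))
    have a1 := (hM i (by omega)).trans (HM.le_shiftM (by omega))
    have a2 := cod_anti ((hM (i + 1) (by omega)).trans (HM.le_shiftM (by omega)))
    have a3 := h1 i (by omega)
    have a4 := h4 i (by omega)
    exact (eq_of_cod_le a1 (by omega)).ge
  obtain ⟨r, hr⟩ := eventually_atTop.1 (h3 Φ q H fun _ _ => le_rfl)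
  have h4 : ∀ i, Φ i ≤ shiftM Φ i := fun i y hy =>
    Eventually.of_forall fun n v hv => add_comm i n ▸ P.lie hy hv
  obtain ⟨q', -, H', -⟩ := (H.fil2 h).ach h
  refine ⟨shiftM Φ, q', H.fil2 h, H', fun s y hy => ?_, fun M r' HM hM => ?_⟩
  · filter_upwards [hy, eventually_ge_atTop r] with n a1 a2 v hv
    exact hr _ (by omega) (a1 v (h4 n hv))
  · filter_upwards [h3 M r' HM fun i hi => (h4 i).trans (hM i hi), eventually_ge_atTop r'] with i a1 a2
    exact ((HM.le_shiftM a2).trans a1).trans (h4 i)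

/-- Both lanes at even weights. -/
def EEStmt : Prop :=
  ∀ (K L : Type) [Field K] [CharZero K] [Uncountable K] [LieRing L] [LieAlgebra K L] (x : L)
    (Φ : ℕ → Submodule K L) (q : ℕ), CA K x → Gen K x → MaxF x Φ q →
    (∀ k, Φ (2 * k + 1) = Φ (2 * k + 2)) → False

/-- One lane at odd and one lane at even weights. -/
def OEStmt : Prop :=
  ∀ (K L : Type) [Field K] [CharZero K] [Uncountable K] [LieRing L] [LieAlgebra K L] (x : L)
    (Φ : ℕ → Submodule K L) (q : ℕ), CA K x → MaxF x Φ q →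
    (∀ i, q ≤ i → cod (Φ (i + 1)) = cod (Φ i) + 1) → Concl K L

theorem aStmt_of (hE : EEStmt) (hO : OEStmt) : AStmt := by
  intro K L _ _ _ _ _ _ _ x a b hR hA
  have h := hR.ca hA
  obtain ⟨Φ, q, P⟩ := h.exists_max
  have hf := fun s => h.lim.fin_opn (P.fil.opn s)
  have h1 := fun i hi => P.ach.cod_add h (i := i) hi
  have h2 := fun i => cod_anti (P.fil.anti (Nat.le_add_right i 1))
  have h3 : ∀ j, q ≤ j → cod (Φ (j + 1)) ≤ cod (Φ j) → ∀ k, Φ (j + 2 * k + 1) = Φ (j + 2 * k) :=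
    fun j hj a k => eq_of_cod_le (P.fil.anti (by omega)) (by
      rw [add_right_comm, h1 j hj, h1 (j + 1) (by omega)]; omega)
  have h4 : ∀ j, q ≤ j → cod (Φ (j + 1)) ≤ cod (Φ j) → False := fun j hj a => by
    obtain ⟨m, rfl | rfl⟩ := j.even_or_odd'
    · have b1 : ∀ k, m ≤ k → Φ (2 * k) ≤ Φ (2 * k + 1) := fun k hk => by
        simpa only [show 2 * m + 2 * (k - m) = 2 * k by omega] using (h3 _ hj a (k - m)).ge
      have b2 : ∀ i j, 2 * m ≤ i → 2 * m ≤ j → ∀ u ∈ Φ i, ∀ v ∈ Φ j, ⁅u, v⁆ ∈ Φ (i + j + 1) := by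
        intro i j hi hj u hu v hv
        obtain ⟨k, rfl | rfl⟩ := i.even_or_odd'
        · exact P.fil.anti (by omega) (P.fil.lie (b1 k (by omega) hu) hv)
        obtain ⟨l, rfl | rfl⟩ := j.even_or_odd'
        · exact P.fil.anti (by omega) (P.fil.lie hu (b1 l (by omega) hv))
        · exact P.fil.anti (by omega) (b1 (k + l + 1) (by omega)
            (P.fil.anti (by omega) (P.fil.lie hu hv)))
      obtain ⟨r, hr⟩ := eventually_atTop.1 (P.max (fun i => Φ (i - 1)) (2 * m + 1) ⟨fun i hi =>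
        P.fil.anti (by omega), fun i hi => by
          rw [← P.ach.adic _ (by omega), show i + 2 - 1 = i - 1 + 2 by omega],
        fun i hi u v hv => P.fil.anti (by omega) (P.fil.act u hv), fun i j hi hj u hu v hv =>
          P.fil.anti (by omega) (b2 _ _ (by omega) (by omega) u hu v hv),
        fun i _ => P.fil.opn _, fun i hi => P.ach.ne _ (by omega)⟩ fun i _ => P.fil.anti (by omega))
      have b2 := cod_anti ((hr (r + q + 1) (by omega)).trans (hr (r + q + 2) (by omega)))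
      have b3 := h1 (r + q) (by omega) 1
      simp only [Nat.add_sub_cancel, mul_one] at b2 b3
      omega
    · have b1 : ∀ k, m ≤ k → Φ (2 * k + 1) ≤ Φ (2 * k + 1 + 1) := fun k hk => by
        simpa only [show 2 * m + 1 + 2 * (k - m) = 2 * k + 1 by omega] using (h3 _ hj a (k - m)).ge
      refine hE K L x Φ q h hR.gen P fun k => le_antisymm (fun y hy => P.faith _
        ((eventually_ge_atTop (2 * m)).mono fun n hn v hv => ?_)) (P.fil.anti (by omega))
      obtain ⟨l, rfl | rfl⟩ := n.even_or_odd'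
      · exact P.fil.anti (by omega) (b1 (k + l) (by omega) (P.fil.anti (by omega) (P.fil.lie hy hv)))
      · exact P.fil.anti (by omega) (P.fil.lie hy (b1 l (by omega) hv))
  refine hO K L x Φ q h P fun i hi => ?_
  have a1 := mt (h4 i hi) id
  have a2 := mt (h4 (i + 1) (by omega)) id
  have a3 := h1 i hi 1
  rw [show i + 1 + 1 = i + 2 from rfl] at a2
  simp only [mul_one] at a3
  omega

end Pool.Agent.P78
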