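import Pool.Agent.Lib.MP_78c6b1_al.CA.Defs
import Pool.Agent.Lib.MP_78c6b1_al.Lim.R1P

/-! No second derivation commutes with the generator of weight two when no constant vanishes. -/

namespace Pool.Agent.P78

open Filter Polynomial R1P

namespace P2

variable {K : Type} [Field K]

/-- A functional killing the multiples of `g` extends to a two-sided recurrent sequence. -/
theorem ext_rec (g : K[X]) (hg : g.eval 0 ≠ 0) (ν : K[X] →ₗ[K] K) (hν : ∀ f, ν (g * f) = 0) :
    ∃ A : ℤ → K, Rec A ∧ ∀ n : ℕ, A n = ν (X ^ n) := by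
  have hne : g ≠ 0 := by
    rintro rfl
    simp at hg
  have : Module.Finite K (AdjoinRoot g) := (AdjoinRoot.powerBasis hne).finite
  obtain ⟨σ, hσ⟩ := LinearMap.exists_rightInverse_of_surjective
    (AdjoinRoot.mkₐ g).toLinearMap (LinearMap.range_eq_top.2 (AdjoinRoot.mk_surjective (g := g)))
  let φ : AdjoinRoot g →ₗ[K] K := ν ∘ₗ σ
  have hφ : ∀ f, φ (AdjoinRoot.mk g f) = ν f := by
    intro f
    have h1 : AdjoinRoot.mk g (σ (AdjoinRoot.mk g f)) = AdjoinRoot.mk g f := by
      have h := LinearMap.congr_fun hσ (AdjoinRoot.mk g f)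
      simpa using h
    obtain ⟨p, hp⟩ := AdjoinRoot.mk_eq_mk.1 h1
    simp only [φ, LinearMap.comp_apply]
    rw [sub_eq_iff_eq_add.1 hp, map_add, hν, zero_add]
  obtain ⟨B, hB⟩ : IsUnit (AdjoinRoot.mk g X) := by simpa using isUnit_mk g 0 hg
  refine ⟨_, rec_pow φ 1 B, fun n => ?_⟩
  simp only [zpow_natCast, Units.val_pow_eq_pow_val, one_mul]
  rw [hB, ← map_pow, hφ]

theorem exists_g [CharZero K] (w : ℕ) (hw : 3 ≤ w) :
    ∃ g : K[X], (1 - X ^ w) ^ 2 - (1 - X ^ 2) ^ w = X ^ 2 * g ∧ g.eval 0 ≠ 0 := by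
  obtain ⟨k, hk⟩ := Polynomial.powAddExpansion (1 : K[X]) (-X ^ 2) w
  obtain ⟨v, rfl⟩ : ∃ v, w = v + 3 := ⟨w - 3, by omega⟩
  refine ⟨((v + 3 : ℕ) : K[X]) - 2 * X ^ (v + 1) + X ^ (2 * v + 4) - k * X ^ 2, ?_, ?_⟩
  · rw [sub_eq_add_neg 1 (X ^ 2), hk]
    ring
  · have h : ((v + 3 : ℕ) : K) ≠ 0 := Nat.cast_ne_zero.2 (by omega)
    simpa using h

/-- The columns of the array extend to two-sided recurrent sequences. -/
theorem exists_ext [CharZero K] {q w : ℕ} {c : ℕ → ℕ → K} (hc : Cst2 q c) (hw : 3 ≤ w)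
    (hd : ∀ s t, q ≤ s → q ≤ t → c s t = c (s + w) t + c s (t + w)) :
    ∃ D : ℕ → ℤ → K, ∀ t, q ≤ t → (∀ a : ℤ, Rec fun n => D t (n + a)) ∧
      ∀ s : ℕ, q + 2 ≤ s → D t s = c s t := by
  obtain ⟨g, hg, hg0⟩ := exists_g (K := K) w hw
  let μ : ℕ → K[X] →ₗ[K] K := fun t => (basisMonomials K).constr K fun s => c (q + s) t
  have hμ0 : ∀ t s, μ t (X ^ s) = c (q + s) t := by
    intro t s
    have h := (basisMonomials K).constr_basis K (fun s => c (q + s) t) s
    rw [← monomial_one_right_eq_X_pow]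
    exact h
  have h1 : ∀ a : ℕ, (∀ s t, q ≤ s → q ≤ t → c s t = c (s + a) t + c s (t + a)) →
      ∀ t, q ≤ t → ∀ f, μ t ((1 - X ^ a) * f) = μ (t + a) f := by
    intro a ha t ht f
    induction f using Polynomial.induction_on' with
    | add f g hf hg => rw [mul_add, map_add, map_add, hf, hg]
    | monomial s b =>
      have e : ((1 - X ^ a) * monomial s b : K[X]) = b • (X ^ s - X ^ (s + a)) := by
        rw [← C_mul_X_pow_eq_monomial, smul_eq_C_mul]; ring
      rw [e, ← C_mul_X_pow_eq_monomial, ← smul_eq_C_mul, map_smul, map_smul, map_sub, hμ0, hμ0,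
        hμ0, ha (q + s) t (by omega) ht, ← add_assoc, add_sub_cancel_left]
  have h2 : ∀ a : ℕ, (∀ s t, q ≤ s → q ≤ t → c s t = c (s + a) t + c s (t + a)) →
      ∀ k t, q ≤ t → ∀ f, μ t ((1 - X ^ a) ^ k * f) = μ (t + k * a) f := by
    intro a ha k
    induction k with
    | zero => intro t _ f; simp
    | succ k ih =>
      intro t ht f
      rw [pow_succ', mul_assoc, h1 a ha t ht, ih _ (by omega)]
      congr 2
      ring
  have h3 : ∀ t, ∃ D : ℤ → K, q ≤ t → (∀ a : ℤ, Rec fun n => D (n + a)) ∧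
      ∀ s : ℕ, q + 2 ≤ s → D s = c s t := by
    intro t
    by_cases ht : q ≤ t
    · obtain ⟨A, hA, hA'⟩ := ext_rec g hg0 (μ t ∘ₗ LinearMap.mulLeft K (X ^ 2)) fun f => by
        simp only [LinearMap.comp_apply, LinearMap.mulLeft_apply]
        rw [← mul_assoc, ← hg, sub_mul, map_sub, h2 w hd 2 t ht, h2 2 hc.der w t ht,
          mul_comm w 2, sub_self]
      refine ⟨fun n => A (n - (q + 2 : ℕ)), fun _ => ⟨fun a => ?_, fun s hs => ?_⟩⟩
      · have key : ∀ b : ℤ, Rec fun n => A (n + b) := by
          obtain ⟨W, hW, hW', hAW⟩ := hA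
          intro b
          let L : (ℤ → K) →ₗ[K] (ℤ → K) := LinearMap.funLeft K K fun n => n + b
          refine ⟨W.map L, hW.map L, ?_, ⟨A, hAW, rfl⟩⟩
          rintro _ ⟨_, ⟨f, hf, rfl⟩, rfl⟩
          refine ⟨(sh K).toLinearMap f, hW' ⟨f, hf, rfl⟩, ?_⟩
          funext n
          change f (n + b + 1) = f (n + 1 + b)
          rw [add_right_comm]
        simpa only [add_sub_assoc] using key (a - (q + 2 : ℕ))
      · obtain ⟨n, rfl⟩ := Nat.exists_eq_add_of_le hs
        have e : ((q + 2 + n : ℕ) : ℤ) - (q + 2 : ℕ) = n := by push_cast; ring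
        simp only [e]
        rw [hA', LinearMap.comp_apply, LinearMap.mulLeft_apply, ← pow_add, hμ0, add_assoc]
    · exact ⟨0, fun h => (ht h).elim⟩
  choose D hD using h3
  exact ⟨D, hD⟩

/-- A shift by `w ≥ 3` is not a derivation when no constant vanishes. -/
theorem no_shift [CharZero K] {q w : ℕ} {c : ℕ → ℕ → K} (hc : Cst2 q c)
    (hne : ∀ s t, q ≤ s → s < t → c s t ≠ 0) (hw : 3 ≤ w)
    (hd : ∀ s t, q ≤ s → q ≤ t → c s t = c (s + w) t + c s (t + w)) : False := by
  obtain ⟨D, hD⟩ := exists_ext hc hw hd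
  have hR : ∀ t, q ≤ t → Rec fun n => D t n := fun t ht => by simpa using (hD t ht).1 0
  have hder : ∀ t, q ≤ t → ∀ r : ℤ, D t r = D t (r + 2) + D (t + 2) r := by
    intro t ht r
    have h := (((hR t ht).sub ((hD t ht).1 2)).sub (hR (t + 2) (by omega))).eq_zero (q + 2)
      (fun n hn => by
        obtain ⟨s, rfl⟩ := Int.eq_ofNat_of_zero_le (by omega : 0 ≤ n)
        have e : (s : ℤ) + 2 = ((s + 2 : ℕ) : ℤ) := by push_cast; ring
        rw [e, (hD t ht).2 s (by omega), (hD t ht).2 (s + 2) (by omega),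
          (hD (t + 2) (by omega)).2 s (by omega), hc.der s t (by omega) ht]
        ring) r
    linear_combination h
  have hadd : ∀ s t : ℕ, q + 2 ≤ s → s < t → D (s + t) 0 = D s 0 + D t 0 := by
    intro s t hs hst
    have hs' : q ≤ s := by omega
    have ht' : q ≤ t := by omega
    have h := ((((hR s hs').mul ((hD t ht').1 s)).sub ((hR (s + t) (by omega)).smul (c s t))).sub
      ((hR t ht').mul ((hD s hs').1 t))).eq_zero (q + 2) (fun n hn => by
        obtain ⟨r, rfl⟩ := Int.eq_ofNat_of_zero_le (by omega : 0 ≤ n)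
        have hr : q + 2 ≤ r := by omega
        rw [← Nat.cast_add, ← Nat.cast_add, (hD s hs').2 r hr, (hD t ht').2 (r + s) (by omega),
          (hD (s + t) (by omega)).2 r hr, (hD t ht').2 r hr, (hD s hs').2 (r + t) (by omega),
          hc.jac r s t (by omega) hs' ht', hc.anti s (r + t) hs' (by omega)]
        ring) 0
    simp only [zero_add] at h
    rw [(hD t ht').2 s hs, (hD s hs').2 t (by omega), hc.anti s t hs' ht'] at h
    refine mul_left_cancel₀ (hne s t hs' hst) ?_
    linear_combination -h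
  have h2 : ∀ t, q + 5 ≤ t → D t 2 = D (q + 2) 0 - D (q + 2 + 2) 0 := by
    intro t ht
    have e1 := hadd (q + 2) (t + 2) le_rfl (by omega)
    have e2 := hadd (q + 2 + 2) t (by omega) (by omega)
    have e3 := hder t (by omega) 0
    rw [show q + 2 + 2 + t = q + 2 + (t + 2) by ring] at e2
    rw [zero_add] at e3
    linear_combination e1 - e2 - e3
  have h4 : ∀ j : ℕ, ∀ t, q + 5 ≤ t → D t ((2 * j + 4 : ℕ) : ℤ) = 0 := by
    intro j
    induction j with
    | zero =>
      intro t ht
      have e := hder t (by omega) 2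
      rw [h2 t ht, h2 (t + 2) (by omega)] at e
      have e' : (2 : ℤ) + 2 = ((2 * 0 + 4 : ℕ) : ℤ) := by norm_num
      rw [e'] at e
      linear_combination -e
    | succ j ih =>
      intro t ht
      have e := hder t (by omega) ((2 * j + 4 : ℕ) : ℤ)
      rw [ih t ht, ih (t + 2) (by omega)] at e
      have e' : ((2 * j + 4 : ℕ) : ℤ) + 2 = ((2 * (j + 1) + 4 : ℕ) : ℤ) := by push_cast; ring
      rw [e'] at e
      linear_combination -e
  have h := h4 q (2 * q + 5) (by omega)
  rw [(hD _ (by omega)).2 _ (by omega)] at h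
  exact hne _ _ (by omega) (by omega) h

theorem ne_of_ne {q : ℕ} {c : ℕ → ℕ → K} (hc : Cst2 q c)
    (hne : ∀ s t, q ≤ s → s < t → c s t ≠ 0) {s t : ℕ} (hs : q ≤ s) (ht : q ≤ t) (h : s ≠ t) :
    c s t ≠ 0 := by
  rcases lt_or_gt_of_ne h with h' | h'
  · exact hne s t hs h'
  · rw [hc.anti t s ht hs]
    exact neg_ne_zero.2 (hne t s ht h')

/-- The mixed constants are not periodic with an even period. -/
theorem no_period {q v : ℕ} {c : ℕ → ℕ → K} (hc : Cst2 q c)
    (hne : ∀ s t, q ≤ s → s < t → c s t ≠ 0) (hv : 1 ≤ v)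
    (hp : ∀ e o, q ≤ e → q ≤ o → e % 2 = 0 → o % 2 = 1 → c e o = c e (o + 2 * v)) : False := by
  have h1 : ∀ k e o, q ≤ e → q ≤ o → e % 2 = 0 → o % 2 = 1 → c e (2 * (k * v) + o) = c e o := by
    intro k e o he ho he' ho'
    induction k with
    | zero => simp
    | succ k ih =>
      rw [← ih, hp e (2 * (k * v) + o) he (by omega) he' (by omega)]
      congr 1
      ring
  have h2 : q ≤ q * v := Nat.le_mul_of_pos_right q hv
  have h3 : (q + 1) * v = q * v + v := by ring
  have hj := hc.jac (2 * (q * v)) (2 * ((q + 1) * v)) (2 * q + 1) (by omega) (by omega) (by omega)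
  rw [h1 (q + 1) _ _ (by omega) (by omega) (by omega) (by omega),
    h1 q _ _ (by omega) (by omega) (by omega) (by omega), mul_comm (c (2 * (q * v)) (2 * q + 1)),
    sub_self] at hj
  exact mul_ne_zero (hne _ _ (by omega) (by omega))
    (ne_of_ne hc hne (by omega) (by omega) (by omega)) hj

/-- Rescaling of the odd-odd constants. -/
def tw (l : K) (c : ℕ → ℕ → K) (s t : ℕ) : K := if s % 2 = 1 ∧ t % 2 = 1 then l * c s t else c s t

theorem tw_cst {q : ℕ} {c : ℕ → ℕ → K} (hc : Cst2 q c) (l : K) : Cst2 q (tw l c) where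
  der s t hs ht := by
    have h := hc.der s t hs ht
    simp only [tw, Nat.add_mod_right]
    split_ifs
    · linear_combination l * h
    · exact h
  anti s t hs ht := by
    have h := hc.anti s t hs ht
    simp only [tw, and_comm]
    split_ifs
    · linear_combination l * h
    · exact h
  jac r s t hr hs ht := by
    have h := hc.jac r s t hr hs ht
    rcases Nat.mod_two_eq_zero_or_one r with a | a <;>
      rcases Nat.mod_two_eq_zero_or_one s with b | b <;>
        rcases Nat.mod_two_eq_zero_or_one t with d | d <;>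
          simp only [tw, Nat.add_mod r, Nat.add_mod s, a, b, d] <;> norm_num <;>
            first | exact h | linear_combination l * h

end P2

open P2 in
theorem p2Stmt : P2Stmt := by
  intro K _ _ q w c κ hc hne hw hκ hrel
  have hk : ∀ k t, q ≤ t → κ (t + 2 * k) = κ t := by
    intro k t ht
    induction k with
    | zero => rfl
    | succ k ih => rw [← ih, ← hκ (t + 2 * k) (by omega)]; rfl
  obtain ⟨ke, ko, hE, hO⟩ : ∃ ke ko : K, (∀ t, q ≤ t → t % 2 = 0 → κ t = ke) ∧
      ∀ t, q ≤ t → t % 2 = 1 → κ t = ko := by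
    refine ⟨κ (2 * q), κ (2 * q + 1), fun t ht h => ?_, fun t ht h => ?_⟩
    · rw [← hk q t ht, ← hk (t / 2) (2 * q) (by omega)]
      congr 1
      omega
    · rw [← hk q t ht, ← hk (t / 2) (2 * q + 1) (by omega)]
      congr 1
      omega
  suffices h : ke = ko ∧ (w ≠ 2 → ke = 0) by
    rcases Nat.mod_two_eq_zero_or_one q with a | a
    · rw [hE q le_rfl a, hO (q + 1) (by omega) (by omega)]
      exact ⟨h.1.symm, h.2⟩
    · rw [hO q le_rfl a, hE (q + 1) (by omega) (by omega)]
      exact ⟨h.1, fun h' => h.1 ▸ h.2 h'⟩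
  have hee : ∀ s t, q ≤ s → q ≤ t → s % 2 = 0 → t % 2 = 0 →
      ke * c s t = ke * c (s + w) t + ke * c s (t + w) := fun s t hs ht a b => by
    have h := hrel s t hs ht
    rwa [hE s hs a, hE t ht b, hE (s + t) (by omega) (by omega)] at h
  have heo : ∀ s t, q ≤ s → q ≤ t → s % 2 = 0 → t % 2 = 1 →
      ko * c s t = ke * c (s + w) t + ko * c s (t + w) := fun s t hs ht a b => by
    have h := hrel s t hs ht
    rwa [hE s hs a, hO t ht b, hO (s + t) (by omega) (by omega)] at h
  have hoe : ∀ s t, q ≤ s → q ≤ t → s % 2 = 1 → t % 2 = 0 →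
      ko * c s t = ko * c (s + w) t + ke * c s (t + w) := fun s t hs ht a b => by
    have h := hrel s t hs ht
    rwa [hO s hs a, hE t ht b, hO (s + t) (by omega) (by omega)] at h
  have hoo : ∀ s t, q ≤ s → q ≤ t → s % 2 = 1 → t % 2 = 1 →
      ke * c s t = ko * c (s + w) t + ko * c s (t + w) := fun s t hs ht a b => by
    have h := hrel s t hs ht
    rwa [hO s hs a, hO t ht b, hE (s + t) (by omega) (by omega)] at h
  rcases Nat.mod_two_eq_zero_or_one w with hw2 | hw2
  · obtain ⟨v, rfl⟩ : ∃ v, w = 2 * v := ⟨w / 2, by omega⟩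
    by_cases hv : v = 1
    · subst hv
      refine ⟨?_, fun h => (h rfl).elim⟩
      by_contra h
      refine no_period hc hne le_rfl fun e o he ho a b => ?_
      refine mul_left_cancel₀ (sub_ne_zero.2 h) ?_
      linear_combination ke * hc.der e o he ho - heo e o he ho a b
    · have h0 : ke = 0 := by
        by_contra h
        have hl : Cst q fun i j => c (2 * i) (2 * j) :=
          ⟨fun s t hs ht => hc.der _ _ (by omega) (by omega),
            fun s t hs ht => hc.anti _ _ (by omega) (by omega), fun r s t hr hs ht => by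
              simp only [mul_add]
              exact hc.jac _ _ _ (by omega) (by omega) (by omega)⟩
        have h1 := pStmt K q v _ hl (by omega) fun s t hs ht => by
          simp only [mul_add]
          refine mul_left_cancel₀ h ?_
          linear_combination hee (2 * s) (2 * t) (by omega) (by omega) (by omega) (by omega)
        obtain ⟨t, h2, h3⟩ := (h1.and (eventually_gt_atTop (q + 1))).exists
        exact hne _ _ (by omega) (by omega) h2
      refine ⟨?_, fun _ => h0⟩
      by_contra h
      rw [h0] at h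
      refine no_period hc hne (v := v) (by omega) fun e o he ho a b => ?_
      refine mul_left_cancel₀ (Ne.symm h) ?_
      linear_combination heo e o he ho a b + c (e + 2 * v) o * h0
  · suffices h : ke = 0 ∧ ko = 0 from ⟨h.1.trans h.2.symm, fun _ => h.1⟩
    by_cases h1 : ke = 0
    · refine ⟨h1, ?_⟩
      by_contra h2
      have h3 := heo (2 * q + 1 + w) (2 * q + 1) (by omega) (by omega) (by omega) (by omega)
      have h4 := hc.anti (2 * q + 1 + w) (2 * q + 1 + w) (by omega) (by omega)
      rw [h1, zero_mul, zero_add, CharZero.eq_neg_self_iff.1 h4, mul_zero] at h3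
      exact mul_ne_zero h2 (ne_of_ne hc hne (by omega) (by omega) (by omega)) h3
    · exfalso
      by_cases h2 : ko = 0
      · have h3 := hoo (2 * q + 1) (2 * q + 3) (by omega) (by omega) (by omega) (by omega)
        rw [h2, zero_mul, zero_mul, add_zero] at h3
        exact mul_ne_zero h1 (hne _ _ (by omega) (by omega)) h3
      refine no_shift (tw_cst hc (ke / ko)) (w := w) (fun s t hs ht => ?_) (by omega)
        fun s t hs ht => ?_
      · unfold tw
        split_ifs
        · exact mul_ne_zero (div_ne_zero h1 h2) (hne s t hs ht)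
        · exact hne s t hs ht
      · rcases Nat.mod_two_eq_zero_or_one s with a | a <;>
          rcases Nat.mod_two_eq_zero_or_one t with b | b <;>
            simp only [tw, Nat.add_mod s, Nat.add_mod t, a, b, hw2] <;> norm_num
        · exact mul_left_cancel₀ h1 (by linear_combination hee s t hs ht a b)
        · field_simp
          linear_combination heo s t hs ht a b
        · field_simp
          linear_combination hoe s t hs ht a b
        · field_simp
          linear_combination hoo s t hs ht a b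

end Pool.Agent.P78
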