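import Pool.Agent.Lib.MP_78c6b1_al.CA.Defs
import Pool.Agent.Lib.MP_78c6b1_al.Lim.R1Q2

/-! The tight case of the classification with `X` of weight two gives the Witt subalgebra. -/

namespace Pool.Agent.P78

namespace Q4

variable {K : Type} [Field K] [CharZero K]

theorem alg0 (z w : K) (hz : z ≠ 0) (a2 : z - 2 * w ≠ 0)
    (f1 : 76*z^4 + 348*z^3*w + 23*z^3 - 293*z^2*w + z^2 - 406*z*w^2 - 35*z*w + 266*w^2 = 0)
    (f2 : 6140*z^4 - 59960*z^3*w - 1171*z^3 + 45360*z^2*w^2 + 1504*z^2*w - 99*z^2 +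
      73136*z*w^2 + 2646*z*w - 52920*w^3 - 14896*w^2 = 0)
    (f4 : 2544*z^5 - 6208*z^4*w - 404*z^4 + 3240*z^3*w^2 - 4492*z^3*w - 54*z^3 + 9090*z^2*w^2 +
      1105*z^2*w - z^2 - 3780*z*w^3 + 1401*z*w^2 + 55*z*w - 1890*w^3 - 606*w^2 = 0) :
    z = 1 / 16 ∧ w = 1 / 128 := by
  have h1 : z ^ 2 * (z - 2 * w) ^ 2 * (16 * z - 1) = 0 := by
    linear_combination (-(12491783029/318319092)*z^3 + (9323094772/79579773)*z^2*w +
      (15889208759/2122127280)*z^2 - (58894615/874503)*z*w^2 -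
      (71202830249/1061063640)*z*w + (4011492713/6366381840)*z +
      (1930424047/45474156)*w^2 + (658036627/56842695)*w) * f1 +
      ((773107093/1591595460)*z^3 - (92829875/106106364)*z^2*w -
      (1300880639/6366381840)*z^2 + (852245/1749006)*z*w^2 - (6133380689/6366381840)*z*w -
      (14003573/6366381840)*z + (852245/3498012)*w^2 + (308629787/909483120)*w) * f2 +
      ((350795885/22737078)*z*w + (19278023/22737078)*z - (852245/124929)*w^2 -
      (10589023/3248154)*w) * f4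
  have h2 : 16 * z - 1 = 0 :=
    (mul_eq_zero.1 h1).resolve_left (mul_ne_zero (pow_ne_zero 2 hz) (pow_ne_zero 2 a2))
  have h3 : z = 1 / 16 := by linear_combination (1 / 16 : K) * h2
  refine ⟨h3, ?_⟩
  rw [h3] at f1 f2
  linear_combination (1 / 128 : K) * ((11534336 / 5075) * w + 89489408 / 191835) * f1 +
    (1 / 128 : K) * (1982464 / 191835) * f2

theorem alg1 (p1 p2 p3 p4 p5 z w : K) (hz : z ≠ 0) (hw : w ≠ 0) (a1 : 1 - 2 * z ≠ 0)
    (a2 : z - 2 * w ≠ 0) (a3 : 1 - 4 * z + 3 * w ≠ 0)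
    (d12 : p2 * (1 - z) - p1 * z = 1) (d13 : p3 * (1 - 2 * z) = 9 / 10)
    (d14 : p4 * (1 - 3 * z + w) + p1 * w = 4 / 5 * (1 - z))
    (d23 : p3 * (z - w) - p2 * w = 4 / 5 * z)
    (d15 : p5 * (1 - 4 * z + 3 * w) + p1 * w = 5 / 7 * (1 - 2 * z))
    (d24 : p4 * (z - 2 * w) = 5 / 7 * z)
    (e : (p3 - 2 * p4 + p5) + z * (p1 - 4 * p2 + 6 * p3 - 4 * p4 + p5) =
      p2 - 3 * p3 + 3 * p4 - p5)
    (a : p1 - 3 * p2 + 3 * p3 - p4 = (p1 - p2) * p4 - p1 * (p3 - p4)) :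
    p1 = -4 ∧ p2 = 4 / 5 ∧ p3 = 36 / 35 := by
  have e3 : p3 = (9 / 10) / (1 - 2 * z) := eq_div_of_mul_eq a1 d13
  have e4 : p4 = (5 / 7 * z) / (z - 2 * w) := eq_div_of_mul_eq a2 d24
  have e2 : p2 = (p3 * (z - w) - 4 / 5 * z) / w :=
    eq_div_of_mul_eq hw (by linear_combination -d23)
  have e1 : p1 = (4 / 5 * (1 - z) - p4 * (1 - 3 * z + w)) / w :=
    eq_div_of_mul_eq hw (by linear_combination d14)
  have e5 : p5 = (5 / 7 * (1 - 2 * z) - p1 * w) / (1 - 4 * z + 3 * w) :=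
    eq_div_of_mul_eq a3 (by linear_combination d15)
  have a1' : 1 - z * 2 ≠ 0 := mul_comm 2 z ▸ a1
  have a2' : z - w * 2 ≠ 0 := mul_comm 2 w ▸ a2
  have a3' : 1 - z * 4 + w * 3 ≠ 0 := mul_comm 4 z ▸ mul_comm 3 w ▸ a3
  obtain ⟨h1, h2⟩ := alg0 z w hz a2
    (by
      linear_combination (norm := skip) 70 * w * (1 - 2 * z) * (z - 2 * w) * d12
      rw [e2, e1, e3, e4]
      field_simp
      ring)
    (by
      linear_combination (norm := skip) -2450 * w * (1 - 2 * z) * (z - 2 * w) ^ 2 * a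
      rw [e2, e1, e3, e4]
      field_simp
      ring)
    (by
      linear_combination (norm := skip)
        70 * w * (1 - 2 * z) * (z - 2 * w) * (1 - 4 * z + 3 * w) * e
      rw [e5, e2, e1, e3, e4]
      field_simp
      ring)
  rw [h1, h2] at d14 d23 d24
  rw [h1] at d13
  have g3 : p3 = 36 / 35 := by linear_combination (8 / 7 : K) * d13
  have g4 : p4 = 20 / 21 := by linear_combination (64 / 3 : K) * d24
  rw [g3] at d23
  rw [g4] at d14
  exact ⟨by linear_combination (128 : K) * d14, by linear_combination (-128 : K) * d23, g3⟩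

theorem alg2 (x b p1 p2 p3 p4 p5 z w : K) (hx : x ≠ 0) (hb : b ≠ 0) (hz : z ≠ 0) (hw : w ≠ 0)
    (a1 : b - 2 * z ≠ 0) (a2 : z - 2 * w ≠ 0) (a3 : b - 4 * z + 3 * w ≠ 0)
    (d12 : p2 * (b - z) - p1 * z = b * x) (d13 : p3 * (b - 2 * z) = 9 / 10 * (b * x))
    (d14 : p4 * (b - 3 * z + w) + p1 * w = 4 / 5 * ((b - z) * x))
    (d23 : p3 * (z - w) - p2 * w = 4 / 5 * (z * x))
    (d15 : p5 * (b - 4 * z + 3 * w) + p1 * w = 5 / 7 * ((b - 2 * z) * x))
    (d24 : p4 * (z - 2 * w) = 5 / 7 * (z * x))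
    (e : b * (p3 - 2 * p4 + p5) + z * (p1 - 4 * p2 + 6 * p3 - 4 * p4 + p5) =
      b * (p2 - 3 * p3 + 3 * p4 - p5))
    (a : x * (p1 - 3 * p2 + 3 * p3 - p4) = (p1 - p2) * p4 - p1 * (p3 - p4)) :
    p1 = -4 * x ∧ p2 = 4 / 5 * x ∧ p3 = 36 / 35 * x := by
  obtain ⟨p1, rfl⟩ : ∃ q, p1 = q * x := ⟨p1 / x, by field_simp⟩
  obtain ⟨p2, rfl⟩ : ∃ q, p2 = q * x := ⟨p2 / x, by field_simp⟩
  obtain ⟨p3, rfl⟩ : ∃ q, p3 = q * x := ⟨p3 / x, by field_simp⟩
  obtain ⟨p4, rfl⟩ : ∃ q, p4 = q * x := ⟨p4 / x, by field_simp⟩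
  obtain ⟨p5, rfl⟩ : ∃ q, p5 = q * x := ⟨p5 / x, by field_simp⟩
  obtain ⟨z, rfl⟩ : ∃ q, z = q * b := ⟨z / b, by field_simp⟩
  obtain ⟨w, rfl⟩ : ∃ q, w = q * b := ⟨w / b, by field_simp⟩
  have hbx := mul_ne_zero hb hx
  have hxx := mul_ne_zero hx hx
  obtain ⟨h1, h2, h3⟩ := alg1 p1 p2 p3 p4 p5 z w (left_ne_zero_of_mul hz) (left_ne_zero_of_mul hw)
    (fun h => a1 (by linear_combination b * h)) (fun h => a2 (by linear_combination b * h))
    (fun h => a3 (by linear_combination b * h))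
    (mul_left_cancel₀ hbx (by linear_combination d12))
    (mul_left_cancel₀ hbx (by linear_combination d13))
    (mul_left_cancel₀ hbx (by linear_combination d14))
    (mul_left_cancel₀ hbx (by linear_combination d23))
    (mul_left_cancel₀ hbx (by linear_combination d15))
    (mul_left_cancel₀ hbx (by linear_combination d24))
    (mul_left_cancel₀ hbx (by linear_combination e))
    (mul_left_cancel₀ hxx (by linear_combination a))
  rw [h1, h2, h3]
  exact ⟨rfl, rfl, rfl⟩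

variable {c : ℕ → ℕ → K}

theorem diag (h : Cst2 3 c) (s : ℕ) (hs : 3 ≤ s) : c s s = 0 := by
  have := h.anti s s hs hs
  linear_combination (1 / 2 : K) * this

omit [CharZero K] in
theorem right (h : Cst2 3 c) (s t : ℕ) (hs : 3 ≤ s) (ht : 3 ≤ t) :
    c s (t + 2) = c s t - c (s + 2) t := by
  have := h.der s t hs ht
  linear_combination -this

omit [CharZero K] in
theorem left (h : Cst2 3 c) (s t : ℕ) (hs : 3 ≤ s) (ht : 3 ≤ t) :
    c (s + 2) t = c s t - c s (t + 2) := by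
  have := h.der s t hs ht
  linear_combination -this

theorem d4 (h : Cst2 3 c) (s : ℕ) (hs : 3 ≤ s) : c s (s + 4) = c s (s + 2) := by
  have h1 := right h s (s + 2) hs (by omega)
  have h2 := diag h (s + 2) (by omega)
  linear_combination h1 - h2

theorem d6 (h : Cst2 3 c) (s : ℕ) (hs : 3 ≤ s) :
    c s (s + 6) = c s (s + 2) - c (s + 2) (s + 4) := by
  have h1 := right h s (s + 4) hs (by omega)
  have h2 := d4 h s hs
  linear_combination h1 + h2

theorem d8 (h : Cst2 3 c) (s : ℕ) (hs : 3 ≤ s) :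
    c s (s + 8) = c s (s + 2) - 2 * c (s + 2) (s + 4) := by
  have h1 := right h s (s + 6) hs (by omega)
  have h2 := d6 h s hs
  have h3 : c (s + 2) (s + 6) = _ := d4 h (s + 2) (by omega)
  linear_combination h1 + h2 - h3

theorem d10 (h : Cst2 3 c) (s : ℕ) (hs : 3 ≤ s) :
    c s (s + 10) = c s (s + 2) - 3 * c (s + 2) (s + 4) + c (s + 4) (s + 6) := by
  have h1 := right h s (s + 8) hs (by omega)
  have h2 := d8 h s hs
  have h3 : c (s + 2) (s + 8) = _ := d6 h (s + 2) (by omega)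
  linear_combination h1 + h2 - h3

theorem d12 (h : Cst2 3 c) (s : ℕ) (hs : 3 ≤ s) :
    c s (s + 12) = c s (s + 2) - 4 * c (s + 2) (s + 4) + 3 * c (s + 4) (s + 6) := by
  have h1 := right h s (s + 10) hs (by omega)
  have h2 := d10 h s hs
  have h3 : c (s + 2) (s + 10) = _ := d8 h (s + 2) (by omega)
  linear_combination h1 + h2 - h3

omit [CharZero K] in
theorem l4 (h : Cst2 3 c) (s t : ℕ) (hs : 3 ≤ s) (ht : 3 ≤ t) :
    c (s + 4) t = c s t - 2 * c s (t + 2) + c s (t + 4) := by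
  have h1 := left h (s + 2) t (by omega) ht
  have h2 := left h s t hs ht
  have h3 := left h s (t + 2) hs (by omega)
  linear_combination h1 + h2 - h3

omit [CharZero K] in
theorem l6 (h : Cst2 3 c) (s t : ℕ) (hs : 3 ≤ s) (ht : 3 ≤ t) :
    c (s + 6) t = c s t - 3 * c s (t + 2) + 3 * c s (t + 4) - c s (t + 6) := by
  have h1 := left h (s + 4) t (by omega) ht
  have h2 := l4 h s t hs ht
  have h3 := l4 h s (t + 2) hs (by omega)
  linear_combination h1 + h2 - h3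

omit [CharZero K] in
theorem l8 (h : Cst2 3 c) (s t : ℕ) (hs : 3 ≤ s) (ht : 3 ≤ t) :
    c (s + 8) t = c s t - 4 * c s (t + 2) + 6 * c s (t + 4) - 4 * c s (t + 6) + c s (t + 8) := by
  have h1 := left h (s + 6) t (by omega) ht
  have h2 := l6 h s t hs ht
  have h3 := l6 h s (t + 2) hs (by omega)
  linear_combination h1 + h2 - h3

omit [CharZero K] in
theorem jac46 (h : Cst2 3 c) (t : ℕ) (ht : 3 ≤ t) :
    c 4 6 * (c 4 t - 3 * c 4 (t + 2) + 3 * c 4 (t + 4) - c 4 (t + 6)) =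
      (c 4 t - c 4 (t + 2)) * c 4 (t + 6) - c 4 t * (c 4 (t + 4) - c 4 (t + 6)) := by
  have j : c 4 6 * c 10 t = c 6 t * c 4 (6 + t) - c 4 t * c 6 (4 + t) :=
    h.jac 4 6 t (by norm_num) (by norm_num) ht
  rw [add_comm 6 t, add_comm 4 t] at j
  have a1 : c 10 t = _ := l6 h 4 t (by norm_num) ht
  have a2 : c 6 t = _ := left h 4 t (by norm_num) ht
  have a3 : c 6 (t + 4) = c 4 (t + 4) - c 4 (t + 6) := left h 4 (t + 4) (by norm_num) (by omega)
  rw [a1, a2, a3] at j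
  exact j

omit [CharZero K] in
theorem even_cst (h : Cst2 3 c) : Cst 2 fun i j => c (2 * i) (2 * j) where
  der s t hs ht := h.der (2 * s) (2 * t) (by omega) (by omega)
  anti s t hs ht := h.anti (2 * s) (2 * t) (by omega) (by omega)
  jac r s t hr hs ht := by
    simp only [mul_add]
    exact h.jac (2 * r) (2 * s) (2 * t) (by omega) (by omega) (by omega)

theorem row4_even (h : Cst2 3 c) (hn : ∀ s t, 3 ≤ s → s < t → c s t ≠ 0) (m : ℕ) (hm : 2 ≤ m) :
    c 4 (2 * m) * (((m : K) - 1) * m) = 6 * c 4 6 * (m - 2) := by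
  obtain ⟨β, h0, h1, h2⟩ := q2Stmt K _ (even_cst h) ⟨4, by norm_num, hn 6 8 (by norm_num) (by norm_num)⟩
  have key : ∀ m : ℕ, 2 ≤ m → β 2 * (c 4 (2 * m) * (((m : K) - 1) * m)) = m - 2 := by
    intro m hm
    have a1 : β 2 * β m * c 4 (2 * m) = _ := h2 2 m le_rfl hm
    have a2 := h1 m hm
    have a3 := h1 (m + 1) (by omega)
    rw [add_comm 2 m, a2, a3] at a1
    apply mul_left_cancel₀ (h0 (m + 2))
    push_cast at a1
    linear_combination a1
  have a1 := key m hm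
  have a2 : β 2 * (c 4 6 * _) = _ := key 3 (by norm_num)
  apply mul_left_cancel₀ (h0 2)
  push_cast at a2
  linear_combination a1 - ((m : K) - 2) * a2

theorem low (h : Cst2 3 c) (hn : ∀ s t, 3 ≤ s → s < t → c s t ≠ 0) :
    c 4 3 = -4 * c 4 6 ∧ c 4 5 = 4 / 5 * c 4 6 ∧ c 4 7 = 36 / 35 * c 4 6 := by
  have n3 : (3 : ℕ) ≤ 3 := by norm_num
  have n4 : (3 : ℕ) ≤ 4 := by norm_num
  have n5 : (3 : ℕ) ≤ 5 := by norm_num
  have n7 : (3 : ℕ) ≤ 7 := by norm_num
  have n9 : (3 : ℕ) ≤ 9 := by norm_num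
  have g8 : c 4 8 = c 4 6 := d4 h 4 n4
  have g10 : c 4 10 = 9 / 10 * c 4 6 := by
    have a : c 4 10 * _ = _ := row4_even h hn 5 (by norm_num)
    push_cast at a
    linear_combination (1 / 20 : K) * a
  have g12 : c 4 12 = 4 / 5 * c 4 6 := by
    have a : c 4 12 * _ = _ := row4_even h hn 6 (by norm_num)
    push_cast at a
    linear_combination (1 / 30 : K) * a
  have g14 : c 4 14 = 5 / 7 * c 4 6 := by
    have a : c 4 14 * _ = _ := row4_even h hn 7 (by norm_num)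
    push_cast at a
    linear_combination (1 / 42 : K) * a
  have b37 : c 3 7 = c 3 5 := d4 h 3 n3
  have b39 : c 3 9 = c 3 5 - c 5 7 := d6 h 3 n3
  have b311 : c 3 11 = c 3 5 - 2 * c 5 7 := d8 h 3 n3
  have b313 : c 3 13 = c 3 5 - 3 * c 5 7 + c 7 9 := d10 h 3 n3
  have b315 : c 3 15 = c 3 5 - 4 * c 5 7 + 3 * c 7 9 := d12 h 3 n3
  have b59 : c 5 9 = c 5 7 := d4 h 5 n5
  have b511 : c 5 11 = c 5 7 - c 7 9 := d6 h 5 n5
  have b513 : c 5 13 = c 5 7 - 2 * c 7 9 := d8 h 5 n5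
  have b711 : c 7 11 = c 7 9 := d4 h 7 n7
  refine alg2 (c 4 6) (c 3 5) (c 4 3) (c 4 5) (c 4 7) (c 4 9) (c 4 11) (c 5 7) (c 7 9)
    (hn 4 6 n4 (by norm_num)) (hn 3 5 n3 (by norm_num)) (hn 5 7 n5 (by norm_num))
    (hn 7 9 n7 (by norm_num)) (b311 ▸ hn 3 11 n3 (by norm_num))
    (b513 ▸ hn 5 13 n5 (by norm_num)) (b315 ▸ hn 3 15 n3 (by norm_num)) ?_ ?_ ?_ ?_ ?_ ?_ ?_ ?_
  · have j : c 4 3 * c 7 5 = c 3 5 * c 4 8 - c 4 5 * c 3 9 := h.jac 4 3 5 n4 n3 n5
    rw [h.anti 5 7 n5 n7, g8, b39] at j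
    linear_combination j
  · have j : c 4 3 * c 7 7 = c 3 7 * c 4 10 - c 4 7 * c 3 11 := h.jac 4 3 7 n4 n3 n7
    rw [diag h 7 n7, g10, b37, b311] at j
    linear_combination j
  · have j : c 4 3 * c 7 9 = c 3 9 * c 4 12 - c 4 9 * c 3 13 := h.jac 4 3 9 n4 n3 n9
    rw [g12, b39, b313] at j
    linear_combination j
  · have j : c 4 5 * c 9 7 = c 5 7 * c 4 12 - c 4 7 * c 5 11 := h.jac 4 5 7 n4 n5 n7
    rw [h.anti 7 9 n7 n9, g12, b511] at j
    linear_combination j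
  · have j : c 4 3 * c 7 11 = c 3 11 * c 4 14 - c 4 11 * c 3 15 :=
      h.jac 4 3 11 n4 n3 (by norm_num)
    rw [b711, g14, b311, b315] at j
    linear_combination j
  · have j : c 4 5 * c 9 9 = c 5 9 * c 4 14 - c 4 9 * c 5 13 := h.jac 4 5 9 n4 n5 n9
    rw [diag h 9 n9, g14, b59, b513] at j
    linear_combination j
  · have j : c 3 5 * c 8 7 = c 5 7 * c 3 12 - c 3 7 * c 5 10 := h.jac 3 5 7 n3 n5 n7
    have a1 : c 8 7 = c 4 7 - 2 * c 4 9 + c 4 11 := l4 h 4 7 n4 n7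
    have a2 : c 12 3 = c 4 3 - 4 * c 4 5 + 6 * c 4 7 - 4 * c 4 9 + c 4 11 := l8 h 4 3 n4 n3
    have a3 : c 10 5 = c 4 5 - 3 * c 4 7 + 3 * c 4 9 - c 4 11 := l6 h 4 5 n4 n5
    rw [h.anti 12 3 (by norm_num) n3, h.anti 10 5 (by norm_num) n5, a1, a2, a3, b37] at j
    linear_combination j
  · exact jac46 h 3 n3

theorem nz (n k : ℕ) (hk : 0 < k) : (n : K) + k ≠ 0 := by
  have : ((n + k : ℕ) : K) ≠ 0 := Nat.cast_ne_zero.mpr (by omega)
  simpa using this

theorem step4 (x T a0 a1 a2 a3 : K) (hx : x ≠ 0) (m2 : T - 2 ≠ 0) (t0 : T ≠ 0) (p2 : T + 2 ≠ 0)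
    (p4 : T + 4 ≠ 0) (p6 : T + 6 ≠ 0) (m4 : T - 4 ≠ 0) (p10 : T + 10 ≠ 0)
    (h0 : a0 * ((T - 2) * T) = 12 * x * (T - 4)) (h1 : a1 * (T * (T + 2)) = 12 * x * (T - 2))
    (h2 : a2 * ((T + 2) * (T + 4)) = 12 * x * T)
    (j : x * (a0 - 3 * a1 + 3 * a2 - a3) = (a0 - a1) * a3 - a0 * (a2 - a3)) :
    a3 * ((T + 4) * (T + 6)) = 12 * x * (T + 2) := by
  have e0 : a0 = 12 * x * (T - 4) / ((T - 2) * T) := eq_div_of_mul_eq (mul_ne_zero m2 t0) h0
  have e1 : a1 = 12 * x * (T - 2) / (T * (T + 2)) := eq_div_of_mul_eq (mul_ne_zero t0 p2) h1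
  have e2 : a2 = 12 * x * T / ((T + 2) * (T + 4)) := eq_div_of_mul_eq (mul_ne_zero p2 p4) h2
  have hco : x + 2 * a0 - a1 = x * ((T - 4) * (T + 6) * (T + 10)) / ((T - 2) * T * (T + 2)) := by
    rw [e0, e1]
    field_simp
    ring
  have hne : x + 2 * a0 - a1 ≠ 0 := by
    rw [hco]
    exact div_ne_zero (mul_ne_zero hx (mul_ne_zero (mul_ne_zero m4 p6) p10))
      (mul_ne_zero (mul_ne_zero m2 t0) p2)
  have key : (x + 2 * a0 - a1) * a3 = x * (a0 - 3 * a1 + 3 * a2) + a0 * a2 := by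
    linear_combination -j
  have key2 : (x + 2 * a0 - a1) * (12 * x * (T + 2) / ((T + 4) * (T + 6))) =
      x * (a0 - 3 * a1 + 3 * a2) + a0 * a2 := by
    rw [e0, e1, e2]
    field_simp
    ring
  rw [mul_left_cancel₀ hne (key.trans key2.symm)]
  field_simp

theorem row4_odd (h : Cst2 3 c) (hn : ∀ s t, 3 ≤ s → s < t → c s t ≠ 0) (k : ℕ) :
    c 4 (2 * k + 3) * ((2 * (k : K) + 1) * (2 * k + 3)) = 12 * c 4 6 * (2 * k - 1) := by
  obtain ⟨l3, l5, l7⟩ := low h hn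
  induction k using Nat.strong_induction_on with
  | _ k ih =>
  match k, ih with
  | 0, _ => norm_num [l3]; ring
  | 1, _ => norm_num [l5]; ring
  | 2, _ => norm_num [l7]; ring
  | n + 3, ih =>
    have i0 := ih n (by omega)
    have i1 : c 4 (2 * n + 3 + 2) * _ = _ := ih (n + 1) (by omega)
    have i2 : c 4 (2 * n + 3 + 4) * _ = _ := ih (n + 2) (by omega)
    have z : ∀ k : ℕ, 0 < k → 2 * (n : K) + k ≠ 0 := fun k hk => by
      have := nz (K := K) (2 * n) k hk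
      push_cast at this
      exact this
    have m4 : 2 * (n : K) + 3 - 4 ≠ 0 := fun e => by
      have e1 : ((2 * n : ℕ) : K) = (1 : ℕ) := by
        push_cast
        linear_combination e
      have e2 := Nat.cast_injective e1
      omega
    have s := step4 (c 4 6) (2 * (n : K) + 3) _ _ _ _ (hn 4 6 (by norm_num) (by norm_num))
      (fun e => z 1 (by norm_num) (by push_cast; linear_combination e))
      (fun e => z 3 (by norm_num) (by push_cast; linear_combination e))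
      (fun e => z 5 (by norm_num) (by push_cast; linear_combination e))
      (fun e => z 7 (by norm_num) (by push_cast; linear_combination e))
      (fun e => z 9 (by norm_num) (by push_cast; linear_combination e)) m4
      (fun e => z 13 (by norm_num) (by push_cast; linear_combination e))
      (by linear_combination i0) (by push_cast at i1; linear_combination i1)
      (by push_cast at i2; linear_combination i2) (jac46 h (2 * n + 3) (by omega))
    rw [show 2 * (n + 3) + 3 = 2 * n + 3 + 6 by ring]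
    push_cast
    linear_combination s

theorem row4 (h : Cst2 3 c) (hn : ∀ s t, 3 ≤ s → s < t → c s t ≠ 0) (t : ℕ) (ht : 3 ≤ t) :
    c 4 t * (((t : K) - 2) * t) = 12 * c 4 6 * (t - 4) := by
  obtain ⟨m, rfl | rfl⟩ := Nat.even_or_odd' t
  · have a := row4_even h hn m (by omega)
    push_cast
    linear_combination 4 * a
  · obtain ⟨k, rfl⟩ : ∃ k, m = k + 1 := ⟨m - 1, by omega⟩
    have a : c 4 (2 * (k + 1) + 1) * _ = _ := row4_odd h hn k
    push_cast
    linear_combination a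

/-- The scaling factors, with the index shifted by three. -/
def bet (l b : K) : ℕ → K
  | 0 => l
  | 1 => b
  | n + 2 => l * bet l b n / ((n : K) + 1)

theorem bet_ne {l b : K} (hl : l ≠ 0) (hb : b ≠ 0) : ∀ n, bet l b n ≠ 0
  | 0 => hl
  | 1 => hb
  | n + 2 => div_ne_zero (mul_ne_zero hl (bet_ne hl hb n)) (Nat.cast_add_one_ne_zero n)

theorem bet_rec (l b : K) (s : ℕ) (hs : 3 ≤ s) :
    l * bet l b (s - 3) = ((s : K) - 2) * bet l b (s + 2 - 3) := by
  obtain ⟨n, rfl⟩ : ∃ n, s = n + 3 := ⟨s - 3, by omega⟩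
  have h1 : ((n : K) + 1) ≠ 0 := Nat.cast_add_one_ne_zero n
  rw [show n + 3 + 2 - 3 = n + 2 by omega, Nat.add_sub_cancel, bet]
  push_cast
  field_simp
  ring

section Witt

variable {l : K} {β : ℕ → K}

theorem m2_ne (s : ℕ) (hs : 3 ≤ s) : (s : K) - 2 ≠ 0 := fun e => by
  have e1 : (s : K) = (2 : ℕ) := by
    push_cast
    linear_combination e
  have e2 := Nat.cast_injective e1
  omega

theorem up (h : Cst2 3 c) (hr : ∀ s, 3 ≤ s → l * β s = ((s : K) - 2) * β (s + 2)) {s t : ℕ}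
    (hs : 3 ≤ s) (ht : 3 ≤ t) (i0 : β s * β t * c s t = ((t : K) - s) * β (s + t))
    (i1 : β s * β (t + 2) * c s (t + 2) = (((t + 2 : ℕ) : K) - s) * β (s + (t + 2))) :
    β (s + 2) * β t * c (s + 2) t = ((t : K) - (s + 2 : ℕ)) * β (s + 2 + t) := by
  have e1 := hr s hs
  have e2 := hr t ht
  have e3 := hr (s + t) (by omega)
  rw [← add_assoc] at i1
  rw [left h s t hs ht, add_right_comm s 2 t]
  apply mul_left_cancel₀ (m2_ne (K := K) s hs)
  push_cast at i1 e3 ⊢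
  linear_combination l * i0 - ((t : K) - 2) * i1 - β t * (c s t - c s (t + 2)) * e1 -
    β s * c s (t + 2) * e2 + ((t : K) - s) * e3

omit [CharZero K] in
theorem step3 (a T p g A0 A2 A4 u y : K) (ha : a ≠ 0) (p1 : T + 1 ≠ 0) (p3 : T + 3 ≠ 0)
    (hq : T ^ 2 - 5 * T + 12 ≠ 0) (hp : p * ((T - 2) * T) = 3 * a * (T - 4))
    (hg : g * ((T + 1) * (T + 3)) = 3 * a * (T - 1))
    (h0 : (T - 2) * T * u * A0 = (T - 3) * (T + 1) * (T + 3) * y)
    (h2 : T * u * A2 = (T - 1) * (T + 3) * y)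
    (j : -a * (A0 - 2 * A2 + A4) = A0 * g - p * A4) : u * A4 = (T + 1) * y := by
  apply mul_left_cancel₀ (mul_ne_zero (mul_ne_zero ha hq) (mul_ne_zero p1 p3))
  linear_combination (-(u * ((T - 2) * T) * ((T + 1) * (T + 3)))) * j +
    u * A4 * ((T + 1) * (T + 3)) * hp - ((T - 2) * T * u * A0) * hg -
    (3 * a * (T - 1) + a * ((T + 1) * (T + 3))) * h0 +
    2 * a * (T - 2) * ((T + 1) * (T + 3)) * h2

theorem quad_ne (t : ℕ) : (t : K) ^ 2 - 5 * t + 12 ≠ 0 := fun e => by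
  have e1 : ((t ^ 2 + 12 : ℕ) : K) = (5 * t : ℕ) := by
    push_cast
    linear_combination e
  have e2 := Nat.cast_injective e1
  nlinarith [sq_nonneg ((t : ℤ) - 3), sq_nonneg ((t : ℤ) - 2)]

end Witt

end Q4

open Q4 in
theorem q4Stmt : Q4Stmt := by
  intro K _ _ c h hn
  have n3 : (3 : ℕ) ≤ 3 := le_rfl
  have n4 : (3 : ℕ) ≤ 4 := by norm_num
  have hx := hn 4 6 n4 (by norm_num)
  have hb := hn 3 5 n3 (by norm_num)
  obtain ⟨l, hl⟩ : ∃ l : K, l = 48 * c 4 6 * c 3 5 := ⟨_, rfl⟩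
  have hl0 : l ≠ 0 := hl ▸ mul_ne_zero (mul_ne_zero (by norm_num) hx) hb
  have hB0 : l ^ 2 / (12 * c 4 6) ≠ 0 :=
    div_ne_zero (pow_ne_zero 2 hl0) (mul_ne_zero (by norm_num) hx)
  obtain ⟨β, h0, hr, b3, b4⟩ : ∃ β : ℕ → K, (∀ s, β s ≠ 0) ∧
      (∀ s, 3 ≤ s → l * β s = ((s : K) - 2) * β (s + 2)) ∧ β 3 = l ∧
      β 4 * (12 * c 4 6) = l ^ 2 :=
    ⟨fun s => bet l (l ^ 2 / (12 * c 4 6)) (s - 3), fun s => bet_ne hl0 hB0 _,
      fun s hs => bet_rec _ _ s hs, rfl,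
      div_mul_cancel₀ _ (mul_ne_zero (by norm_num) hx)⟩
  refine ⟨l, β, hl0, h0, hr, ?_⟩
  have w4 : ∀ t, 3 ≤ t → β 4 * β t * c 4 t = ((t : K) - (4 : ℕ)) * β (4 + t) := by
    intro t ht
    have r := row4 h hn t ht
    have e1 := hr t ht
    have e2 := hr (t + 2) (by omega)
    have t0 : (t : K) ≠ 0 := Nat.cast_ne_zero.2 (by omega)
    rw [show 4 + t = t + 2 + 2 by omega]
    apply mul_left_cancel₀ (mul_ne_zero (m2_ne (K := K) t ht) t0)
    push_cast at e2 ⊢
    linear_combination β 4 * β t * r + β t * ((t : K) - 4) * b4 + l * ((t : K) - 4) * e1 +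
      ((t : K) - 4) * ((t : K) - 2) * e2
  have sw : ∀ s t, 3 ≤ s → 3 ≤ t → β s * β t * c s t = ((t : K) - s) * β (s + t) →
      β t * β s * c t s = ((s : K) - t) * β (t + s) := by
    intro s t hs ht e
    rw [h.anti s t hs ht, add_comm t s]
    linear_combination -e
  have w3 : ∀ t, 3 ≤ t → β 3 * β t * c 3 t = ((t : K) - (3 : ℕ)) * β (3 + t) := by
    intro t
    induction t using Nat.strong_induction_on with
    | _ t ih =>
    intro ht
    by_cases hs : t ≤ 6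
    · interval_cases t
      · rw [diag h 3 n3]
        simp
      · exact sw 4 3 n4 n3 (w4 3 n3)
      · have e3 : l * β 3 = _ * β 5 := hr 3 n3
        have e4 : l * β 4 = _ * β 6 := hr 4 n4
        have e6 : l * β 6 = _ * β 8 := hr 6 (by norm_num)
        change _ = _ * β 8
        apply mul_left_cancel₀ (mul_ne_zero (by norm_num : (48 : K) ≠ 0) hx)
        rw [b3] at e3 ⊢
        push_cast at e3 e4 e6 ⊢
        linear_combination (-(l * β 5)) * hl - l ^ 2 * e3 - l ^ 2 * b4 +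
          12 * c 4 6 * l * e4 + 24 * c 4 6 * e6
      · exact sw 6 3 (by norm_num) n3 (up h hr n4 n3 (w4 3 n3) (w4 5 (by norm_num)))
    · obtain ⟨n, rfl⟩ : ∃ n, t = n + 4 := ⟨t - 4, by omega⟩
      have hn3 : 3 ≤ n := by omega
      have i0 := ih n (by omega) hn3
      have i2 := ih (n + 2) (by omega) (by omega)
      have j : c 4 3 * c 7 n = c 3 n * c 4 (3 + n) - c 4 n * c 3 (4 + n) := h.jac 4 3 n n4 n3 hn3
      have a7 : c 7 n = _ := l4 h 3 n n3 hn3
      have l3 := (low h hn).1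
      rw [a7, l3, add_comm 3 n, add_comm 4 n] at j
      have rp := row4 h hn n hn3
      have rg := row4 h hn (n + 3) (by omega)
      have e0 := hr n hn3
      have e2 : l * β (n + 2) = _ * β (n + 4) := hr (n + 2) (by omega)
      have e3 : l * β (n + 3) = _ * β (n + 5) := hr (n + 3) (by omega)
      have e5 : l * β (n + 5) = _ * β (n + 7) := hr (n + 5) (by omega)
      rw [add_comm 3 n] at i0
      rw [show 3 + (n + 2) = n + 5 by omega] at i2
      rw [show 3 + (n + 4) = n + 7 by omega]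
      push_cast at i0 i2 rg e2 e3 e5 ⊢
      have s := step3 (4 * c 4 6) (n : K) (c 4 n) (c 4 (n + 3)) (c 3 n) (c 3 (n + 2)) (c 3 (n + 4))
        (β 3 * β (n + 4)) (β (n + 7)) (mul_ne_zero (by norm_num) hx)
        (Nat.cast_add_one_ne_zero n) (by exact_mod_cast nz (K := K) n 3 (by norm_num)) (quad_ne n)
        (by linear_combination rp) (by linear_combination rg)
        (by
          linear_combination l ^ 2 * i0 - β 3 * c 3 n * l * e0 -
            β 3 * c 3 n * ((n : K) - 2) * e2 + ((n : K) - 3) * l * e3 +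
            ((n : K) - 3) * ((n : K) + 1) * e5)
        (by linear_combination l * i2 - β 3 * c 3 (n + 2) * e2 + ((n : K) - 1) * e5)
        (by linear_combination j)
      linear_combination s
  intro s
  induction s using Nat.strong_induction_on with
  | _ s ih =>
  intro t hs ht
  by_cases h4 : s ≤ 4
  · interval_cases s
    · exact w3 t ht
    · exact w4 t ht
  · obtain ⟨n, rfl⟩ : ∃ n, s = n + 2 := ⟨s - 2, by omega⟩
    exact up h hr (by omega) ht (ih n (by omega) t (by omega) ht)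
      (ih n (by omega) (t + 2) (by omega) (by omega))

end Pool.Agent.P78
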