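import Pool.Agent.Lib.MP_78c6b1_al.CA.Defs
import Pool.Agent.Lib.MP_78c6b1_al.Lim.R1Q2

/-! The slack case has an abelian odd lane. -/

namespace Pool.Agent.P78

open Filter

namespace S1

variable {K : Type} [Field K]

theorem even_lane {c : ℕ → ℕ → K} (h : Cst2 2 c) : Cst 1 fun i j => c (2 * i) (2 * j) where
  der s t hs ht := by
    have := h.der (2 * s) (2 * t) (by omega) (by omega)
    simpa only [mul_add, mul_one] using this
  anti s t hs ht := h.anti (2 * s) (2 * t) (by omega) (by omega)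
  jac r s t hr hs ht := by
    have := h.jac (2 * r) (2 * s) (2 * t) (by omega) (by omega) (by omega)
    simpa only [mul_add] using this

/-- Iterated differences near an isolated first nonzero value. -/
theorem diff_near {D : ℕ → ℕ → K} {b M : ℕ}
    (hD : ∀ j t, b ≤ t → D (j + 1) t = D j t - D j (t + 1))
    (h0 : ∀ t, b ≤ t → t < M → D 0 t = 0) (j : ℕ) : ∀ t, b ≤ t →
    (t + j < M → D j t = 0) ∧ (t + j = M → D j t = (-1) ^ j * D 0 M) ∧
      (t + j = M + 1 → D j t = (-1) ^ j * (D 0 (M + 1) - j * D 0 M)) := by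
  induction j with
  | zero =>
    intro t ht
    refine ⟨fun h => h0 t ht (by omega), fun h => ?_, fun h => ?_⟩
    · obtain rfl : t = M := by omega
      simp
    · obtain rfl : t = M + 1 := by omega
      simp
  | succ j ih =>
    intro t ht
    obtain ⟨a1, a2, -⟩ := ih t ht
    obtain ⟨b1, b2, b3⟩ := ih (t + 1) (by omega)
    refine ⟨fun h => ?_, fun h => ?_, fun h => ?_⟩
    · rw [hD j t ht, a1 (by omega), b1 (by omega), sub_zero]
    · rw [hD j t ht, a1 (by omega), b2 (by omega)]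
      ring
    · rw [hD j t ht, a2 (by omega), b3 (by omega)]
      push_cast
      ring

theorem next_ne {p : ℕ → K} (hp : ∀ N, ∃ u, N ≤ u ∧ p u ≠ 0) (b : ℕ) :
    ∃ M, b ≤ M ∧ p M ≠ 0 ∧ ∀ t, b ≤ t → t < M → p t = 0 := by
  classical
  refine ⟨Nat.find (hp b), (Nat.find_spec (hp b)).1, (Nat.find_spec (hp b)).2,
    fun t ht hl => ?_⟩
  by_contra hne
  exact Nat.find_min (hp b) hl ⟨ht, hne⟩

/-- The sequence `D 0` has no zero. -/
theorem ne_zero [CharZero K] {D : ℕ → ℕ → K}
    (hD : ∀ j t, 1 ≤ t → D (j + 1) t = D j t - D j (t + 1))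
    (hA : ∀ j t, 1 ≤ t → D (j + 1) t * D 0 (t + j + 2) = D 0 t * D (j + 1) (t + 1))
    (hp : ∀ N, ∃ u, N ≤ u ∧ D 0 u ≠ 0) : ∀ t, 1 ≤ t → D 0 t ≠ 0 := by
  have iso : ∀ t, 1 ≤ t → D 0 t = 0 → D 0 (t + 1) ≠ 0 → D 0 (t + 2) = 0 := by
    intro t ht h0 h1
    have h := hA 0 t ht
    rw [hD 0 t ht, h0, zero_mul, zero_sub, add_zero] at h
    exact (mul_eq_zero.1 h).resolve_left (neg_ne_zero.2 h1)
  intro t ht h0
  obtain ⟨a, hta, ha, ha'⟩ := next_ne hp t
  have hlt : t < a := by
    rcases Nat.lt_or_ge t a with h | h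
    · exact h
    · obtain rfl : t = a := by omega
      exact absurd h0 ha
  obtain ⟨a, rfl⟩ : ∃ a', a = a' + 1 := ⟨a - 1, by omega⟩
  have h2 : D 0 (a + 2) = 0 := iso a (by omega) (ha' a (by omega) (by omega)) ha
  obtain ⟨M, hM, hM1, hM2⟩ := next_ne hp (a + 2)
  have hlt' : a + 2 < M := by
    rcases Nat.lt_or_ge (a + 2) M with h | h
    · exact h
    · obtain rfl : a + 2 = M := by omega
      exact absurd h2 hM1
  obtain ⟨n, rfl⟩ : ∃ n, M = a + 2 + n + 1 := ⟨M - (a + 3), by omega⟩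
  have h3 : D 0 (a + 2 + n + 1 + 1) = 0 :=
    iso (a + 2 + n) (by omega) (hM2 _ (by omega) (by omega)) hM1
  have h4 := (diff_near (b := a + 2) (M := a + 2 + n + 1) (fun j t ht => hD j t (by omega)) hM2
    (n + 1 + 1) (a + 2) le_rfl).2.2 (by omega)
  have h5 := hA (n + 1) (a + 1) (by omega)
  have e1 : a + 1 + (n + 1) + 2 = a + 2 + n + 1 + 1 := by omega
  have e2 : a + 1 + 1 = a + 2 := by omega
  rw [e1, e2, h3, mul_zero, h4, h3, zero_sub] at h5
  have h6 : ((n + 1 + 1 : ℕ) : K) ≠ 0 := Nat.cast_ne_zero.2 (by omega)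
  exact mul_ne_zero ha (mul_ne_zero (pow_ne_zero _ (neg_ne_zero.2 one_ne_zero))
    (neg_ne_zero.2 (mul_ne_zero h6 hM1))) h5.symm

end S1

open S1 in
theorem s1Stmt : S1Stmt := by
  intro K _ _ c h hfr
  have h4 : ∀ t, 2 ≤ t → c 4 (2 * t) = 0 := fun t ht => q1Stmt K _ (even_lane h) t ht
  have hk : ∀ n, c 2 (2 * n + 4) = c 2 4 := by
    intro n
    induction n with
    | zero => rfl
    | succ n ih =>
      have h1 := h.der 2 (2 * n + 4) le_rfl (by omega)
      have h2 := h4 (n + 2) (by omega)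
      have e1 : 2 * (n + 2) = 2 * n + 4 := by omega
      have e2 : 2 * (n + 1) + 4 = 2 * n + 4 + 2 := by omega
      rw [e1] at h2
      rw [e2]
      linear_combination ih - h1 - h2
  let D : ℕ → ℕ → K := fun j t =>
    c (2 * j + 2) (2 * t + 1) - if j = 0 then c 2 4 else 0
  have D0 : ∀ t, D 0 t = c 2 (2 * t + 1) - c 2 4 := fun t => by simp [D]
  have D1 : ∀ j t, D (j + 1) t = c (2 * j + 4) (2 * t + 1) := fun j t => by
    have e : 2 * (j + 1) + 2 = 2 * j + 4 := by omega
    simp only [D, e, Nat.add_one_ne_zero, if_false, sub_zero]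
  have hD : ∀ j t, 1 ≤ t → D (j + 1) t = D j t - D j (t + 1) := by
    intro j t ht
    have h1 := h.der (2 * j + 2) (2 * t + 1) (by omega) (by omega)
    have e1 : 2 * j + 2 + 2 = 2 * j + 4 := by omega
    have e2 : 2 * t + 1 + 2 = 2 * (t + 1) + 1 := by omega
    rw [e1, e2] at h1
    rw [D1]
    simp only [D]
    linear_combination -h1
  have hA : ∀ j t, 1 ≤ t → D (j + 1) t * D 0 (t + j + 2) = D 0 t * D (j + 1) (t + 1) := by
    intro j t ht
    have h1 := h.jac 2 (2 * j + 4) (2 * t + 1) le_rfl (by omega) (by omega)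
    have h2 := h.der (2 * j + 4) (2 * t + 1) (by omega) (by omega)
    have e1 : 2 + (2 * j + 4) = 2 * j + 4 + 2 := by omega
    have e2 : 2 * j + 4 + (2 * t + 1) = 2 * (t + j + 2) + 1 := by omega
    have e3 : 2 + (2 * t + 1) = 2 * (t + 1) + 1 := by omega
    have e4 : 2 * t + 1 + 2 = 2 * (t + 1) + 1 := by omega
    rw [e1, e2, e3, hk] at h1
    rw [e4] at h2
    rw [D1, D1, D0, D0]
    linear_combination -h1 - c 2 4 * h2
  have hp : ∀ N, ∃ u, N ≤ u ∧ D 0 u ≠ 0 := by
    intro N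
    obtain ⟨t, ht, hne⟩ := frequently_atTop.1 hfr (2 * N + 4)
    rcases Nat.even_or_odd' t with ⟨u, rfl | rfl⟩
    · exact absurd (h4 u (by omega)) hne
    · have h1 := hD 0 u (by omega)
      rw [D1] at h1
      by_cases h2 : D 0 u = 0
      · refine ⟨u + 1, by omega, fun h3 => hne ?_⟩
        rw [h2, h3, sub_zero] at h1
        exact h1
      · exact ⟨u, by omega, h2⟩
  have hne := ne_zero hD hA hp
  have hself : ∀ s, 2 ≤ s → c s s = 0 := fun s hs => by
    have h1 := h.anti s s hs hs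
    have h2 : (2 : K) * c s s = 0 := by linear_combination h1
    exact (mul_eq_zero.1 h2).resolve_left two_ne_zero
  have hone : ∀ t, 1 ≤ t → c (2 * t + 1) (2 * (t + 1) + 1) = 0 := by
    intro t ht
    have h1 := h.jac 2 (2 * (t + 1) + 1) (2 * t + 1) le_rfl (by omega) (by omega)
    have h2 := h.der (2 * (t + 1) + 1) (2 * t + 1) (by omega) (by omega)
    have h3 := h.anti (2 * t + 1) (2 * (t + 1) + 1) (by omega) (by omega)
    have e1 : 2 + (2 * (t + 1) + 1) = 2 * (t + 1) + 1 + 2 := by omega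
    have e2 : 2 * (t + 1) + 1 + (2 * t + 1) = 2 * (2 * t) + 4 := by omega
    have e3 : 2 + (2 * t + 1) = 2 * (t + 1) + 1 := by omega
    have e4 : 2 * t + 1 + 2 = 2 * (t + 1) + 1 := by omega
    rw [e1, e2, e3, hk, hself (2 * (t + 1) + 1) (by omega)] at h1
    rw [e4, hself (2 * (t + 1) + 1) (by omega)] at h2
    have h5 : D 0 (t + 1) * c (2 * t + 1) (2 * (t + 1) + 1) = 0 := by
      rw [D0]
      linear_combination -h1 - c 2 (2 * (t + 1) + 1) * h2 +
        (c 2 (2 * (t + 1) + 1) - c 2 4) * h3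
    exact (mul_eq_zero.1 h5).resolve_left (hne _ (by omega))
  have key : ∀ n t, 1 ≤ t → c (2 * t + 1) (2 * (t + n) + 1) = 0 ∧
      c (2 * t + 1) (2 * (t + n + 1) + 1) = 0 := by
    intro n
    induction n with
    | zero => exact fun t ht => ⟨hself _ (by omega), hone t ht⟩
    | succ n ih =>
      intro t ht
      refine ⟨(ih t ht).2, ?_⟩
      have h1 := h.der (2 * t + 1) (2 * (t + n + 1) + 1) (by omega) (by omega)
      have h2 := (ih (t + 1) (by omega)).1
      have e1 : 2 * t + 1 + 2 = 2 * (t + 1) + 1 := by omega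
      have e2 : 2 * (t + n + 1) + 1 + 2 = 2 * (t + (n + 1) + 1) + 1 := by omega
      have e3 : t + 1 + n = t + n + 1 := by omega
      rw [e1, e2, (ih t ht).2] at h1
      rw [e3] at h2
      linear_combination -h1 - h2
  intro s t hs ht
  rcases Nat.le_total s t with hst | hst
  · obtain ⟨n, rfl⟩ := Nat.exists_eq_add_of_le hst
    exact (key n s hs).1
  · obtain ⟨n, rfl⟩ := Nat.exists_eq_add_of_le hst
    rw [h.anti (2 * t + 1) (2 * (t + n) + 1) (by omega) (by omega), (key n t ht).1, neg_zero]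

end Pool.Agent.P78
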