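import Pool.Agent.Lib.MP_78c6b1_al.CA.OEb
import Pool.Agent.Lib.MP_78c6b1_al.CA.P2
import Pool.Agent.Lib.MP_78c6b1_al.CA.Q4
import Pool.Agent.Lib.MP_78c6b1_al.CA.S1
import Pool.Agent.Lib.MP_78c6b1_al.U2.Main

/-! The classification block from the two remaining statements. -/

namespace Pool.Agent.P78

theorem oeStmt : OEStmt := oeStmt_of p2Stmt q4Stmt s1Stmt

theorem classStmt_of_U1_EE (h1 : U1Stmt) (hE : EEStmt) : ClassStmt :=
  classStmt_of_blocks u2Stmt h1 (aStmt_of hE oeStmt)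

end Pool.Agent.P78
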