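import Pool.Agent.Lib.MP_78c6b1_al.CA.Max
import Pool.Agent.Lib.MP_78c6b1_al.CA.Defs

/-! The adic case with one odd and one even lane: tools. -/

namespace Pool.Agent.P78

open Module Submodule Filter

variable {K L : Type} [Field K] [LieRing L] [LieAlgebra K L]
  {x : L} {Φ : ℕ → Submodule K L} {E : ℕ → L} {q : ℕ}

lemma exists_coeff {U W : Submodule K L} {e y v : L} (h : U ≤ (K ∙ e) ⊔ W) (hy : y ∈ U) (hy' : y ∉ W)
    (hv : v ∈ U) : ∃ c : K, v - c • y ∈ W := by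
  obtain ⟨_, h1, z, hz, rfl⟩ := mem_sup.1 (h hy)
  obtain ⟨_, h2, w, hw, rfl⟩ := mem_sup.1 (h hv)
  obtain ⟨c, rfl⟩ := mem_span_singleton.1 h1
  obtain ⟨d, rfl⟩ := mem_span_singleton.1 h2
  have hc : c ≠ 0 := fun e => hy' (by simpa [e] using hz)
  refine ⟨d / c, ?_⟩
  rw [smul_add, ← mul_smul, div_mul_cancel₀ _ hc, add_sub_add_left_eq_sub]
  exact sub_mem hw (smul_mem _ _ hz)

lemma le_span_sup_of_cod {U W : Submodule K L} [FiniteDimensional K (L ⧸ W)] (h : W ≤ U)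
    (hc : cod W ≤ cod U + 1) {e : L} (he : e ∈ U) (he' : e ∉ W) : U = (K ∙ e) ⊔ W := by
  have h1 := cod_lt (U := W) (V := (K ∙ e) ⊔ W) (right_lt_sup.2 (by simpa using he'))
  have := fin_mono (le_sup_right : W ≤ (K ∙ e) ⊔ W)
  exact (eq_of_cod_le (sup_le (by simpa using he) h) (by omega)).symm

lemma coeff_uniq {W : Submodule K L} {e v : L} (he : e ∉ W) {c d : K} (hc : v - c • e ∈ W)
    (hd : v - d • e ∈ W) : c = d := by_contra fun h =>
  he ((smul_mem_iff _ (sub_ne_zero.2 h)).1 (by simpa [sub_smul] using sub_mem hd hc))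

section lead

variable {U W : ℕ → Submodule K L} (H : ∀ {i j a b}, a ∈ U i → b ∈ W j → ⁅a, b⁆ ∈ W (i + j))
include H

lemma lead_right {i j : ℕ} {u e w f : L} {a b : K} (h1 : u - a • e ∈ W j)
    (hw : w ∈ U i) (h2 : ⁅w, e⁆ - b • f ∈ W (i + j)) : ⁅w, u⁆ - (a * b) • f ∈ W (i + j) := by
  have := add_mem (H hw h1) (smul_mem _ a h2)
  rwa [lie_sub, lie_smul, smul_sub, sub_add_sub_cancel, ← mul_smul] at this

lemma lead_left {i j : ℕ} {u e w f : L} {a b : K} (h1 : u - a • e ∈ W i)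
    (hw : w ∈ U j) (h2 : ⁅e, w⁆ - b • f ∈ W (i + j)) : ⁅u, w⁆ - (a * b) • f ∈ W (i + j) := by
  have := add_mem (neg_mem (add_comm j i ▸ H hw h1)) (smul_mem _ a h2)
  rwa [lie_skew, sub_lie, smul_lie, smul_sub, sub_add_sub_cancel, ← mul_smul] at this

/-- Structure constants of a lane. -/
lemma exists_cst_gen {d : ℕ} (hx : x ∈ U d) (h1 : ∀ s, q ≤ s → E s ∈ U s)
    (h2 : ∀ s, q ≤ s → ⁅x, E s⁆ = E (s + d)) (h3 : ∀ s, q + q ≤ s → E s ∉ W s)
    (h4 : ∀ s t, q ≤ s → q ≤ t → ∃ c : K, ⁅E s, E t⁆ - c • E (s + t) ∈ W (s + t)) :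
    ∃ c : ℕ → ℕ → K, (∀ s t, q ≤ s → q ≤ t → c s t = c (s + d) t + c s (t + d)) ∧
      (∀ s t, q ≤ s → q ≤ t → c t s = - c s t) ∧
      (∀ r s t, q ≤ r → q ≤ s → q ≤ t →
        c r s * c (r + s) t = c s t * c r (s + t) - c r t * c s (r + t)) ∧
      ∀ s t, q ≤ s → q ≤ t → ⁅E s, E t⁆ - c s t • E (s + t) ∈ W (s + t) := by
  choose! c hc using h4
  refine ⟨c, fun s t hs ht => coeff_uniq (h3 (s + t + d) (by omega)) (v := ⁅x, ⁅E s, E t⁆⁆) ?_ ?_,
    fun s t hs ht => coeff_uniq (h3 (t + s) (by omega)) (hc t s ht hs) ?_,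
    fun r s t hr hs ht => coeff_uniq (h3 (r + s + t) (by omega))
      (lead_left H (hc r s hr hs) (h1 t ht) (hc _ t (by omega) ht)) ?_, hc⟩
  · simpa [h2 (s + t) (by omega), add_comm d] using H hx (hc s t hs ht)
  · have := add_mem (add_right_comm s d t ▸ hc (s + d) t (by omega) ht)
      (add_assoc s t d ▸ hc s (t + d) hs (by omega))
    rwa [sub_add_sub_comm, ← h2 s hs, ← h2 t ht, ← leibniz_lie, ← add_smul] at this
  · have := neg_mem (add_comm s t ▸ hc s t hs ht)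
    rwa [neg_sub', lie_skew, ← neg_smul] at this
  · have := sub_mem (add_assoc r s t ▸ lead_right H (hc s t hs ht) (h1 r hr) (hc r _ hr (by omega)))
      ((show s + (r + t) = r + s + t by omega) ▸
        lead_right H (hc r t hr ht) (h1 s hs) (hc s _ hs (by omega)))
    rwa [sub_sub_sub_comm, ← lie_lie, ← sub_smul] at this

end lead

/-- From `q` on, the layers of `Φ` are spanned by two `ad x` chains. -/
structure Good2 (x : L) (Φ : ℕ → Submodule K L) (E : ℕ → L) (q : ℕ) : Prop where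
  step : ∀ s, q ≤ s → ⁅x, E s⁆ = E (s + 2)
  span : ∀ s, q ≤ s → Φ s = (K ∙ E s) ⊔ Φ (s + 1)
  ne : ∀ s, q ≤ s → E s ∉ Φ (s + 1)

lemma Good2.mem (G : Good2 x Φ E q) {s : ℕ} (h : q ≤ s) : E s ∈ Φ s :=
  (G.span s h).ge (mem_sup_left (mem_span_singleton_self _))

lemma Good2.coeff (G : Good2 x Φ E q) {s : ℕ} (h : q ≤ s) {v : L} (hv : v ∈ Φ s) :
    ∃ c : K, v - c • E s ∈ Φ (s + 1) := exists_coeff (G.span s h).le (G.mem h) (G.ne s h) hv

lemma Fil2.lie' (P : Fil2 x Φ) {i j : ℕ} {a b : L} (ha : a ∈ Φ i) (hb : b ∈ Φ (j + 1)) :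
    ⁅a, b⁆ ∈ Φ (i + j + 1) := P.lie (j := j + 1) ha hb

lemma Fil2.map_eq (h : CA K x) (P : Fil2 x Φ) {s : ℕ} (hs : 3 ≤ s)
    (hc : cod (Φ s) + 2 ≤ cod (Φ (s + 2))) : Φ (s + 2) = (Φ s).map (LieAlgebra.ad K L x) :=
  have := h.lim.fin_opn (h.opn_map (P.opn s))
  (eq_of_cod_le (P.map_le s) ((h.cod_map (P.opn s) fun hx => P.ne (P.anti hs hx)).le.trans hc)).symm

lemma Fil2.good2 (h : CA K x) (P : Fil2 x Φ) (hq : 3 ≤ q)
    (hc : ∀ i, q ≤ i → cod (Φ (i + 1)) = cod (Φ i) + 1) : ∃ E, Good2 x Φ E q := by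
  have hf := fun s => h.lim.fin_opn (P.opn s)
  have h1 : ∀ i, q ≤ i → ¬ Φ i ≤ Φ (i + 1) := fun i hi e => by
    have := cod_anti e
    have := hc i hi
    omega
  choose! e he he' using fun i hi => SetLike.not_le_iff_exists.1 (h1 i hi)
  let E := fun s => (LieAlgebra.ad K L x ^ ((s - q) / 2)) (e (q + (s - q) % 2))
  have h2 : ∀ s, q ≤ s → ⁅x, E s⁆ = E (s + 2) := fun s hs => by
    simp only [E]
    rw [show (s + 2 - q) / 2 = (s - q) / 2 + 1 by omega, show (s + 2 - q) % 2 = (s - q) % 2 by omega,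
      pow_succ']
    rfl
  have h3 : ∀ k, Φ (q + k) = (K ∙ E (q + k)) ⊔ Φ (q + k + 1) := fun k => by
    induction k using Nat.twoStepInduction with
    | zero =>
      simpa [E] using le_span_sup_of_cod (P.anti q.le_succ) (hc q le_rfl).le (he q le_rfl)
        (he' q le_rfl)
    | one =>
      simpa [E] using le_span_sup_of_cod (P.anti (q + 1).le_succ) (hc _ q.le_succ).le
        (he _ q.le_succ) (he' _ q.le_succ)
    | more k ih _ =>
      have a1 := hc (q + k) (by omega)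
      have a2 : cod (Φ (q + k + 2)) = _ := hc (q + k + 1) (by omega)
      have a3 := hc (q + k + 2) (by omega)
      rw [← add_assoc, P.map_eq h (by omega) (a2.trans (by rw [a1])).ge, ih, Submodule.map_sup,
        ← P.map_eq h (by omega) (a3.trans (by rw [a2])).ge, map_span, Set.image_singleton,
        ← h2 _ (by omega)]
      rfl
  have h4 : ∀ s, q ≤ s → Φ s = (K ∙ E s) ⊔ Φ (s + 1) := fun s hs => by
    simpa only [Nat.add_sub_cancel' hs] using h3 (s - q)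
  exact ⟨E, h2, h4, fun s hs e => h1 s hs ((h4 s hs).le.trans (sup_le (by simpa using e) le_rfl))⟩

lemma MaxF.faith' (P : MaxF x Φ q) {r : ℕ} (G : Good2 x Φ E r) {w : ℕ} {y : L} (hy : y ∈ Φ w)
    (h : ∀ᶠ t in atTop, ⁅y, E t⁆ ∈ Φ (w + t + 1)) : y ∈ Φ (w + 1) := by
  refine P.faith _ ?_
  filter_upwards [h, eventually_ge_atTop r] with t h1 h2 v hv
  obtain ⟨c, hc⟩ := G.coeff h2 hv
  rw [← add_assoc, add_comm t]
  simpa using lead_right (W := fun i => Φ (i + 1)) P.fil.lie' (f := 0) (b := 0) hc hy (by simpa using h1)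

lemma Fil2.exists_cst (P : Fil2 x Φ) {r : ℕ} (G : Good2 x Φ E r) (hq : r ≤ q + q)
    (h1 : ∀ s, q ≤ s → E s ∈ Φ s) (h2 : ∀ s, q ≤ s → ⁅x, E s⁆ = E (s + 2)) :
    ∃ c : ℕ → ℕ → K, Cst2 q c ∧
      ∀ s t, q ≤ s → q ≤ t → ⁅E s, E t⁆ - c s t • E (s + t) ∈ Φ (s + t + 1) :=
  have ⟨c, a1, a2, a3, a4⟩ := exists_cst_gen (W := fun i => Φ (i + 1)) P.lie' (P.two.ge trivial) h1 h2
    (fun s hs => G.ne s (by omega)) fun s t hs ht => G.coeff (by omega) (P.lie (h1 s hs) (h1 t ht))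
  ⟨c, ⟨a1, a2, a3⟩, a4⟩

lemma Fil2.exists_kappa (P : Fil2 x Φ) (G : Good2 x Φ E q) {w : ℕ} {z : L} (hz : z ∈ Φ w)
    (h : ⁅x, z⁆ ∈ Φ (w + 3)) {c : ℕ → ℕ → K}
    (hc : ∀ s t, q ≤ s → q ≤ t → ⁅E s, E t⁆ - c s t • E (s + t) ∈ Φ (s + t + 1)) :
    ∃ κ : ℕ → K, (∀ t, q ≤ t → ⁅z, E t⁆ - κ t • E (w + t) ∈ Φ (w + t + 1)) ∧
      (∀ t, q ≤ t → κ (t + 2) = κ t) ∧
      ∀ s t, q ≤ s → q ≤ t → κ (s + t) * c s t = κ s * c (s + w) t + κ t * c s (t + w) := by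
  choose! κ hκ using fun t (ht : q ≤ t) => G.coeff (s := w + t) (by omega) (P.lie hz (G.mem ht))
  refine ⟨κ, hκ, fun t ht => coeff_uniq (G.ne _ (by omega)) (hκ (t + 2) (by omega)) ?_,
    fun s t hs ht => (mul_comm _ _).trans (coeff_uniq (G.ne (w + (s + t)) (by omega))
      (lead_right (W := fun i => Φ (i + 1)) P.lie' (hc s t hs ht) hz (hκ _ (by omega))) ?_)⟩
  · have := sub_mem (P.act x (hκ t ht)) (P.anti (by omega) (P.lie h (G.mem ht)))
    rwa [lie_sub, leibniz_lie, lie_smul, G.step t ht, G.step _ (by omega), sub_right_comm,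
      add_sub_cancel_left] at this
  · have := add_mem (add_assoc w s t ▸ lead_left (W := fun i => Φ (i + 1)) P.lie' (hκ s hs) (G.mem ht)
      (hc _ t (by omega) ht)) (add_left_comm s w t ▸ lead_right (W := fun i => Φ (i + 1)) P.lie'
        (hκ t ht) (G.mem hs) (hc s _ hs (by omega)))
    rwa [sub_add_sub_comm, ← leibniz_lie, ← add_smul, add_comm w s, add_comm w t] at this

lemma Fil2.lie_lead (P : Fil2 x Φ) (G : Good2 x Φ E q) {s t : ℕ} (hs : q ≤ s) (ht : q ≤ t)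
    (h : ⁅E s, E t⁆ ∈ Φ (s + t + 1)) {u v : L} (hu : u ∈ Φ s) (hv : v ∈ Φ t) :
    ⁅u, v⁆ ∈ Φ (s + t + 1) := by
  obtain ⟨a, ha⟩ := G.coeff hs hu
  obtain ⟨b, hb⟩ := G.coeff ht hv
  simpa using lead_left (W := fun i => Φ (i + 1)) P.lie' (f := 0) ha hv
    (lead_right (W := fun i => Φ (i + 1)) P.lie' (f := 0) (b := 0) hb (G.mem hs) (by simpa using h))

/-- An abelian odd lane can be raised. -/
lemma MaxF.raise (P : MaxF x Φ q) {r : ℕ} (G : Good2 x Φ E r)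
    (h : ∀ s t, r ≤ s → r ≤ t → ⁅E (2 * s + 1), E (2 * t + 1)⁆ ∈ Φ (2 * s + 1 + (2 * t + 1) + 1)) :
    False := by
  obtain ⟨m, hm⟩ := eventually_atTop.1 (P.max (fun i => Φ (2 * ((i - 1) / 2) + 1)) (q + 2 * r + 2)
    ⟨fun i hi => P.fil.anti (by omega), fun i hi => by
      rw [← P.ach.adic _ (by omega), show 2 * ((i + 2 - 1) / 2) + 1 = 2 * ((i - 1) / 2) + 1 + 2 by omega],
    fun i hi u v hv => P.fil.anti (by omega) (P.fil.act u hv), fun i j hi hj u hu v hv =>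
      P.fil.anti (by omega) (P.fil.lie_lead G (by omega) (by omega) (h _ _ (by omega) (by omega)) hu hv),
    fun i _ => P.fil.opn _, fun i hi => P.ach.ne _ (by omega)⟩ fun i _ => P.fil.anti (by omega))
  exact G.ne (2 * (m + r) + 1) (by omega) (hm _ (by omega) (P.fil.anti (by omega) (G.mem (by omega))))

lemma Fil2.cod_even (h : CA K x) (P : Fil2 x Φ) (k : ℕ) : cod (Φ (2 * k + 4)) ≤ 2 * k + 3 := by
  induction k with
  | zero =>
    have := h.lim.fin_opn (h.opn_map (U := ⊤) ⟨0, le_top⟩)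
    exact (cod_anti (P.two ▸ P.map_le 2)).trans (by rw [Submodule.map_top]; exact h.cod_im.le)
  | succ k ih => exact (P.cod_le h (s := 2 * k + 4) (by omega)).trans (by omega)

end Pool.Agent.P78
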