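import Pool.Agent.Lib.MP_78c6b1_al.CA.OEa

/-! The adic case with one odd and one even lane. -/

namespace Pool.Agent.P78

open Module Submodule Filter

variable {K L : Type} [Field K] [LieRing L] [LieAlgebra K L]
  {x : L} {Φ : ℕ → Submodule K L} {E : ℕ → L} {q : ℕ}

lemma chain_step (x y : L) {s : ℕ} (hs : 1 ≤ s) :
    ⁅x, (LieAlgebra.ad K L x ^ (s - 1)) y⁆ = (LieAlgebra.ad K L x ^ (s + 1 - 1)) y := by
  rw [show s + 1 - 1 = s - 1 + 1 by omega, pow_succ']
  rfl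

lemma Cst.one_eq {c : ℕ → ℕ → K} (hc : Cst 1 c) (h : ∀ t, 2 ≤ t → c 2 t = 0) :
    (∀ t, 2 ≤ t → c 1 t = c 1 2) ∧ ∀ s t, 2 ≤ s → 2 ≤ t → c s t = 0 := by
  refine ⟨fun t ht => ?_, fun s t hs => ?_⟩
  · induction t, ht using Nat.le_induction with
    | base => rfl
    | succ t ht ih => rw [← ih, hc.der 1 t le_rfl (by omega), h t ht, zero_add]
  · induction s, hs using Nat.le_induction generalizing t with
    | base => exact h t
    | succ s hs ih =>
      intro ht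
      simpa [ih t ht, ih (t + 1) (by omega)] using (hc.der s t (by omega) (by omega)).symm

lemma Fil2.pureFil (P : Fil2 x Φ) (G : Good2 x Φ E 3) (h2 : (K ∙ x) ⊔ Φ 3 = ⊤) {c : ℕ → ℕ → K}
    (hc : IsWitt4 c)
    (hc' : ∀ s t, 3 ≤ s → 3 ≤ t → ⁅E s, E t⁆ - c s t • E (s + t) ∈ Φ (s + t + 1)) (R : ℕ) :
    Nonempty (PureFil K L 4 R) := by
  obtain ⟨l, β, b0, b1, b2, b3⟩ := hc
  have h1 : Φ 1 = ⊤ := top_unique (P.two.ge.trans (P.anti one_le_two))
  have h3 : ∀ i, inS 4 i → i = 2 ∨ (i ≠ 2 ∧ 3 ≤ i) := fun i hi => by unfold inS at hi; omega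
  have h4 : ∀ j, 3 ≤ j → ⁅l • x, β j • E j⁆ = ((j : K) - 2) • β (j + 2) • E (j + 2) := fun j hj => by
    rw [smul_lie, lie_smul, G.step j hj, ← mul_smul, b2 j hj, mul_smul]
  refine ⟨⟨Φ, fun i => if i = 2 then l • x else β i • E i, h1, P.anti, fun i j _ a ha b hb => P.lie ha hb,
    fun i a1 a2 => ?_, fun i _ a2 => ?_, fun i _ a2 => ?_, fun i j a1 a2 _ => ?_⟩⟩
  · obtain rfl : i = 1 := by unfold inS at a2; omega
    exact h1.trans P.two.symm
  · obtain rfl | ⟨a3, a4⟩ := h3 i a2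
    · rw [if_pos rfl, span_singleton_smul_eq (IsUnit.mk0 _ b0), h2, P.two]
    · rw [if_neg a3, span_singleton_smul_eq (IsUnit.mk0 _ (b1 i)), G.span i a4]
  · obtain rfl | ⟨a3, a4⟩ := h3 i a2
    · rw [if_pos rfl, smul_mem_iff _ b0]
      exact P.ne
    · rw [if_neg a3, smul_mem_iff _ (b1 i)]
      exact G.ne i a4
  · obtain rfl | ⟨a3, a4⟩ := h3 i a1 <;> obtain rfl | ⟨a5, a6⟩ := h3 j a2
    · simp
    · rw [if_pos rfl, if_neg a5, if_neg (by omega), h4 j a6, add_comm 2 j]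
      simp
    · rw [if_neg a3, if_pos rfl, if_neg (by omega), ← lie_skew, h4 i a4, ← neg_smul]
      simp
    · rw [if_neg a3, if_neg a5, if_neg (by omega), ← mul_smul, ← b3 i j a4 a6, smul_lie, lie_smul]
      simpa only [smul_sub, mul_smul] using smul_mem _ (β i * β j) (hc' i j a4 a6)

variable [Uncountable K] [CharZero K]

omit [CharZero K] in
lemma Fil2.tight (h : CA K x) (P : Fil2 x Φ) (hc : ∀ j, q ≤ j → cod (Φ j) + 2 = j) {s t : ℕ}
    (hs : q ≤ s) (ht : s < t) : ¬ ∀ u ∈ Φ s, ∀ v ∈ Φ t, ⁅u, v⁆ ∈ Φ (s + t + 1) := fun H => by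
  have := h.lim.fin_opn (P.opn s)
  have a1 := hc s hs
  have a2 := hc t (by omega)
  have a3 := hc (s + t + 1) (by omega)
  have a4 := h.lim.kappa' (P.opn s) (P.opn t) (P.opn _) H fun e => by have := cod_anti e; omega
  omega

lemma MaxF.tight (HP : P2Stmt) (H1 : Q1Stmt) (H4 : Q4Stmt) (h : CA K x) {r : ℕ} (P : MaxF x Φ r)
    (G : Good2 x Φ E q) (hc : ∀ j, q ≤ j → cod (Φ j) + 2 = j) : Concl K L := by
  have hf := fun s => h.lim.fin_opn (P.fil.opn s)
  obtain ⟨c, a1, a2⟩ := P.fil.exists_cst G (Nat.le_add_right q q) (fun _ => G.mem) G.step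
  have h0 : ∀ {w z}, 2 ≤ w → z ∈ Φ w → ⁅x, z⁆ ∈ Φ (w + 3) → ∃ κ : K, (w ≠ 2 → κ = 0) ∧
      ∀ t, q ≤ t → ⁅z, E t⁆ - κ • E (w + t) ∈ Φ (w + t + 1) := fun {w z} hw hz hz' => by
    obtain ⟨κ, b1, b2, b3⟩ := P.fil.exists_kappa G hz hz' a2
    obtain ⟨b4, b5⟩ := HP K q w c κ a1 (fun s t hs ht e => P.fil.tight h hc hs ht fun u hu v hv =>
      P.fil.lie_lead G hs (by omega) (by simpa [e] using a2 s t hs (by omega)) hu hv) hw b2 b3
    have b6 : ∀ k, κ (q + k) = κ q := fun k => by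
      induction k using Nat.twoStepInduction with
      | zero => rfl
      | one => exact b4
      | more k ih _ => rw [← add_assoc, b2 _ (by omega), ih]
    exact ⟨κ q, b5, fun t ht => by rw [← b6 (t - q), Nat.add_sub_cancel' ht]; exact b1 t ht⟩
  have h1 : ∀ {w z}, 3 ≤ w → z ∈ Φ w → ⁅x, z⁆ ∈ Φ (w + 3) → z ∈ Φ (w + 1) := fun hw hz hz' => by
    obtain ⟨κ, b1, b2⟩ := h0 (by omega) hz hz'
    exact P.faith' G hz ((eventually_ge_atTop q).mono fun t ht => by simpa [b1 (by omega)] using b2 t ht)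
  have h2 : ∀ k w, 3 ≤ w → q ≤ w + 2 * k → ∃ e, Φ w ≤ (K ∙ e) ⊔ Φ (w + 1) := fun k => by
    induction k with
    | zero => exact fun w _ hw => ⟨_, (G.span w hw).le⟩
    | succ k ih =>
      intro w hw hq
      obtain ⟨e, he⟩ := ih (w + 2) (by omega) (by omega)
      by_cases b1 : Φ w ≤ Φ (w + 1)
      · exact ⟨0, le_sup_of_le_right b1⟩
      obtain ⟨y, hy, hy'⟩ := SetLike.not_le_iff_exists.1 b1
      refine ⟨y, fun v hv => ?_⟩
      obtain ⟨d, hd⟩ := exists_coeff he (P.fil.act x hy) (mt (h1 hw hy) hy') (P.fil.act x hv)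
      simpa using add_mem_sup (smul_mem _ d (mem_span_singleton_self y))
        (h1 hw (sub_mem hv (smul_mem _ d hy)) (by simpa using hd))
  have h3 := fun w hw => h2 q w hw (by omega)
  have h4 : (K ∙ x) ⊔ Φ 3 = ⊤ := top_unique fun y _ => by
    have hy : y ∈ Φ 2 := P.fil.two.ge trivial
    by_cases b1 : ⁅x, y⁆ ∈ Φ 5
    · obtain ⟨κ, -, b2⟩ := h0 le_rfl hy b1
      simpa using add_mem_sup (smul_mem _ κ (mem_span_singleton_self x)) (P.faith' G (w := 2)
        (y := y - κ • x) (P.fil.two.ge trivial) ((eventually_ge_atTop q).mono fun t ht => by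
          simpa [G.step t ht, add_comm 2 t] using b2 t ht))
    set F := fun s => (LieAlgebra.ad K L x ^ (s - 1)) y
    have b2 : ∀ s, 1 ≤ s → ⁅x, F s⁆ = F (s + 1) := fun s => chain_step x y
    have b3 : ∀ s, 1 ≤ s → F s ∈ Φ (2 * s) := fun s hs => by
      induction s, hs using Nat.le_induction with
      | base => exact hy
      | succ s hs ih => exact b2 s hs ▸ P.fil.act x ih
    have b4 : ∀ s, 2 ≤ s → F s ∉ Φ (2 * s + 1) := fun s hs => by
      induction s, hs using Nat.le_induction with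
      | base => exact b2 1 le_rfl ▸ b1
      | succ s hs ih => exact b2 s (by omega) ▸ mt (h1 (w := 2 * s) (by omega) (b3 s (by omega))) ih
    have b5 : ∀ s, 2 ≤ s → ∀ v ∈ Φ (2 * s), ∃ d : K, v - d • F s ∈ Φ (2 * s + 1) := fun s hs v hv =>
      have ⟨e, he⟩ := h3 (2 * s) (by omega)
      exists_coeff he (b3 s (by omega)) (b4 s hs) hv
    have b6 : ∀ {i j a b}, a ∈ Φ (2 * i) → b ∈ Φ (2 * j + 1) → ⁅a, b⁆ ∈ Φ (2 * (i + j) + 1) :=
      fun ha hb => P.fil.anti (by omega) (P.fil.lie ha hb)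
    obtain ⟨c', c1, c2, c3, c4⟩ := exists_cst_gen (U := fun i => Φ (2 * i))
      (W := fun i => Φ (2 * i + 1)) (q := 1) (d := 1) b6 (P.fil.two.ge trivial) b3 b2 b4
      fun s t hs ht => b5 _ (by omega) _ (P.fil.anti (by omega) (P.fil.lie (b3 s hs) (b3 t ht)))
    have c5 := (Cst.one_eq ⟨c1, c2, c3⟩ (H1 K c' ⟨c1, c2, c3⟩)).2 (q + 2) (q + 3) (by omega) (by omega)
    refine absurd (fun u hu v hv => ?_) (P.fil.tight h hc (s := 2 * (q + 2)) (t := 2 * (q + 3))
      (by omega) (by omega))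
    obtain ⟨d, hd⟩ := b5 _ (by omega) u hu
    obtain ⟨e, he⟩ := b5 _ (by omega) v hv
    simpa [mul_add] using lead_left (U := fun i => Φ (2 * i)) (W := fun i => Φ (2 * i + 1)) b6 (f := 0)
      hd hv (lead_right (U := fun i => Φ (2 * i)) (W := fun i => Φ (2 * i + 1)) b6 (f := 0) (b := 0) he
        (b3 _ (by omega)) (by simpa [c5] using c4 (q + 2) (q + 3) (by omega) (by omega)))
  have h5 : ∀ j, 3 ≤ j → cod (Φ j) + 2 = j := fun j hj => le_antisymm (by
    induction j, hj using Nat.le_induction with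
    | base =>
      have := cod_le_sup_span (Φ 3) x
      rw [sup_comm, h4, cod_top] at this
      omega
    | succ j hj ih =>
      obtain ⟨e, he⟩ := h3 j hj
      have b1 := cod_le_sup_span (Φ (j + 1)) e
      have b2 := cod_anti (he.trans (sup_comm _ _).le)
      omega) (P.fil.bud j)
  obtain ⟨E', G'⟩ := P.fil.good2 h le_rfl fun i hi => by
    have := h5 i hi; have := h5 (i + 1) (by omega); omega
  obtain ⟨c', c1, c2⟩ := P.fil.exists_cst G' (q := 3) (by omega) (fun _ => G'.mem) G'.step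
  exact fun R => ⟨4, by omega, P.fil.pureFil G' h4 (H4 K c' c1 fun s t hs ht e =>
    P.fil.tight h h5 hs ht fun u hu v hv => P.fil.lie_lead G' hs (by omega)
      (by simpa [e] using c2 s t hs (by omega)) hu hv) c2 R⟩

omit [Uncountable K] in
lemma MaxF.slack (H1 : Q1Stmt) (HS : S1Stmt) (h : CA K x) {r : ℕ} (P : MaxF x Φ r)
    (G : Good2 x Φ E q) (hc : ∀ j, q ≤ j → j ≤ cod (Φ j) + 1) : False := by
  have hf := fun s => h.lim.fin_opn (P.fil.opn s)
  have h1 : ∀ k, cod (Φ (2 * k + 4)) = 2 * k + 3 := fun k => (P.fil.cod_even h k).antisymm (by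
    have a1 : ∀ j, cod (Φ (2 * k + 4 + 2 * j)) ≤ cod (Φ (2 * k + 4)) + 2 * j := fun j => by
      induction j with
      | zero => rfl
      | succ j ih => exact (P.fil.cod_le h (s := 2 * k + 4 + 2 * j) (by omega)).trans (by omega)
    have a2 := a1 q
    have a3 := hc (2 * k + 4 + 2 * q) (by omega)
    omega)
  have h2 : ∀ k, Φ (2 * k + 4) = (Φ (2 * k + 2)).map (LieAlgebra.ad K L x) := fun k => by
    cases k with
    | zero =>
      have := h.lim.fin_opn (h.opn_map (P.fil.opn 2))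
      refine (eq_of_cod_le (P.fil.map_le 2) ?_).symm
      rw [P.fil.two, Submodule.map_top]
      exact (h.cod_im.trans (h1 0).symm).le
    | succ k => exact P.fil.map_eq h (s := 2 * k + 4) (by omega) ((h1 (k + 1)).trans (by rw [h1]; rfl)).ge
  have h3 : ∀ k, ∀ v ∈ Φ (2 * k + 2), ∃ w, (LieAlgebra.ad K L x ^ k) w = v := fun k => by
    induction k with
    | zero => exact fun v _ => ⟨v, rfl⟩
    | succ k ih =>
      intro v hv
      obtain ⟨w, hw, rfl⟩ := (h2 k).le hv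
      obtain ⟨u, rfl⟩ := ih w hw
      exact ⟨u, by rw [pow_succ']; rfl⟩
  have h4 : ∀ k, ∀ v ∈ Φ (2 * k + 4), ⁅x, v⁆ ∈ Φ (2 * k + 8) → v ∈ Φ (2 * k + 6) := fun k v hv hv' => by
    obtain ⟨w, hw, e⟩ := (h2 (k + 2)).le hv'
    obtain ⟨c, hc⟩ := mem_span_singleton.1 (h.ker (v - w) (by rw [lie_sub]; exact sub_eq_zero.2 e.symm))
    by_cases h0 : c = 0
    · rwa [sub_eq_zero.1 (show v - w = 0 by rw [← hc, h0, zero_smul])]
    · exact absurd ((smul_mem_iff _ h0).1 (hc ▸ sub_mem (P.fil.anti (by omega) hv)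
        (P.fil.anti (by omega) hw))) P.fil.ne
  have h5 : ∀ ε, ε ≤ 1 → ∃ F : ℕ → L, (∀ s, 1 ≤ s → ⁅x, F s⁆ = F (s + 1)) ∧
      (∀ s, q + 1 ≤ s → F s = E (2 * s + ε)) := fun ε hε => by
    obtain ⟨b, hb⟩ := h3 q (E (2 * (q + 1) + ε)) (P.fil.anti (by omega) (G.mem (by omega)))
    refine ⟨fun s => (LieAlgebra.ad K L x ^ (s - 1)) b, fun s => chain_step x b, fun s hs => ?_⟩
    induction s, hs using Nat.le_induction with
    | base => exact hb
    | succ s hs ih =>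
      exact (chain_step x b (by omega)).symm.trans ((congrArg _ ih).trans
        ((G.step _ (by omega)).trans (congrArg E (by omega))))
  have h6 : ∀ {F : ℕ → L}, (∀ s, 1 ≤ s → ⁅x, F s⁆ = F (s + 1)) → ∀ {ε s}, 1 ≤ s → F s ∈ Φ (2 * s + ε) →
      ∀ t, s ≤ t → F t ∈ Φ (2 * t + ε) := fun hF ε s hs h0 t ht => by
    induction t, ht using Nat.le_induction with
    | base => exact h0
    | succ t ht ih => exact hF t (by omega) ▸ P.fil.anti (by omega) (P.fil.act x ih)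
  obtain ⟨A, a1, a2⟩ := h5 0 zero_le_one
  obtain ⟨B, b1, b2⟩ := h5 1 le_rfl
  have a3 : ∀ s, 1 ≤ s → A s ∈ Φ (2 * s) := h6 (ε := 0) a1 le_rfl (P.fil.two.ge trivial)
  have b3 : ∀ s, 1 ≤ s → B s ∈ Φ (2 * s) := h6 (ε := 0) b1 le_rfl (P.fil.two.ge trivial)
  have a4 : ∀ s, 1 ≤ s → A s ∉ Φ (2 * s + 1) := fun s hs e =>
    G.ne _ (by omega) (a2 (s + q + 1) (by omega) ▸ h6 a1 hs e _ (by omega))
  have b4 : ∀ s, 1 ≤ s → B s ∉ Φ (2 * s + 2) := fun s hs e =>
    G.ne _ (by omega) (b2 (s + q + 1) (by omega) ▸ h6 b1 hs e _ (by omega))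
  have b5 : ∀ k s t, 1 ≤ s → 1 ≤ t → 2 * q + 2 ≤ s + t + k →
      ∃ c : K, ⁅B s, B t⁆ - c • B (s + t) ∈ Φ (2 * (s + t) + 2) := fun k => by
    induction k with
    | zero =>
      intro s t hs ht hq
      rw [b2 (s + t) (by omega)]
      refine G.coeff (by omega) ?_
      rcases le_total s t with e | e
      · exact P.fil.anti (by omega) (P.fil.lie (b3 s hs) (b2 t (by omega) ▸ G.mem (by omega)))
      · exact P.fil.anti (by omega) (P.fil.lie (b2 s (by omega) ▸ G.mem (by omega)) (b3 t ht))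
    | succ k ih =>
      intro s t hs ht hq
      obtain ⟨c, hc⟩ := ih (s + 1) t (by omega) ht (by omega)
      obtain ⟨d, hd⟩ := ih s (t + 1) hs (by omega) (by omega)
      refine ⟨c + d, P.fil.anti (by omega) (h4 (s + t - 2) _ (P.fil.anti (by omega) (sub_mem
        (P.fil.anti (by omega) (P.fil.lie (b3 s hs) (b3 t ht))) (smul_mem _ _ (b3 _ (by omega)))))
        (P.fil.anti (b := 2 * (s + t + 1) + 2) (by omega) ?_))⟩
      have := add_mem (add_right_comm s 1 t ▸ hc) hd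
      rwa [sub_add_sub_comm, ← b1 s hs, ← b1 t ht, ← leibniz_lie, ← add_assoc, ← add_smul,
        ← b1 _ (by omega), ← lie_smul, ← lie_sub] at this
  obtain ⟨c', c1, c2, c3, c4⟩ := exists_cst_gen (U := fun i => Φ (2 * i))
    (W := fun i => Φ (2 * i + 2)) (q := 1) (d := 1)
    (fun ha hb => P.fil.anti (by omega) (P.fil.lie ha hb)) (P.fil.two.ge trivial) b3 b1
    (fun s hs => b4 s (by omega)) fun s t hs ht => b5 (2 * q + 2) s t hs ht (by omega)
  obtain ⟨c5, c6⟩ := Cst.one_eq ⟨c1, c2, c3⟩ (H1 K c' ⟨c1, c2, c3⟩)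
  obtain ⟨c, d1, d2⟩ := P.fil.exists_cst G (Nat.le_add_right q q) (fun _ => G.mem) G.step
  have h7 : ∀ {s z}, z ∈ Φ (2 * s) → ⁅x, z⁆ ∈ Φ (2 * s + 3) →
      (∀ t, q + 2 ≤ t → ⁅z, B t⁆ ∈ Φ (2 * (s + t) + 2)) → z ∈ Φ (2 * s + 1) := fun {s z} hz hz' e => by
    obtain ⟨κ, k1, k2, k3⟩ := P.fil.exists_kappa G hz hz' d2
    have k4 : ∀ t k, q ≤ t → κ (t + 2 * k) = κ t := fun t k ht => by
      induction k with
      | zero => rfl
      | succ k ih => rw [mul_add, ← add_assoc, k2 _ (by omega), ih]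
    have k5 : ∀ t, q ≤ t → κ (2 * t + 1) = 0 := fun t ht => by
      rw [← k4 _ 2 (by omega), show 2 * t + 1 + 2 * 2 = 2 * (t + 2) + 1 by omega]
      exact coeff_uniq (G.ne _ (by omega)) (k1 _ (by omega)) (by
        simpa [← b2 (t + 2) (by omega)] using P.fil.anti (by omega) (e (t + 2) (by omega)))
    have k6 : ∀ t, q ≤ t → κ (2 * t) = κ (2 * q) := fun t ht => by
      rw [← k4 (2 * q) (t - q) (by omega), show 2 * q + 2 * (t - q) = 2 * t by omega]
    by_cases k7 : κ (2 * q) = 0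
    · refine P.faith' G hz ((eventually_ge_atTop (2 * q)).mono fun t ht => ?_)
      obtain ⟨m, rfl | rfl⟩ := t.even_or_odd'
      · simpa [k6 m (by omega), k7] using k1 (2 * m) (by omega)
      · simpa [k5 m (by omega)] using k1 (2 * m + 1) (by omega)
    · refine (P.raise G fun s t hs ht => ?_).elim
      have k8 := k3 (2 * s + 1) (2 * t + 1) (by omega) (by omega)
      rw [k5 s hs, k5 t ht, show 2 * s + 1 + (2 * t + 1) = 2 * (s + t + 1) by omega, k6 _ (by omega),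
        zero_mul, zero_mul, add_zero] at k8
      simpa [(mul_eq_zero.1 k8).resolve_left k7] using d2 (2 * s + 1) (2 * t + 1) (by omega) (by omega)
  have h8 : ∀ k s, 2 ≤ s → q + 1 ≤ s + k → B s ∈ Φ (2 * s + 1) := fun k => by
    induction k with
    | zero => exact fun s _ hs => b2 s hs ▸ G.mem (by omega)
    | succ k ih =>
      exact fun s hs hq => h7 (b3 s (by omega)) (b1 s (by omega) ▸ ih (s + 1) (by omega) (by omega))
        fun t ht => by simpa [c6 s t hs (by omega)] using c4 s t (by omega) (by omega)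
  have h9 : B 1 - c' 1 2 • x ∈ Φ 3 := h7 (s := 1) (P.fil.two.ge trivial)
    (by simpa [b1 1 le_rfl] using h8 q 2 le_rfl (by omega)) fun t ht => by
      simpa [b1 t (by omega), c5 t (by omega), add_comm 1 t] using c4 1 t le_rfl (by omega)
  let E' := fun s => if s % 2 = 0 then A (s / 2) else if s = 3 then B 1 - c' 1 2 • x else B (s / 2)
  have e0 : ∀ k, E' (2 * k) = A k := fun k => by simp [E']
  have e1 : ∀ k, 2 ≤ k → E' (2 * k + 1) = B k := fun k hk => by
    simp [E', show 2 * k + 1 ≠ 3 by omega, show (2 * k + 1) / 2 = k by omega]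
  have e2 : ∀ s, 2 ≤ s → ⁅x, E' s⁆ = E' (s + 2) := fun s hs => by
    obtain ⟨k, rfl | rfl⟩ := s.even_or_odd'
    · rw [e0, a1 k (by omega), ← e0]; rfl
    obtain rfl | hk : k = 1 ∨ 2 ≤ k := by omega
    · simp [E', b1 1 le_rfl]
    · rw [e1 k hk, b1 k (by omega), ← e1 _ (by omega)]; rfl
  have e3 : ∀ s, 2 ≤ s → E' s ∈ Φ s := fun s hs => by
    obtain ⟨k, rfl | rfl⟩ := s.even_or_odd'
    · exact e0 k ▸ a3 k (by omega)
    obtain rfl | hk : k = 1 ∨ 2 ≤ k := by omega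
    · exact h9
    · exact e1 k hk ▸ h8 q k hk (by omega)
  have e4 : ∀ s, 4 ≤ s → E' s ∉ Φ (s + 1) := fun s hs => by
    obtain ⟨k, rfl | rfl⟩ := s.even_or_odd'
    · exact e0 k ▸ a4 k (by omega)
    · exact e1 k (by omega) ▸ b4 k (by omega)
  have e5 : ∀ s, 4 ≤ s → cod (Φ s) < cod (Φ (s + 1)) := fun s hs =>
    cod_lt (lt_of_le_of_ne (P.fil.anti s.le_succ) fun e => e4 s hs (e.ge (e3 s (by omega))))
  have G' : Good2 x Φ E' 4 := ⟨fun s hs => e2 s (by omega), fun s hs => le_span_sup_of_cod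
    (P.fil.anti (Nat.le_add_right s 1)) (by
      obtain ⟨k, rfl⟩ := Nat.exists_eq_add_of_le' hs
      obtain ⟨k, rfl | rfl⟩ := k.even_or_odd'
      · have f1 : _ < cod (Φ (2 * (k + 1) + 4)) := e5 (2 * k + 4 + 1) (by omega)
        have f2 := h1 k
        have f3 := h1 (k + 1)
        omega
      · have f1 : _ < cod (Φ (2 * k + 1 + 4)) := e5 (2 * k + 4) (by omega)
        have f2 := h1 k
        have f3 : cod (Φ (2 * k + 1 + 4 + 1)) = _ := h1 (k + 1)
        omega) (e3 s (by omega)) (e4 s hs), e4⟩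
  obtain ⟨c₂, f1, f2⟩ := P.fil.exists_cst G' (q := 2) le_rfl e3 e2
  refine P.raise G' fun s t hs ht => ?_
  have f3 := HS K c₂ f1 (fun e => e4 4 le_rfl (P.faith' G' (e3 4 (by omega))
    ((e.and (eventually_ge_atTop 2)).mono fun t ht => by
      simpa [not_not.1 ht.1] using f2 4 t (by omega) ht.2))) s t (by omega) (by omega)
  simpa [f3] using f2 (2 * s + 1) (2 * t + 1) (by omega) (by omega)

theorem oeStmt_of (HP : P2Stmt) (H4 : Q4Stmt) (HS : S1Stmt) : OEStmt := by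
  intro K L _ _ _ _ _ x Φ q h P hc
  have hq : 3 ≤ q := by_contra fun e => P.ach.ne q le_rfl (P.fil.anti (by omega) (P.fil.two.ge trivial))
  obtain ⟨E, G⟩ := P.fil.good2 h hq hc
  have h1 : ∀ j, q ≤ j → cod (Φ j) + q = cod (Φ q) + j := fun j hj => by
    induction j, hj using Nat.le_induction with
    | base => rfl
    | succ j hj ih => rw [hc j hj]; omega
  have h2 := P.fil.bud q
  by_cases h3 : cod (Φ q) + 2 = q
  · exact P.tight HP q1Stmt H4 h G fun j hj => by have := h1 j hj; omega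
  · exact (P.slack q1Stmt HS h G fun j hj => by have := h1 j hj; omega).elim

end Pool.Agent.P78
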